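import Mathlib

/-!
Average-case lower bounds for the k-clique formula: definitions.

`L` rows, block `V j` of row `j`, a point is a function `x : Fin L → ν` with `x j ∈ V j`.
-/

set_option autoImplicit false
set_option linter.unusedSectionVars false

open Finset

namespace Pool.Agent.H15.RD

variable {ν : Type} [Fintype ν] [DecidableEq ν] {L : ℕ}

/-- The letters of the point `x` are pairwise adjacent. -/
def Cl (G : SimpleGraph ν) (x : Fin L → ν) : Prop := ∀ i j, i ≠ j → G.Adj (x i) (x j)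

/-- The letters of `x` in the rows `T` are adjacent to all letters in `S`. -/
def Ad (G : SimpleGraph ν) (T : Finset (Fin L)) (x : Fin L → ν) (S : Finset ν) : Prop :=
  ∀ j ∈ T, ∀ v ∈ S, G.Adj (x j) v

/-- `x` and `y` agree on `U`. -/
def Eqn (U : Finset (Fin L)) (x y : Fin L → ν) : Prop := ∀ j ∈ U, x j = y j

open Classical in
/-- The common neighbours of `S` in `B`. -/
noncomputable def nbr (G : SimpleGraph ν) (B S : Finset ν) : Finset ν :=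
  B.filter (fun v => ∀ u ∈ S, G.Adj v u)

open Classical in
/-- The points of `X` that agree with `α` on `U` and are adjacent to `Φ`. -/
noncomputable def cell (G : SimpleGraph ν) (X : Finset (Fin L → ν)) (U : Finset (Fin L))
    (α : Fin L → ν) (Φ : Finset ν) : Finset (Fin L → ν) :=
  X.filter (fun x => Eqn U x α ∧ Ad G univ x Φ)

open Classical in
/-- All points that are cliques. -/
noncomputable def pts (G : SimpleGraph ν) (V : Fin L → Finset ν) : Finset (Fin L → ν) :=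
  (Fintype.piFinset V).filter (Cl G)

/-- A player: the graph, the blocks of the rows, the letters of the other players. -/
structure Pl (ν : Type) (L : ℕ) where
  G : SimpleGraph ν
  V : Fin L → Finset ν
  Out : Finset ν

/-- The numbers. -/
structure Num where
  (n w f k m0 ψm s r No : ℕ)
  (p q e K β h h1 κ0 Z1 G1 Zg Gg ZS GS B : ℝ)

/-- The number of points and sets of the dispersion property. -/
noncomputable def Num.t (c : Num) (g m : ℕ) : ℕ := ⌈c.K / c.p ^ (g * m)⌉₊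

/-- The inequalities between the numbers. -/
structure Num.OK (c : Num) (R L : ℕ) : Prop where
  R_pos : 1 ≤ R
  L_pos : 1 ≤ L
  n_pos : 0 < c.n
  f_pos : 1 ≤ c.f
  f_lt : c.f < L
  p_pos : 0 < c.p
  p_le : c.p ≤ 1
  e_gt : 1 < c.e
  eq_q : c.e ^ 2 ≤ c.q
  K_ge : 1 ≤ c.K
  β_ge : 16 ≤ c.β
  h_ge : 1 ≤ c.h
  h1_ge : 1 ≤ c.h1
  κ0_pos : 0 < c.κ0
  B_ge : 1 ≤ c.B
  Z1_ge : 1 ≤ c.Z1
  G1_ge : 1 ≤ c.G1
  m0_pos : 1 ≤ c.m0
  w_eq : c.w = R * c.f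
  ψm_le : c.ψm + 6 * c.w ≤ 3 * L
  s_ge : 4 * L + c.k * c.w ≤ c.s
  kβ : (1 + 1 / c.β ^ 2) ^ (c.k * c.w) ≤ 2
  F1 : ∀ g m : ℕ, 1 ≤ g → g ≤ c.w → 1 ≤ m → m ≤ c.m0 →
    2 * (g : ℝ) * c.q ^ L * c.t g m * c.e ≤ c.β * (c.e - 1)
  FB : ∀ g m : ℕ, 1 ≤ g → g ≤ c.w → 1 ≤ m → m ≤ c.m0 → (c.m0 : ℝ) * c.t g m ≤ c.B
  F2 : 8 * 1024 ^ L * (c.No : ℝ) * c.Z1 ≤ c.β ^ c.k
  F3 : 8 * 2 ^ L * c.G1 * c.B * c.h ≤ c.n * c.p ^ (4 * L)
  F4 : 8 * 1024 ^ L * c.Z1 * c.B ^ c.m0 ≤ (c.n * c.p ^ (4 * L)) ^ c.m0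
  F5 : 2 * c.q ^ L ≤ c.h1
  FZ : 2 * c.β ^ (8 * c.w) * c.h1 ^ c.w ≤ c.κ0 * c.Z1
  FG : 8 * c.h1 ^ (2 * c.w) ≤ c.G1
  FZg : 2 * c.β ^ (8 * c.w) * c.h1 ^ c.w ≤ c.κ0 * c.Zg
  FGg : 8 * c.h1 ^ (2 * c.w) ≤ c.Gg
  FU : 8 ^ L * c.β ^ (8 * c.w) ≤ c.κ0 * c.h ^ (c.f + 1)
  FΨ : 8 ^ L * c.β ^ (8 * c.w) ≤ c.κ0 * c.h1 ^ c.ψm
  FC : c.β ^ (8 * c.w) ≤ c.κ0 * (c.n * c.p ^ (4 * L)) ^ (L - c.f)
  FE : 100 * c.w * 512 ^ L * 2 ^ c.k * c.β ^ (8 * c.w) ≤ c.κ0 * c.β ^ (2 * c.k)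
  F8 : 2 * (R : ℝ) * 16 ^ L * c.G1 * c.h * c.β ^ 2 ≤ c.n * c.p ^ (5 * L)
  F9 : c.Zg * (2 * c.q ^ L) ^ R ≤ c.ZS
  F9' : c.Gg * (2 * c.q ^ L * c.h1 ^ c.f) ^ R ≤ c.GS
  F10 : c.ZS * 2 ^ c.r * (2 * c.q ^ L) ^ R ≤ c.Z1
  F10' : c.GS * 2 ^ c.r * (2 * c.q ^ L * c.h1 ^ c.f) ^ R ≤ c.G1
  F12 : 2 * 8 ^ L ≤ c.ZS
  F12' : 2 * 64 ^ L ≤ c.GS

open Classical in
/-- The adjacent pairs. -/
noncomputable def adp (G : SimpleGraph ν) (T : Finset (Fin L)) {t : ℕ} (x : Fin t → Fin L → ν)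
    (y : Fin t → Finset ν) : Finset (Fin t × Fin t) :=
  univ.filter (fun i => Ad G T (x i.1) (y i.2))

/-- The properties of the graph, for one player: degrees and dispersion. -/
structure Pl.OK (P : Pl ν L) (c : Num) : Prop where
  dis : ∀ i j, i ≠ j → Disjoint (P.V i) (P.V j)
  out : ∀ j, Disjoint P.Out (P.V j)
  card : ∀ j, (P.V j).card = c.n
  out_card : P.Out.card ≤ c.No
  lo : ∀ (j : Fin L) (S : Finset ν), S.card ≤ c.s → Disjoint S (P.V j) →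
    (c.n : ℝ) * c.p ^ S.card / 8 ≤ (nbr P.G (P.V j) S).card
  up : ∀ (j : Fin L) (S : Finset ν), S.card ≤ c.s → Disjoint S (P.V j) →
    ((nbr P.G (P.V j) S).card : ℝ) ≤ 8 * (c.n * c.p ^ S.card)
  disp : ∀ m g : ℕ, 1 ≤ m → m ≤ c.m0 → 1 ≤ g → g ≤ c.w → ∀ T : Finset (Fin L), T.card = m →
    ∀ x : Fin (c.t g m) → Fin L → ν, (∀ i, ∀ j ∈ T, x i j ∈ P.V j) →
    (∀ i i', i ≠ i' → ∀ j ∈ T, x i j ≠ x i' j) →
    ∀ y : Fin (c.t g m) → Finset ν, (∀ i, y i ⊆ P.Out) → (∀ i, (y i).card = g) →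
    (∀ i i', i ≠ i' → Disjoint (y i) (y i')) →
    c.p ^ (g * m) * (c.t g m : ℝ) ^ 2 < c.e * (adp P.G T x y).card

/-- The weight of a cell with `u` fixed rows and `φ` outside letters. -/
noncomputable def Num.W (c : Num) (L u φ : ℕ) : ℝ :=
  (c.n : ℝ) ^ u * c.p ^ (u.choose 2) / c.p ^ (φ * (L - u))

/-- The total weight. -/
noncomputable def Num.Tot (c : Num) (L : ℕ) : ℝ := (c.n : ℝ) ^ L * c.p ^ (L.choose 2)

/-- The density of `X` in a cell. -/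
noncomputable def Pl.den (P : Pl ν L) (c : Num) (X : Finset (Fin L → ν)) (U : Finset (Fin L))
    (α : Fin L → ν) (Φ : Finset ν) : ℝ := (cell P.G X U α Φ).card * c.W L U.card Φ.card

/-- `α` is a clique on `U`, adjacent to `Φ`. -/
structure Pl.Val (P : Pl ν L) (U : Finset (Fin L)) (α : Fin L → ν) (Φ : Finset ν) : Prop where
  mem : ∀ j ∈ U, α j ∈ P.V j
  cl : ∀ i ∈ U, ∀ j ∈ U, i ≠ j → P.G.Adj (α i) (α j)
  ad : Ad P.G U α Φ

/-- `X` is a dense set in the cell of `U`, `α`, `Φ`, and it is not much denser in smaller cells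
(with at most `v` further outside letters). -/
structure Pl.Sp (P : Pl ν L) (c : Num) (X : Finset (Fin L → ν)) (U : Finset (Fin L))
    (α : Fin L → ν) (Φ : Finset ν) (Z G : ℝ) (v : ℕ) : Prop where
  sub : X ⊆ cell P.G (pts P.G P.V) U α Φ
  out : Φ ⊆ P.Out
  card_le : Φ.card ≤ 3 * L
  dens : c.Tot L ≤ Z * P.den c X U α Φ
  upper : ∀ (U' : Finset (Fin L)) (α' : Fin L → ν) (Φ' : Finset ν), U ⊆ U' → Eqn U α' α →
    Φ ⊆ Φ' → Φ' ⊆ P.Out → Φ'.card ≤ Φ.card + v →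
    P.den c X U' α' Φ' ≤
      G * c.h ^ (U'.card - U.card) * c.h1 ^ (Φ'.card - Φ.card) * P.den c X U α Φ

/-- `x` is good in `C` for the set `y` of outside letters: below `x` there is a spread part of `C`,
in a cell containing `x`, whose points are adjacent to `y`. -/
def Pl.Good (P : Pl ν L) (c : Num) (F : (Fin L → ν) → ℝ) (C : Finset (Fin L → ν))
    (x : Fin L → ν) (y : Finset ν) : Prop :=
  ∃ (U : Finset (Fin L)) (Ψ : Finset ν) (A : Finset (Fin L → ν)), A ⊆ C ∧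
    (∀ x' ∈ A, F x' ≤ F x) ∧ U.card ≤ c.f ∧ Ψ.card ≤ c.ψm ∧ Ad P.G univ x Ψ ∧
    P.Sp c A U x (Ψ ∪ y) c.Zg c.Gg (2 * c.w)

open Classical in
/-- The points of `C` that are not good for some small adjacent set of outside letters
containing `Y`. -/
noncomputable def Pl.Bad (P : Pl ν L) (c : Num) (F : (Fin L → ν) → ℝ)
    (C : Finset (Fin L → ν)) (Y : Finset ν) : Finset (Fin L → ν) :=
  C.filter (fun x => ∃ y, Y ⊆ y ∧ y ⊆ P.Out ∧ y.card ≤ c.w ∧ Ad P.G univ x y ∧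
    ¬ P.Good c F C x y)

/-- The points removed at the lines `0, ..., s - 1`. -/
noncomputable def Pl.bad (P : Pl ν L) (c : Num) (F : ℕ → (Fin L → ν) → ℝ) :
    ℕ → Finset (Fin L → ν)
  | 0 => ∅
  | s + 1 => Pl.bad P c F s ∪ P.Bad c (F s) (pts P.G P.V \ Pl.bad P c F s) ∅

/-- The factor in the main lemma on cells. -/
noncomputable def Num.κ (c : Num) (u ψ y : ℕ) : ℝ :=
  c.κ0 * c.h ^ u * c.h1 ^ ψ / c.β ^ (8 * y)

/-- The claim of the main lemma for a set `C` in the cell of `U`, `α`, `Ψ ∪ Y`. -/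
def Pl.Clm (P : Pl ν L) (c : Num) (F : (Fin L → ν) → ℝ) (C : Finset (Fin L → ν))
    (U : Finset (Fin L)) (α : Fin L → ν) (Ψ Y : Finset ν) : Prop :=
  P.den c (P.Bad c F C Y) U α (Ψ ∪ Y) ^ 2 ≤
    c.κ U.card Ψ.card Y.card * c.Tot L * P.den c C U α (Ψ ∪ Y)

/-- The set `γ` of outside letters makes `A` much less dense. -/
def Pl.Light (P : Pl ν L) (c : Num) (A : Finset (Fin L → ν)) (U : Finset (Fin L))
    (α : Fin L → ν) (Φ γ : Finset ν) : Prop :=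
  γ ⊆ P.Out ∧ Disjoint γ Φ ∧ Ad P.G U α γ ∧
    c.h1 ^ γ.card * P.den c A U α (Φ ∪ γ) < P.den c A U α Φ

open Classical in
/-- The minimal light sets of size `g`. -/
noncomputable def Pl.ML (P : Pl ν L) (c : Num) (A : Finset (Fin L → ν)) (U : Finset (Fin L))
    (α : Fin L → ν) (Φ : Finset ν) (g : ℕ) : Finset (Finset ν) :=
  univ.filter (fun γ => γ.card = g ∧ P.Light c A U α Φ γ ∧
    ∀ γ' ⊆ γ, γ' ≠ γ → ¬ P.Light c A U α Φ γ')

/-! ### Simple facts -/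

lemma Num.OK.q_ge {c : Num} {R L : ℕ} (h : c.OK R L) : 1 < c.q := by
  have h1 := h.e_gt
  have h2 := h.eq_q
  nlinarith

lemma mem_cell {G : SimpleGraph ν} {X : Finset (Fin L → ν)} {U : Finset (Fin L)} {α : Fin L → ν}
    {Φ : Finset ν} {x : Fin L → ν} : x ∈ cell G X U α Φ ↔ x ∈ X ∧ Eqn U x α ∧ Ad G univ x Φ := by
  simp [cell]

lemma mem_nbr {G : SimpleGraph ν} {B S : Finset ν} {v : ν} :
    v ∈ nbr G B S ↔ v ∈ B ∧ ∀ u ∈ S, G.Adj v u := by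
  simp [nbr]

lemma mem_pts {G : SimpleGraph ν} {V : Fin L → Finset ν} {x : Fin L → ν} :
    x ∈ pts G V ↔ (∀ j, x j ∈ V j) ∧ Cl G x := by
  simp [pts]

lemma cell_sub (G : SimpleGraph ν) (X : Finset (Fin L → ν)) (U : Finset (Fin L)) (α : Fin L → ν)
    (Φ : Finset ν) : cell G X U α Φ ⊆ X := fun _ h => (mem_cell.1 h).1

lemma cell_mono {G : SimpleGraph ν} {X Y : Finset (Fin L → ν)} (h : X ⊆ Y) (U : Finset (Fin L))
    (α : Fin L → ν) (Φ : Finset ν) : cell G X U α Φ ⊆ cell G Y U α Φ := fun _ hx =>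
  mem_cell.2 ⟨h (mem_cell.1 hx).1, (mem_cell.1 hx).2⟩

lemma cell_anti {G : SimpleGraph ν} (X : Finset (Fin L → ν)) {U U' : Finset (Fin L)}
    {α α' : Fin L → ν} {Φ Φ' : Finset ν} (hU : U ⊆ U') (hα : Eqn U α' α) (hΦ : Φ ⊆ Φ') :
    cell G X U' α' Φ' ⊆ cell G X U α Φ := by
  intro x hx
  obtain ⟨h1, h2, h3⟩ := mem_cell.1 hx
  exact mem_cell.2 ⟨h1, fun j hj => (h2 j (hU hj)).trans (hα j hj),
    fun j hj v hv => h3 j hj v (hΦ hv)⟩

lemma cell_cell {G : SimpleGraph ν} (X : Finset (Fin L → ν)) {U U' : Finset (Fin L)}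
    {α α' : Fin L → ν} {Φ Φ' : Finset ν} (hU : U ⊆ U') (hα : Eqn U α' α) (hΦ : Φ ⊆ Φ') :
    cell G (cell G X U α Φ) U' α' Φ' = cell G X U' α' Φ' := by
  ext x
  constructor
  · intro hx
    exact mem_cell.2 ⟨(mem_cell.1 (mem_cell.1 hx).1).1, (mem_cell.1 hx).2⟩
  · intro hx
    exact mem_cell.2 ⟨cell_anti X hU hα hΦ hx, (mem_cell.1 hx).2⟩

lemma cell_eq {G : SimpleGraph ν} {X Y : Finset (Fin L → ν)} {U : Finset (Fin L)}
    {α : Fin L → ν} {Φ : Finset ν} (h : X ⊆ cell G Y U α Φ) : cell G X U α Φ = X := by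
  refine Finset.Subset.antisymm (cell_sub _ _ _ _ _) fun x hx => mem_cell.2 ⟨hx, ?_⟩
  exact (mem_cell.1 (h hx)).2

lemma Eqn.symm {U : Finset (Fin L)} {x y : Fin L → ν} (h : Eqn U x y) : Eqn U y x :=
  fun j hj => (h j hj).symm

lemma Ad.mono {G : SimpleGraph ν} {T T' : Finset (Fin L)} {x : Fin L → ν} {S S' : Finset ν}
    (h : Ad G T x S) (hT : T' ⊆ T) (hS : S' ⊆ S) : Ad G T' x S' := fun j hj v hv =>
  h j (hT hj) v (hS hv)

lemma Num.W_pos {c : Num} (hp : 0 < c.p) (hn : 0 < c.n) (L u φ : ℕ) : 0 < c.W L u φ := by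
  unfold Num.W
  have : (0 : ℝ) < c.n := by exact_mod_cast hn
  positivity

lemma Num.Tot_pos {c : Num} (hp : 0 < c.p) (hn : 0 < c.n) (L : ℕ) : 0 < c.Tot L := by
  unfold Num.Tot
  have : (0 : ℝ) < c.n := by exact_mod_cast hn
  positivity

lemma Pl.den_nonneg (P : Pl ν L) {c : Num} (hp : 0 < c.p) (hn : 0 < c.n)
    (X : Finset (Fin L → ν)) (U : Finset (Fin L)) (α : Fin L → ν) (Φ : Finset ν) :
    0 ≤ P.den c X U α Φ := mul_nonneg (Nat.cast_nonneg _) (Num.W_pos hp hn _ _ _).le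

lemma Pl.den_mono (P : Pl ν L) {c : Num} (hp : 0 < c.p) (hn : 0 < c.n)
    {X Y : Finset (Fin L → ν)} (h : X ⊆ Y) (U : Finset (Fin L)) (α : Fin L → ν) (Φ : Finset ν) :
    P.den c X U α Φ ≤ P.den c Y U α Φ :=
  mul_le_mul_of_nonneg_right (by exact_mod_cast card_le_card (cell_mono h U α Φ))
    (Num.W_pos hp hn _ _ _).le

lemma Pl.den_of_sub (P : Pl ν L) (c : Num) {X Y : Finset (Fin L → ν)} {U : Finset (Fin L)}
    {α : Fin L → ν} {Φ : Finset ν} (h : X ⊆ cell P.G Y U α Φ) :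
    P.den c X U α Φ = X.card * c.W L U.card Φ.card := by
  unfold Pl.den
  rw [cell_eq h]

lemma Pl.Good.mono {P : Pl ν L} {c : Num} {F : (Fin L → ν) → ℝ} {C C' : Finset (Fin L → ν)}
    {x : Fin L → ν} {y : Finset ν} (h : P.Good c F C x y) (hC : C ⊆ C') :
    P.Good c F C' x y := by
  obtain ⟨U, Ψ, A, h1, h2⟩ := h
  exact ⟨U, Ψ, A, h1.trans hC, h2⟩

lemma Pl.mem_Bad {P : Pl ν L} {c : Num} {F : (Fin L → ν) → ℝ} {C : Finset (Fin L → ν)}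
    {Y : Finset ν} {x : Fin L → ν} : x ∈ P.Bad c F C Y ↔ x ∈ C ∧ ∃ y, Y ⊆ y ∧ y ⊆ P.Out ∧
      y.card ≤ c.w ∧ Ad P.G univ x y ∧ ¬ P.Good c F C x y := by
  simp [Pl.Bad]

lemma Pl.mem_ML {P : Pl ν L} {c : Num} {A : Finset (Fin L → ν)} {U : Finset (Fin L)}
    {α : Fin L → ν} {Φ γ : Finset ν} {g : ℕ} : γ ∈ P.ML c A U α Φ g ↔
      γ.card = g ∧ P.Light c A U α Φ γ ∧ ∀ γ' ⊆ γ, γ' ≠ γ → ¬ P.Light c A U α Φ γ' := by
  simp [Pl.ML]

end Pool.Agent.H15.RD
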