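/-
ROW Cnt (about 150 lines). Counting points, row by row.
(1) count_up. PROOF. Induction on `L - U.card` (i.e. on `(Uᶜ).card`), all `U`, `α`, `T` (with `T` disjoint from `U`). Let `N(U,α,T)` be the cardinality on the left.
 If `U = univ` then `N ≤ 1` and `W L L φ = Tot L` (`p ^ (φ * 0) = 1`), `T = ∅`. Otherwise take `j ∉ U`; may assume the filter is nonempty (otherwise 0), so (with a member `x`)
 `α i = x i ∈ V i` for `i ∈ U`. The points of the left side with `x j = v` are in `cell .. (insert j U) (Function.update α j v) Φ`, and `v ∈ nbr G (V j) S'` with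
 `S' = U.image α ∪ Φ` if `j ∉ T`, and `S' = U.image α ∪ Φ ∪ S` if `j ∈ T`; `S'.card = u + φ (+ |S|)` exactly (the letters `α i`, `i ∈ U`, are different because the blocks are
 disjoint; `Φ, S ⊆ Out`, `Disjoint S Φ`), `Disjoint S' (V j)`, so there are at most `8 n p ^ S'.card` such `v` (`up`). By induction (with `T.erase j`)
 `N(insert j U, ..) * W L (u+1) φ ≤ 8 ^ (L-u-1) * Tot * p ^ (S.card * (T.erase j).card)`, and `W L (u+1) φ = W L u φ * (n * p ^ u * p ^ φ)` (as `u < L`; `(u+1).choose 2 = u + u.choose 2`).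
(2) count_lo. PROOF. The same, with `lo`: for `U = univ` the point `α` itself is in the set (`Val`); for every `v ∈ nbr G (V j) S'` the pair `(insert j U, update α j v)` is again `Val`.
-/
import Pool.Agent.H15.RD.Defs

set_option autoImplicit false
set_option linter.unusedSectionVars false

open Finset

namespace Pool.Agent.H15.RD

variable {ν : Type} [Fintype ν] [DecidableEq ν] {L : ℕ}

open Classical in
/-- The points of a cell that are adjacent to `S` in the rows `T`. -/
noncomputable def Pl.sel (P : Pl ν L) (U : Finset (Fin L)) (α : Fin L → ν) (Φ : Finset ν)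
    (T : Finset (Fin L)) (S : Finset ν) : Finset (Fin L → ν) :=
  (cell P.G (pts P.G P.V) U α Φ).filter (fun x => Ad P.G T x S)

open Classical in
/-- Partial sets: the rows in `D` have been chosen. -/
noncomputable def Cnt_pa (P : Pl ν L) (U : Finset (Fin L)) (α : Fin L → ν) (Φ : Finset ν)
    (T : Finset (Fin L)) (S : Finset ν) (D : Finset (Fin L)) : Finset (Fin L → ν) :=
  univ.filter (fun z => (∀ i, i ∉ D → z i = α i) ∧ (∀ i ∈ U ∪ D, z i ∈ P.V i) ∧
    (∀ i ∈ U ∪ D, ∀ j ∈ U ∪ D, i ≠ j → P.G.Adj (z i) (z j)) ∧ (∀ i ∈ U ∪ D, ∀ v ∈ Φ, P.G.Adj (z i) v) ∧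
    ∀ i ∈ D, i ∈ T → ∀ v ∈ S, P.G.Adj (z i) v)

theorem mem_Cnt_pa {P : Pl ν L} {U : Finset (Fin L)} {α : Fin L → ν} {Φ : Finset ν}
    {T : Finset (Fin L)} {S : Finset ν} {D : Finset (Fin L)} {z : Fin L → ν} :
    z ∈ Cnt_pa P U α Φ T S D ↔ (∀ i, i ∉ D → z i = α i) ∧ (∀ i ∈ U ∪ D, z i ∈ P.V i) ∧
    (∀ i ∈ U ∪ D, ∀ j ∈ U ∪ D, i ≠ j → P.G.Adj (z i) (z j)) ∧ (∀ i ∈ U ∪ D, ∀ v ∈ Φ, P.G.Adj (z i) v) ∧
    ∀ i ∈ D, i ∈ T → ∀ v ∈ S, P.G.Adj (z i) v := by
  simp [Cnt_pa]

/-- The vertices the next letter has to be adjacent to. -/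
def Cnt_nx (z : Fin L → ν) (V : Finset (Fin L)) (Φ : Finset ν) (T : Finset (Fin L)) (S : Finset ν) (i : Fin L) :
    Finset ν := V.image z ∪ (Φ ∪ if i ∈ T then S else ∅)

theorem Cnt_step (P : Pl ν L) (U : Finset (Fin L)) (α : Fin L → ν) (Φ : Finset ν)
    (T : Finset (Fin L)) (S : Finset ν) (D : Finset (Fin L)) (i : Fin L) (hiU : i ∉ U) (hiD : i ∉ D) :
    (Cnt_pa P U α Φ T S (insert i D)).card = ∑ z ∈ Cnt_pa P U α Φ T S D,
      (nbr P.G (P.V i) (Cnt_nx z (U ∪ D) Φ T S i)).card := by
  classical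
  rw [← card_sigma]
  have hne : ∀ j ∈ U ∪ D, j ≠ i := by
    rintro j hj rfl
    rcases mem_union.1 hj with h | h
    · exact hiU h
    · exact hiD h
  have hsub : ∀ j ∈ U ∪ D, j ∈ U ∪ insert i D := by
    intro j hj
    rcases mem_union.1 hj with h | h
    · exact mem_union_left _ h
    · exact mem_union_right _ (mem_insert_of_mem h)
  have hmem : ∀ j ∈ U ∪ insert i D, j = i ∨ j ∈ U ∪ D := by
    intro j hj
    rcases mem_union.1 hj with h | h
    · exact Or.inr (mem_union_left _ h)
    · rcases mem_insert.1 h with h | h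
      · exact Or.inl h
      · exact Or.inr (mem_union_right _ h)
  have hi : i ∈ U ∪ insert i D := mem_union_right _ (mem_insert_self i D)
  refine (card_bij (fun x _ => Function.update x.1 i x.2) ?_ ?_ ?_).symm
  · rintro ⟨z, v⟩ hx
    rw [mem_sigma, mem_nbr] at hx
    obtain ⟨hz, hv, hc⟩ := hx
    simp only at hz hc hv
    rw [mem_Cnt_pa] at hz ⊢
    obtain ⟨h1, h2, h3, h4, h5⟩ := hz
    simp only
    have hci : ∀ j ∈ U ∪ D, P.G.Adj v (z j) := fun j hj =>
      hc (z j) (mem_union_left _ (mem_image_of_mem _ hj))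
    refine ⟨fun j hj => ?_, fun j hj => ?_, fun j hj l hl hjl => ?_, fun j hj s hs => ?_, fun j hj hjT s hs => ?_⟩
    · have hji : j ≠ i := fun h => hj (h ▸ mem_insert_self i D)
      rw [Function.update_of_ne hji]
      exact h1 j fun h => hj (mem_insert_of_mem h)
    · rcases hmem j hj with rfl | hj'
      · rw [Function.update_self]
        exact hv
      · rw [Function.update_of_ne (hne j hj')]
        exact h2 j hj'
    · rcases hmem j hj with rfl | hj' <;> rcases hmem l hl with rfl | hl'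
      · exact absurd rfl hjl
      · rw [Function.update_self, Function.update_of_ne (hne l hl')]
        exact hci l hl'
      · rw [Function.update_self, Function.update_of_ne (hne j hj')]
        exact (hci j hj').symm
      · rw [Function.update_of_ne (hne l hl'), Function.update_of_ne (hne j hj')]
        exact h3 j hj' l hl' hjl
    · rcases hmem j hj with rfl | hj'
      · rw [Function.update_self]
        exact hc s (mem_union_right _ (mem_union_left _ hs))
      · rw [Function.update_of_ne (hne j hj')]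
        exact h4 j hj' s hs
    · rcases mem_insert.1 hj with rfl | hj'
      · rw [Function.update_self]
        refine hc s (mem_union_right _ (mem_union_right _ ?_))
        rw [if_pos hjT]
        exact hs
      · have hji : j ≠ i := by
          rintro rfl
          exact hiD hj'
        rw [Function.update_of_ne hji]
        exact h5 j hj' hjT s hs
  · rintro ⟨z, c⟩ hx ⟨z', c'⟩ hx' h
    rw [mem_sigma] at hx hx'
    simp only at h hx hx'
    rw [mem_Cnt_pa] at hx hx'
    have h1 : c = c' := by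
      have := congrFun h i
      simpa using this
    have h2 : z = z' := by
      funext j
      by_cases hj : j = i
      · subst hj
        rw [hx.1.1 j hiD, hx'.1.1 j hiD]
      · have := congrFun h j
        simpa [Function.update_of_ne hj] using this
    subst h1 h2
    rfl
  · intro z hz
    rw [mem_Cnt_pa] at hz
    obtain ⟨h1, h2, h3, h4, h5⟩ := hz
    refine ⟨⟨Function.update z i (α i), z i⟩, ?_, ?_⟩
    · rw [mem_sigma, mem_nbr]
      refine ⟨?_, h2 i hi, ?_⟩
      · rw [mem_Cnt_pa]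
        simp only
        refine ⟨fun j hj => ?_, fun j hj => ?_, fun j hj l hl hjl => ?_, fun j hj s hs => ?_,
          fun j hj hjT s hs => ?_⟩
        · by_cases hji : j = i
          · subst hji
            rw [Function.update_self]
          · rw [Function.update_of_ne hji]
            refine h1 j fun h => ?_
            rcases mem_insert.1 h with h | h
            · exact hji h
            · exact hj h
        · rw [Function.update_of_ne (hne j hj)]
          exact h2 j (hsub j hj)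
        · rw [Function.update_of_ne (hne l hl), Function.update_of_ne (hne j hj)]
          exact h3 j (hsub j hj) l (hsub l hl) hjl
        · rw [Function.update_of_ne (hne j hj)]
          exact h4 j (hsub j hj) s hs
        · have hji : j ≠ i := by
            rintro rfl
            exact hiD hj
          rw [Function.update_of_ne hji]
          exact h5 j (mem_insert_of_mem hj) hjT s hs
      · simp only
        intro u hu
        unfold Cnt_nx at hu
        rcases mem_union.1 hu with h | h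
        · obtain ⟨j, hj, rfl⟩ := mem_image.1 h
          rw [Function.update_of_ne (hne j hj)]
          exact h3 i hi j (hsub j hj) (fun h => hne j hj h.symm)
        · rcases mem_union.1 h with h | h
          · exact h4 i hi u h
          · by_cases hiT : i ∈ T
            · rw [if_pos hiT] at h
              exact h5 i (mem_insert_self i D) hiT u h
            · rw [if_neg hiT] at h
              exact absurd h (notMem_empty u)
    · simp only
      funext j
      by_cases hj : j = i
      · subst hj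
        rw [Function.update_self]
      · rw [Function.update_of_ne hj, Function.update_of_ne hj]

theorem Cnt_nx_card {P : Pl ν L} {c : Num} (h : P.OK c) (U : Finset (Fin L)) (α : Fin L → ν) (Φ : Finset ν)
    (T : Finset (Fin L)) (S : Finset ν) (D : Finset (Fin L)) (i : Fin L)
    (hΦ : Φ ⊆ P.Out) (hS : S ⊆ P.Out) (hSΦ : Disjoint S Φ) {z : Fin L → ν}
    (hz : z ∈ Cnt_pa P U α Φ T S D) :
    (Cnt_nx z (U ∪ D) Φ T S i).card = (U ∪ D).card + (Φ.card + if i ∈ T then S.card else 0) := by
  rw [mem_Cnt_pa] at hz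
  obtain ⟨_, h2, _, _, _⟩ := hz
  have hS' : (if i ∈ T then S else ∅) ⊆ P.Out := by
    split_ifs
    · exact hS
    · exact empty_subset _
  unfold Cnt_nx
  rw [card_union_of_disjoint, card_union_of_disjoint, card_image_of_injOn]
  · congr 2
    split_ifs
    · rfl
    · exact card_empty
  · intro j hj l hl hjl
    by_contra hne
    exact disjoint_left.1 (h.dis j l hne) (h2 j hj) (hjl ▸ h2 l hl)
  · split_ifs
    · exact hSΦ.symm
    · exact disjoint_empty_right _
  · rw [disjoint_left]
    intro v hv hv'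
    obtain ⟨j, hj, rfl⟩ := mem_image.1 hv
    have h3 : z j ∈ P.Out := by
      rcases mem_union.1 hv' with h4 | h4
      · exact hΦ h4
      · exact hS' h4
    exact disjoint_left.1 (h.out j) h3 (h2 j hj)

theorem Cnt_nx_dis {P : Pl ν L} {c : Num} (h : P.OK c) (U : Finset (Fin L)) (α : Fin L → ν) (Φ : Finset ν)
    (T : Finset (Fin L)) (S : Finset ν) (D : Finset (Fin L)) (i : Fin L) (hi : i ∉ U ∪ D)
    (hΦ : Φ ⊆ P.Out) (hS : S ⊆ P.Out) {z : Fin L → ν} (hz : z ∈ Cnt_pa P U α Φ T S D) :
    Disjoint (Cnt_nx z (U ∪ D) Φ T S i) (P.V i) := by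
  rw [mem_Cnt_pa] at hz
  obtain ⟨_, h2, _, _, _⟩ := hz
  rw [disjoint_left]
  intro v hv hv'
  unfold Cnt_nx at hv
  rcases mem_union.1 hv with h4 | h4
  · obtain ⟨j, hj, rfl⟩ := mem_image.1 h4
    have hji : j ≠ i := by
      rintro rfl
      exact hi hj
    exact disjoint_left.1 (h.dis j i hji) (h2 j hj) hv'
  · have h5 : v ∈ P.Out := by
      rcases mem_union.1 h4 with h5 | h5
      · exact hΦ h5
      · by_cases hiT : i ∈ T
        · rw [if_pos hiT] at h5
          exact hS h5
        · rw [if_neg hiT] at h5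
          exact absurd h5 (notMem_empty v)
    exact disjoint_left.1 (h.out i) h5 hv'

theorem Cnt_choose (u : ℕ) : (u + 1).choose 2 = u.choose 2 + u := by
  rw [Nat.choose_succ_succ' u 1, Nat.choose_one_right, add_comm]

theorem Cnt_bounds {P : Pl ν L} {c : Num} {R : ℕ} (h : P.OK c) (hc : c.OK R L) (U : Finset (Fin L))
    (α : Fin L → ν) (Φ : Finset ν) (T : Finset (Fin L)) (S : Finset ν)
    (hΦ : Φ ⊆ P.Out) (hS : S ⊆ P.Out) (hSΦ : Disjoint S Φ) (hs : Φ.card + S.card + L ≤ c.s)
    (D : Finset (Fin L)) (hUD : Disjoint U D) :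
    ((Cnt_pa P U α Φ T S D).card : ℝ) * c.p ^ (U.card.choose 2) ≤
      8 ^ D.card * ((c.n : ℝ) ^ D.card * c.p ^ ((U.card + D.card).choose 2 + (Φ.card * D.card + S.card * (D ∩ T).card))) ∧
    (P.Val U α Φ →
      (c.n : ℝ) ^ D.card * c.p ^ ((U.card + D.card).choose 2 + (Φ.card * D.card + S.card * (D ∩ T).card)) ≤
        8 ^ D.card * (((Cnt_pa P U α Φ T S D).card : ℝ) * c.p ^ (U.card.choose 2))) := by
  have hp : 0 ≤ c.p := hc.p_pos.le
  induction D using Finset.induction_on with
  | empty =>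
    have h0 : (Cnt_pa P U α Φ T S ∅).card ≤ 1 := by
      rw [card_le_one]
      intro z hz z' hz'
      rw [mem_Cnt_pa] at hz hz'
      funext i
      rw [hz.1 i (notMem_empty i), hz'.1 i (notMem_empty i)]
    refine ⟨?_, fun hv => ?_⟩
    · have h2 : ((Cnt_pa P U α Φ T S ∅).card : ℝ) ≤ 1 := by exact_mod_cast h0
      simp only [card_empty, pow_zero, one_mul, add_zero, mul_zero, empty_inter]
      nlinarith [pow_nonneg hp (U.card.choose 2)]
    · have h1 : 1 ≤ (Cnt_pa P U α Φ T S ∅).card := by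
        rw [Nat.one_le_iff_ne_zero, ← Nat.pos_iff_ne_zero, card_pos]
        refine ⟨α, ?_⟩
        rw [mem_Cnt_pa, union_empty]
        exact ⟨fun i _ => rfl, hv.mem, hv.cl, fun i hi v hv' => hv.ad i hi v hv', fun i hi => absurd hi (notMem_empty i)⟩
      have h2 : (1 : ℝ) ≤ ((Cnt_pa P U α Φ T S ∅).card : ℝ) := by exact_mod_cast h1
      simp only [card_empty, pow_zero, one_mul, add_zero, mul_zero, empty_inter]
      nlinarith [pow_nonneg hp (U.card.choose 2)]
  | insert i D hiD ih =>
    have hiU : i ∉ U := fun h => disjoint_left.1 hUD h (mem_insert_self i D)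
    have hUD' : Disjoint U D := hUD.mono_right (subset_insert i D)
    obtain ⟨ih1, ih2⟩ := ih hUD'
    have hiUD : i ∉ U ∪ D := by
      intro h
      rcases mem_union.1 h with h | h
      · exact hiU h
      · exact hiD h
    have hle : U.card + D.card ≤ L := by
      rw [← card_union_of_disjoint hUD']
      exact (card_le_univ _).trans (by rw [Fintype.card_fin])
    set e := U.card + D.card + (Φ.card + if i ∈ T then S.card else 0) with he
    have hcard : ∀ z ∈ Cnt_pa P U α Φ T S D, (Cnt_nx z (U ∪ D) Φ T S i).card = e := by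
      intro z hz
      rw [Cnt_nx_card h U α Φ T S D i hΦ hS hSΦ hz, card_union_of_disjoint hUD']
    have hes : e ≤ c.s := by
      have : (if i ∈ T then S.card else 0) ≤ S.card := by split_ifs <;> omega
      omega
    have hreg : ∀ z ∈ Cnt_pa P U α Φ T S D, (c.n : ℝ) * c.p ^ e / 8 ≤
        ((nbr P.G (P.V i) (Cnt_nx z (U ∪ D) Φ T S i)).card : ℝ) ∧
        ((nbr P.G (P.V i) (Cnt_nx z (U ∪ D) Φ T S i)).card : ℝ) ≤ 8 * (c.n * c.p ^ e) := by
      intro z hz
      have h1 := h.lo i (Cnt_nx z (U ∪ D) Φ T S i) (by rw [hcard z hz]; exact hes)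
        (Cnt_nx_dis h U α Φ T S D i hiUD hΦ hS hz)
      have h2 := h.up i (Cnt_nx z (U ∪ D) Φ T S i) (by rw [hcard z hz]; exact hes)
        (Cnt_nx_dis h U α Φ T S D i hiUD hΦ hS hz)
      rw [hcard z hz] at h1 h2
      exact ⟨h1, h2⟩
    have hstep := Cnt_step P U α Φ T S D i hiU hiD
    have hDT : (insert i D ∩ T).card = (D ∩ T).card + if i ∈ T then 1 else 0 := by
      by_cases hiT : i ∈ T
      · rw [if_pos hiT, insert_inter_of_mem hiT, card_insert_of_notMem]
        exact fun h => hiD (mem_inter.1 h).1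
      · rw [if_neg hiT, insert_inter_of_notMem hiT, add_zero]
    have hexp : (U.card + (insert i D).card).choose 2 +
        (Φ.card * (insert i D).card + S.card * (insert i D ∩ T).card) =
        ((U.card + D.card).choose 2 + (Φ.card * D.card + S.card * (D ∩ T).card)) + e := by
      rw [hDT, card_insert_of_notMem hiD, ← add_assoc U.card D.card 1, Cnt_choose, he]
      split_ifs <;> ring
    have hn : (0 : ℝ) ≤ c.n := Nat.cast_nonneg _
    set e0 := (U.card + D.card).choose 2 + (Φ.card * D.card + S.card * (D ∩ T).card) with he0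
    rw [hexp, card_insert_of_notMem hiD, pow_succ, pow_succ, pow_add, hstep]
    push_cast
    have hpe : 0 ≤ c.p ^ e := pow_nonneg hp e
    have hpU : 0 ≤ c.p ^ (U.card.choose 2) := pow_nonneg hp _
    refine ⟨?_, fun hal => ?_⟩
    · have h1 : ∑ z ∈ Cnt_pa P U α Φ T S D, ((nbr P.G (P.V i) (Cnt_nx z (U ∪ D) Φ T S i)).card : ℝ) ≤
          (Cnt_pa P U α Φ T S D).card * (8 * (c.n * c.p ^ e)) := by
        rw [← nsmul_eq_mul]
        exact sum_le_card_nsmul _ _ _ fun z hz => (hreg z hz).2
      calc _ ≤ (Cnt_pa P U α Φ T S D).card * (8 * (c.n * c.p ^ e)) * c.p ^ (U.card.choose 2) :=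
            mul_le_mul_of_nonneg_right h1 hpU
        _ = ((Cnt_pa P U α Φ T S D).card * c.p ^ (U.card.choose 2)) * (8 * (c.n * c.p ^ e)) := by ring
        _ ≤ (8 ^ D.card * ((c.n : ℝ) ^ D.card * c.p ^ e0)) * (8 * (c.n * c.p ^ e)) :=
            mul_le_mul_of_nonneg_right ih1 (by positivity)
        _ = _ := by ring
    · have h1 : (Cnt_pa P U α Φ T S D).card * (c.n * c.p ^ e / 8) ≤ ∑ z ∈ Cnt_pa P U α Φ T S D,
          ((nbr P.G (P.V i) (Cnt_nx z (U ∪ D) Φ T S i)).card : ℝ) := by
        rw [← nsmul_eq_mul]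
        exact card_nsmul_le_sum _ _ _ fun z hz => (hreg z hz).1
      have h2 := ih2 hal
      calc _ = ((c.n : ℝ) ^ D.card * c.p ^ e0) * (c.n * c.p ^ e) := by ring
        _ ≤ (8 ^ D.card * ((Cnt_pa P U α Φ T S D).card * c.p ^ (U.card.choose 2))) * (c.n * c.p ^ e) :=
            mul_le_mul_of_nonneg_right h2 (by positivity)
        _ = 8 ^ D.card * 8 * (((Cnt_pa P U α Φ T S D).card * (c.n * c.p ^ e / 8)) * c.p ^ (U.card.choose 2)) := by
            ring
        _ ≤ _ := by
            refine mul_le_mul_of_nonneg_left (mul_le_mul_of_nonneg_right h1 hpU) (by positivity)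

theorem Cnt_sel (P : Pl ν L) (U : Finset (Fin L)) (α : Fin L → ν) (Φ : Finset ν)
    (T : Finset (Fin L)) (S : Finset ν) (hT : Disjoint T U) :
    P.sel U α Φ T S = Cnt_pa P U α Φ T S Uᶜ := by
  classical
  ext z
  rw [mem_Cnt_pa, union_compl]
  unfold Pl.sel
  rw [mem_filter, mem_cell, mem_pts]
  constructor
  · rintro ⟨⟨⟨h1, h2⟩, h3, h4⟩, h5⟩
    refine ⟨fun i hi => h3 i ?_, fun i _ => h1 i, fun i _ j _ hij => h2 i j hij,
      fun i _ v hv => h4 i (mem_univ _) v hv, fun i _ hiT v hv => h5 i hiT v hv⟩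
    by_contra h
    exact hi (mem_compl.2 h)
  · rintro ⟨h1, h2, h3, h4, h5⟩
    exact ⟨⟨⟨fun i => h2 i (mem_univ _), fun i j hij => h3 i (mem_univ _) j (mem_univ _) hij⟩,
      fun i hi => h1 i fun h => (mem_compl.1 h) hi, fun i _ v hv => h4 i (mem_univ _) v hv⟩,
      fun i hi v hv => h5 i (mem_compl.2 (disjoint_left.1 hT hi)) hi v hv⟩

theorem Cnt_W (c : Num) (hp : 0 < c.p) (u φ : ℕ) (hu : u ≤ L) (e : ℕ) :
    ∃ κ : ℝ, 0 ≤ κ ∧ c.W L u φ = c.p ^ (u.choose 2) * κ ∧
      (c.n : ℝ) ^ (L - u) * c.p ^ (L.choose 2 + (φ * (L - u) + e)) * κ = c.Tot L * c.p ^ e := by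
  refine ⟨(c.n : ℝ) ^ u / c.p ^ (φ * (L - u)), by positivity, ?_, ?_⟩
  · unfold Num.W
    ring
  · unfold Num.Tot
    have h1 : (c.n : ℝ) ^ L = (c.n : ℝ) ^ (L - u) * (c.n : ℝ) ^ u := by
      rw [← pow_add, Nat.sub_add_cancel hu]
    have h2 : c.p ^ (φ * (L - u)) ≠ 0 := (pow_pos hp _).ne'
    rw [h1, pow_add, pow_add]
    field_simp

theorem count_up {P : Pl ν L} {c : Num} {R : ℕ} (h : P.OK c) (hc : c.OK R L) (U : Finset (Fin L))
    (α : Fin L → ν) (Φ : Finset ν) (T : Finset (Fin L)) (S : Finset ν) (hT : Disjoint T U)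
    (hΦ : Φ ⊆ P.Out) (hS : S ⊆ P.Out) (hSΦ : Disjoint S Φ) (hs : Φ.card + S.card + L ≤ c.s) :
    ((P.sel U α Φ T S).card : ℝ) * c.W L U.card Φ.card ≤
      8 ^ (L - U.card) * c.Tot L * c.p ^ (S.card * T.card) := by
  have h1 := (Cnt_bounds h hc U α Φ T S hΦ hS hSΦ hs Uᶜ disjoint_compl_right).1
  have h2 : U.card ≤ L := (card_le_univ U).trans (by rw [Fintype.card_fin])
  have h3 : Uᶜ.card = L - U.card := by rw [card_compl, Fintype.card_fin]
  have h4 : Uᶜ ∩ T = T := inter_eq_right.2 fun j hj => mem_compl.2 (disjoint_left.1 hT hj)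
  rw [← Cnt_sel P U α Φ T S hT, h3, h4, Nat.add_sub_cancel' h2] at h1
  obtain ⟨κ, hκ, e1, e2⟩ := Cnt_W c hc.p_pos U.card Φ.card h2 (S.card * T.card)
  calc ((P.sel U α Φ T S).card : ℝ) * c.W L U.card Φ.card
      = (P.sel U α Φ T S).card * c.p ^ (U.card.choose 2) * κ := by rw [e1]; ring
    _ ≤ _ := mul_le_mul_of_nonneg_right h1 hκ
    _ = 8 ^ (L - U.card) * ((c.n : ℝ) ^ (L - U.card) *
          c.p ^ (L.choose 2 + (Φ.card * (L - U.card) + S.card * T.card)) * κ) := by ring
    _ = _ := by rw [e2]; ring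

theorem count_lo {P : Pl ν L} {c : Num} {R : ℕ} (h : P.OK c) (hc : c.OK R L) (U : Finset (Fin L))
    (α : Fin L → ν) (Φ : Finset ν) (T : Finset (Fin L)) (S : Finset ν) (hT : Disjoint T U)
    (hΦ : Φ ⊆ P.Out) (hS : S ⊆ P.Out) (hSΦ : Disjoint S Φ) (hs : Φ.card + S.card + L ≤ c.s)
    (hv : P.Val U α Φ) :
    c.Tot L * c.p ^ (S.card * T.card) ≤
      8 ^ (L - U.card) * (((P.sel U α Φ T S).card : ℝ) * c.W L U.card Φ.card) := by
  have h1 := (Cnt_bounds h hc U α Φ T S hΦ hS hSΦ hs Uᶜ disjoint_compl_right).2 hv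
  have h2 : U.card ≤ L := (card_le_univ U).trans (by rw [Fintype.card_fin])
  have h3 : Uᶜ.card = L - U.card := by rw [card_compl, Fintype.card_fin]
  have h4 : Uᶜ ∩ T = T := inter_eq_right.2 fun j hj => mem_compl.2 (disjoint_left.1 hT hj)
  rw [← Cnt_sel P U α Φ T S hT, h3, h4, Nat.add_sub_cancel' h2] at h1
  obtain ⟨κ, hκ, e1, e2⟩ := Cnt_W c hc.p_pos U.card Φ.card h2 (S.card * T.card)
  calc c.Tot L * c.p ^ (S.card * T.card) = (c.n : ℝ) ^ (L - U.card) *
          c.p ^ (L.choose 2 + (Φ.card * (L - U.card) + S.card * T.card)) * κ := e2.symm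
    _ ≤ _ := mul_le_mul_of_nonneg_right h1 hκ
    _ = _ := by rw [e1]; ring

end Pool.Agent.H15.RD
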