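/-
ROW Spk (about 160 lines; much shorter with the moment lemma of helper80, Pool/Agent/H80/RG/Mom.lean). Few points are spiky (a k-th moment, upper bounds only). Uses sel_le as stated.
Notation: `O` a finite set, `y : ω → Finset ν` letter sets of size `g`, `u = U.card`, `M = 1/p`. `cnt P O y γ T x = #{o ∈ O | γ ∈ y o, Ad T x (y o)}`.
(1) mom_step. For every finite `S₀ ∋ γ`: `∑ o ∈ O with γ ∈ y o, p ^ (T.card * (y o \ S₀).card) ≤ #O * (2 * p ^ (g * T.card) / β ^ 2)` provided `S₀.card ≤ k * w`.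
 PROOF. Group by `Q = y o ∩ S₀ ∋ γ`: `(y o \ S₀).card = g - Q.card`, `#{o | y o ∩ S₀ = Q} ≤ #{o | Q ⊆ y o} ≤ #O / ((1/p)^(L-u) * β^2)^Q.card` (rate), so the sum is at most
 `#O * p^(g|T|) * ∑_{Q ⊆ S₀, γ ∈ Q} (p^(L-u) / β^2)^|Q| * (1/p)^(|T||Q|) ≤ #O * p^(g|T|) * ∑_{Q ∋ γ} (1/β^2)^|Q|` as `T.card ≤ L - u` (`T ⊆ Uᶜ`), and
 `∑_{Q ⊆ S₀, γ ∈ Q} (1/β^2)^|Q| = (1/β^2) (1 + 1/β^2)^(|S₀|-1) ≤ 2/β^2` (kβ; `Finset.sum_pow_mul_eq_add_pow` or `prod_add`; write `Q = insert γ Q'`).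
(2) mom_tuple. For `i ≤ k`: `∑ over f : Fin i → ω with all f l ∈ O, γ ∈ y (f l), of p ^ (T.card * (⋃ y (f l)).card) ≤ (#O * (2 * p^(g|T|) / β^2))^i * (p^|T| if i = 0 ..)`:
 induct on `i` (`Fin.consEquiv`/`Fin.snoc`, or use lists): for `i = 1` it is `#{o | γ ∈ y o} * p^(g|T|) ≤ #O * p^(g|T|) * (1/β^2)` by the rate with `γ = {γ}` (`(1/p)^(L-u) ≥ 1`); the step is (1) with
 `S₀` = the union of the previous sets (card ≤ (i) * w, contains `γ`).
(3) spiky. For `T ⊆ Uᶜ`, `γ`: `∑ x ∈ cell, cnt^k = ∑ over f of #(sel U α Φ T (⋃ y (f l))) ≤ 64^L * #cell * ∑ p^(|T| |⋃|) ≤ 64^L #cell (#O * (2 p^(g|T|)/β^2))^k` (`cnt^k` = number of `k`-tuples,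
 `Finset.card_pow`/`Fintype.card_piFinset`; `⋃ y (f l) ⊆ Out`, disjoint from `Φ`, card ≤ k g ≤ k w). Markov: points with `cnt > #O * (2 p^(g|T|)/β)` number at most `64^L #cell / β^k`.
 Sum over the `2^L` sets `T` and the letters `γ ∈ Out` (for `γ ∉ Out` the count is 0): at most `2^L * No` pairs; `64^L * 2^L = 128^L`.
-/
import Pool.Agent.H15.RD.Cn3
import Pool.Agent.H80.RG.Mom

set_option autoImplicit false
set_option linter.unusedSectionVars false

open Finset

namespace Pool.Agent.H15.RD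

variable {ν ω : Type} [Fintype ν] [DecidableEq ν] [DecidableEq ω] {L : ℕ}

/-- A family of letter sets of size `g` of other players with small codegrees. -/
structure Pl.Fam (P : Pl ν L) (c : Num) (U : Finset (Fin L)) (α : Fin L → ν) (Φ : Finset ν)
    (O : Finset ω) (y : ω → Finset ν) (g : ℕ) : Prop where
  g_pos : 1 ≤ g
  g_le : g ≤ c.w
  out : ∀ o ∈ O, y o ⊆ P.Out
  dis : ∀ o ∈ O, Disjoint (y o) Φ
  card : ∀ o ∈ O, (y o).card = g
  ad : ∀ o ∈ O, Ad P.G U α (y o)
  rate : ∀ γ : Finset ν, ((O.filter (fun o => γ ⊆ y o)).card : ℝ) *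
    ((1 / c.p) ^ (L - U.card) * c.β ^ 2) ^ γ.card ≤ O.card

open Classical in
/-- The number of sets of the family that contain `γ` and are adjacent to `x` in the rows `T`. -/
noncomputable def cntl (G : SimpleGraph ν) (O : Finset ω) (y : ω → Finset ν) (γ : ν)
    (T : Finset (Fin L)) (x : Fin L → ν) : ℕ :=
  (O.filter (fun o => γ ∈ y o ∧ Ad G T x (y o))).card

/-- No letter is in too many of the sets adjacent to `x` in `T`. -/
def Pl.NoSpike (P : Pl ν L) (c : Num) (O : Finset ω) (y : ω → Finset ν) (g : ℕ)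
    (T : Finset (Fin L)) (x : Fin L → ν) : Prop :=
  ∀ T' ⊆ T, ∀ γ : ν, (cntl P.G O y γ T' x : ℝ) ≤ 2 * c.p ^ (g * T'.card) / c.β * O.card

open Classical in
theorem Spk_one {P : Pl ν L} {c : Num} {R : ℕ} (h : P.OK c) (hc : c.OK R L)
    (U : Finset (Fin L)) (α : Fin L → ν) (Φ : Finset ν) (hΦ : Φ ⊆ P.Out) (hΦc : Φ.card ≤ 3 * L)
    (hv : P.Val U α Φ) (O : Finset ω) (y : ω → Finset ν) (g : ℕ) (hf : P.Fam c U α Φ O y g)
    (hO : O.Nonempty) (T : Finset (Fin L)) (hT : T ⊆ Uᶜ) (γ : ν) :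
    (((cell P.G (pts P.G P.V) U α Φ).filter (fun x =>
      2 * c.p ^ (g * T.card) / c.β * O.card < (cntl P.G O y γ T x : ℝ))).card : ℝ) *
      c.β ^ c.k ≤ 64 ^ L * (cell P.G (pts P.G P.V) U α Φ).card := by
  set nat := cell P.G (pts P.G P.V) U α Φ with hnat
  have hp := hc.p_pos
  have hβ : 16 ≤ c.β := hc.β_ge
  have hβ0 : 0 < c.β := by linarith
  set π : ℝ := c.p ^ T.card with hπ
  have hπ0 : 0 < π := pow_pos hp _
  set r : ℝ := (1 / c.p) ^ (L - U.card) * c.β ^ 2 with hr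
  have hr0 : 0 < r := by positivity
  have hTc : T.card ≤ L - U.card := by
    have := card_le_card hT
    rwa [card_compl, Fintype.card_fin] at this
  have hrπ : r⁻¹ / π ≤ 1 / c.β ^ 2 := by
    have h1 : c.β ^ 2 ≤ r * π := by
      have h2 : 1 ≤ (1 / c.p) ^ (L - U.card) * π := by
        rw [hπ, one_div, inv_pow, inv_mul_eq_div, one_le_div (pow_pos hp _)]
        exact pow_le_pow_of_le_one hp.le hc.p_le hTc
      have h3 : r * π = (1 / c.p) ^ (L - U.card) * π * c.β ^ 2 := by rw [hr]; ring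
      rw [h3]
      nlinarith [pow_pos hβ0 2]
    have h4 : r⁻¹ / π = 1 / (r * π) := by rw [div_eq_mul_inv, ← mul_inv, one_div]
    rw [h4]
    exact one_div_le_one_div_of_le (by positivity) h1
  have hO0 : (0 : ℝ) < O.card := by exact_mod_cast card_pos.2 hO
  obtain ⟨adj, hadj⟩ : ∃ adj : (Fin L → ν) → ν → Prop, ∀ x v, adj x v ↔
      ∀ j ∈ T, P.G.Adj (x j) v := ⟨fun x v => ∀ j ∈ T, P.G.Adj (x j) v, fun _ _ => Iff.rfl⟩
  have hnb : ∀ S : Finset ν, Pool.Agent.H80.RG.nb nat adj S = P.sel U α Φ T S := by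
    intro S
    ext x
    simp only [Pool.Agent.H80.RG.nb, Pl.sel, mem_filter, hadj, Ad]
    exact ⟨fun hh => ⟨hh.1, fun j hj v hvS => hh.2 v hvS j hj⟩,
      fun hh => ⟨hh.1, fun v hvS j hj => hh.2 j hj v hvS⟩⟩
  have hTU : Disjoint T U := by
    rw [Finset.disjoint_left]
    intro j hj hjU
    exact (mem_compl.1 (hT hj)) hjU
  have hcnt : ∀ S : Finset ν, (S ⊆ P.Out ∧ Disjoint S Φ) → S.card ≤ c.k * c.w →
      ((Pool.Agent.H80.RG.nb nat adj S).card : ℝ) ≤ (64 ^ L * nat.card) * π ^ S.card := by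
    intro S hS hSc
    rw [hnb S]
    have h1 := sel_le h hc U α Φ T S hTU hΦ hS.1 hS.2 hΦc hSc hv
    rw [mul_comm S.card, pow_mul] at h1
    calc _ ≤ _ := h1
      _ = _ := by ring
  set Og : Finset ω := O.filter (fun o => γ ∈ y o) with hOg
  have hy' : ∀ o ∈ Og, ((y o).erase γ).card = g - 1 := by
    intro o ho
    rw [hOg, mem_filter] at ho
    rw [card_erase_of_mem ho.2, hf.card o ho.1]
  have hg1 := hf.g_pos
  have hV : ∀ S : Finset ν, S.card ≤ c.k * c.w →
      ∑ o ∈ Og, π ^ ((y o).erase γ \ S).card ≤ 2 * (π ^ g / c.β ^ 2 * O.card) := by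
    intro S hS
    have h2 := Pool.Agent.H80.RG.rate_sum Og (fun o => (y o).erase γ) π r⁻¹ (O.card * r⁻¹) hπ0
      (by positivity) (by positivity) (g - 1) hy' S (fun Q _ => by
        by_cases hQ : γ ∈ Q
        · have h3 : Og.filter (fun o => Q ⊆ (y o).erase γ) = ∅ := by
            rw [filter_eq_empty_iff]
            intro o _ ho
            exact notMem_erase γ (y o) (ho hQ)
          rw [h3, card_empty, Nat.cast_zero]
          positivity
        · have h3 := hf.rate (insert γ Q)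
          rw [card_insert_of_notMem hQ] at h3
          have h4 : (Og.filter (fun o => Q ⊆ (y o).erase γ)).card ≤
              (O.filter (fun o => insert γ Q ⊆ y o)).card := by
            refine card_le_card fun o ho => ?_
            rw [mem_filter, hOg, mem_filter] at ho
            rw [mem_filter]
            exact ⟨ho.1.1, insert_subset ho.1.2 (ho.2.trans (erase_subset _ _))⟩
          have h5 : ((Og.filter (fun o => Q ⊆ (y o).erase γ)).card : ℝ) ≤
              (O.filter (fun o => insert γ Q ⊆ y o)).card := by exact_mod_cast h4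
          have h6 : 0 < r ^ (Q.card + 1) := by positivity
          have h7 : (O.card : ℝ) * r⁻¹ * r⁻¹ ^ Q.card = O.card / r ^ (Q.card + 1) := by
            rw [pow_succ, inv_pow]
            field_simp
          rw [h7, le_div_iff₀ h6]
          exact (mul_le_mul_of_nonneg_right h5 h6.le).trans h3)
    refine h2.trans ?_
    have h8 : (1 + r⁻¹ / π) ^ S.card ≤ 2 := by
      have h9 : 0 ≤ r⁻¹ / π := by positivity
      calc (1 + r⁻¹ / π) ^ S.card ≤ (1 + 1 / c.β ^ 2) ^ S.card :=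
            pow_le_pow_left₀ (by linarith) (by linarith) _
        _ ≤ (1 + 1 / c.β ^ 2) ^ (c.k * c.w) :=
            pow_le_pow_right₀ (by have : 0 < 1 / c.β ^ 2 := by positivity
                                  linarith) hS
        _ ≤ 2 := hc.kβ
    have h10 : (O.card : ℝ) * r⁻¹ * π ^ (g - 1) ≤ π ^ g / c.β ^ 2 * O.card := by
      have h11 : π ^ g = π ^ (g - 1) * π := by rw [← pow_succ, Nat.sub_add_cancel hg1]
      have h12 : (O.card : ℝ) * r⁻¹ * π ^ (g - 1) = (r⁻¹ / π) * (π ^ g * O.card) := by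
        rw [h11]
        field_simp
      rw [h12]
      calc (r⁻¹ / π) * (π ^ g * O.card) ≤ 1 / c.β ^ 2 * (π ^ g * O.card) :=
            mul_le_mul_of_nonneg_right hrπ (by positivity)
        _ = _ := by ring
    calc (O.card : ℝ) * r⁻¹ * π ^ (g - 1) * (1 + r⁻¹ / π) ^ S.card
        ≤ (π ^ g / c.β ^ 2 * O.card) * 2 :=
          mul_le_mul h10 h8 (by positivity) (by positivity)
      _ = _ := by ring
  have h13 := Pool.Agent.H80.RG.moment_tail Og (fun o => (y o).erase γ) π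
    (2 * (π ^ g / c.β ^ 2 * O.card)) hπ0.le (by positivity) (c.k * c.w) g c.k
    (fun o ho => by rw [hy' o ho]; omega) hV nat adj
    (64 ^ L * nat.card) (by positivity) (fun S => S ⊆ P.Out ∧ Disjoint S Φ)
    ⟨empty_subset _, disjoint_empty_left _⟩
    (fun S o ho hS => by
      rw [hOg, mem_filter] at ho
      exact ⟨union_subset hS.1 ((erase_subset _ _).trans (hf.out o ho.1)),
        disjoint_union_left.2 ⟨hS.2,
          disjoint_of_subset_left (erase_subset _ _) (hf.dis o ho.1)⟩⟩) hcnt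
    (Nat.mul_le_mul_left _ hf.g_le) c.β hβ0
  have h14 : (0 : ℝ) < (2 * (π ^ g / c.β ^ 2 * O.card)) ^ c.k := by positivity
  have h15 := le_of_mul_le_mul_right h13 h14
  refine le_trans (mul_le_mul_of_nonneg_right ?_ (by positivity)) h15
  rw [Nat.cast_le]
  refine card_le_card fun x hx => ?_
  rw [mem_filter] at hx ⊢
  refine ⟨hx.1, ?_⟩
  have h16 : c.β * (2 * (π ^ g / c.β ^ 2 * O.card)) = 2 * c.p ^ (g * T.card) / c.β * O.card := by
    rw [mul_comm g, pow_mul, ← hπ]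
    field_simp
  rw [h16]
  refine lt_of_lt_of_le hx.2 ?_
  rw [Nat.cast_le]
  refine card_le_card fun o ho => ?_
  rw [mem_filter] at ho
  rw [Pool.Agent.H80.RG.mem_hits, hOg, mem_filter]
  exact ⟨⟨ho.1, ho.2.1⟩, fun v hv' => (hadj x v).2 fun j hj => ho.2.2 j hj v (mem_of_mem_erase hv')⟩

open Classical in
theorem spiky_card {P : Pl ν L} {c : Num} {R : ℕ} (h : P.OK c) (hc : c.OK R L)
    (U : Finset (Fin L)) (α : Fin L → ν) (Φ : Finset ν) (hΦ : Φ ⊆ P.Out) (hΦc : Φ.card ≤ 3 * L)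
    (hv : P.Val U α Φ) (O : Finset ω) (y : ω → Finset ν) (g : ℕ) (hf : P.Fam c U α Φ O y g)
    (hO : O.Nonempty) :
    (((cell P.G (pts P.G P.V) U α Φ).filter (fun x => ¬ P.NoSpike c O y g Uᶜ x)).card : ℝ) *
      c.β ^ c.k ≤ 128 ^ L * c.No * (cell P.G (pts P.G P.V) U α Φ).card := by
  set nat := cell P.G (pts P.G P.V) U α Φ with hnat
  have hβ0 : 0 < c.β := by linarith [hc.β_ge]
  have hp := hc.p_pos
  have h1 : nat.filter (fun x => ¬ P.NoSpike c O y g Uᶜ x) ⊆
      ((Uᶜ : Finset (Fin L)).powerset ×ˢ P.Out).biUnion (fun q => nat.filter (fun x =>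
      2 * c.p ^ (g * q.1.card) / c.β * O.card < (cntl P.G O y q.2 q.1 x : ℝ))) := by
    intro x hx
    rw [mem_filter] at hx
    obtain ⟨hx1, hx2⟩ := hx
    unfold Pl.NoSpike at hx2
    push Not at hx2
    obtain ⟨T, hT, γ, hγ⟩ := hx2
    refine mem_biUnion.2 ⟨(T, γ), mem_product.2 ⟨mem_powerset.2 hT, ?_⟩, mem_filter.2 ⟨hx1, hγ⟩⟩
    by_contra hγO
    have h2 : cntl P.G O y γ T x = 0 := by
      unfold cntl
      rw [card_eq_zero, filter_eq_empty_iff]
      rintro o ho ⟨h3, _⟩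
      exact hγO (hf.out o ho h3)
    rw [h2, Nat.cast_zero] at hγ
    have h3 : 0 ≤ 2 * c.p ^ (g * T.card) / c.β * (O.card : ℝ) := by positivity
    linarith
  have h2 : ((nat.filter (fun x => ¬ P.NoSpike c O y g Uᶜ x)).card : ℝ) ≤
      ∑ q ∈ (Uᶜ : Finset (Fin L)).powerset ×ˢ P.Out, ((nat.filter (fun x =>
      2 * c.p ^ (g * q.1.card) / c.β * O.card < (cntl P.G O y q.2 q.1 x : ℝ))).card : ℝ) := by
    have h3 := (card_le_card h1).trans card_biUnion_le
    exact_mod_cast h3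
  calc ((nat.filter (fun x => ¬ P.NoSpike c O y g Uᶜ x)).card : ℝ) * c.β ^ c.k
      ≤ (∑ q ∈ (Uᶜ : Finset (Fin L)).powerset ×ˢ P.Out, ((nat.filter (fun x =>
      2 * c.p ^ (g * q.1.card) / c.β * O.card < (cntl P.G O y q.2 q.1 x : ℝ))).card : ℝ)) *
      c.β ^ c.k := mul_le_mul_of_nonneg_right h2 (by positivity)
    _ = ∑ q ∈ (Uᶜ : Finset (Fin L)).powerset ×ˢ P.Out, ((nat.filter (fun x =>
      2 * c.p ^ (g * q.1.card) / c.β * O.card < (cntl P.G O y q.2 q.1 x : ℝ))).card : ℝ) *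
      c.β ^ c.k := by rw [sum_mul]
    _ ≤ ∑ q ∈ (Uᶜ : Finset (Fin L)).powerset ×ˢ P.Out, (64 ^ L * (nat.card : ℝ)) := by
        refine sum_le_sum fun q hq => ?_
        rw [mem_product, mem_powerset] at hq
        exact Spk_one h hc U α Φ hΦ hΦc hv O y g hf hO q.1 hq.1 q.2
    _ = (2 : ℝ) ^ (Uᶜ : Finset (Fin L)).card * P.Out.card * (64 ^ L * nat.card) := by
        rw [sum_const, card_product, card_powerset, nsmul_eq_mul]
        push_cast
        ring
    _ ≤ 2 ^ L * c.No * (64 ^ L * nat.card) := by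
        refine mul_le_mul_of_nonneg_right ?_ (by positivity)
        refine mul_le_mul ?_ (by exact_mod_cast h.out_card) (by positivity) (by positivity)
        refine pow_le_pow_right₀ (by norm_num) ?_
        have := card_le_univ (Uᶜ : Finset (Fin L))
        rwa [Fintype.card_fin] at this
    _ = 128 ^ L * c.No * nat.card := by
        have h5 : (128 : ℝ) ^ L = 2 ^ L * 64 ^ L := by rw [← mul_pow]; norm_num
        rw [h5]
        ring

end Pool.Agent.H15.RD
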