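/-
ROW Thn (about 170 lines). Few minimal thin tuples. Let `τ = p^g / q`, `cnt T x = #{o ∈ O | Ad T x (y o)}`.
`Thin T x`: `cnt T x < τ^|T| * #O`. `MT T x`: Thin, proper subsets of `T` not thin, NoSpike on `T`. All these depend only on `x` on `T`.
thin_card: for `S ⊆ T`, `|S| ≤ m0` and every `x0`: at most `B ^ |S|` points `x` (letters in the blocks) agree with `x0` outside `S` and satisfy `MT T x`.
PROOF. Induction on `|S|` (all `x0`). `S = ∅`: at most one point. Let `m = |S| ≥ 1`, `t = c.t g m` (`t ≤ τ^(-m)/2`, `t ≥ 1` as `q ≥ 2`, `p ≤ 1`), `E` the set of these points (assume nonempty), `F ⊆ E` maximal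
 (`Finset.exists_maximal`/ `Finset.exists_subset_card_eq`) such that any two different members differ in EVERY row of `S`.
 CLAIM `|F| < t`. Otherwise take `t` members `x^i` (injective `Fin t → F`). They all agree with `x0` off `S`. `T \ S` is a proper subset of `T`, so `cnt (T \ S) x0' ≥ τ^|T\S| #O` (`x0'` = any member of `E`).
 `O' = {o ∈ O | Ad (T\S) x0' (y o), ∀ i, ¬ Ad S (x^i) (y o)}`. Since `Ad (T\S) ∧ Ad S (x^i)` gives `Ad T (x^i)` and `x^i` is thin: `#O' ≥ τ^|T\S| #O - t τ^|T| #O ≥ (1/2) τ^|T\S| #O > 0` (strict for `t ≥ 1`).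
 Take `F' ⊆ O'` maximal such that the `y o`, `o ∈ F'`, are pairwise disjoint. If `|F'| < t`: every `o ∈ O'` has a letter in `⋃_{F'} y` (at most `|F'| g < t g` letters; by maximality, `y o ≠ ∅`), and by NoSpike
 (`T \ S ⊆ T`) each letter is in at most `2 p^(g|T\S|)/β #O` of the `o` with `Ad (T\S) x0' (y o)`, so `(1/2) τ^|T\S| #O ≤ #O' ≤ t g 2 p^(g|T\S|)/β #O`, i.e. `β ≤ 4 t g q^|T\S|` with a strict inequality
 somewhere, contradicting F1 (`q^|T\S| ≤ q^L`). So there are `t` pairwise disjoint `y o` with `o ∈ O'`; `P.OK.disp` with `T := S`, `m`, `g` gives `i, o` with `Ad S (x^i) (y o)`: contradiction.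
 So `|F| < t` and every `x ∈ E` agrees with some `x' ∈ F` in some row `j ∈ S` (maximality). `E ⊆ ⋃_{x' ∈ F, j ∈ S} {x ∈ E | x j = x' j}`, and `{x ∈ E | x j = x' j}` is contained in the set for
 `S.erase j` and `x0 := Function.update x0 j (x' j)` (agree off `S.erase j`). So `#E ≤ t * m * B^(m-1) ≤ B^m` by FB (`m ≤ m0`, `m0 * t ≤ B`).
-/
import Pool.Agent.H15.RD.Spk

set_option autoImplicit false
set_option linter.unusedSectionVars false

open Finset

namespace Pool.Agent.H15.RD

variable {ν ω : Type} [Fintype ν] [DecidableEq ν] [DecidableEq ω] {L : ℕ}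

open Classical in
/-- The number of sets of the family that are adjacent to `x` in the rows `T`. -/
noncomputable def cnt (G : SimpleGraph ν) (O : Finset ω) (y : ω → Finset ν)
    (T : Finset (Fin L)) (x : Fin L → ν) : ℕ :=
  (O.filter (fun o => Ad G T x (y o))).card

/-- Few sets are adjacent to `x` in the rows `T`. -/
def Pl.Thin (P : Pl ν L) (c : Num) (O : Finset ω) (y : ω → Finset ν) (g : ℕ)
    (T : Finset (Fin L)) (x : Fin L → ν) : Prop :=
  (cnt P.G O y T x : ℝ) < (c.p ^ g / c.q) ^ T.card * O.card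

/-- Minimal thin tuples without spikes. -/
def Pl.MT (P : Pl ν L) (c : Num) (O : Finset ω) (y : ω → Finset ν) (g : ℕ)
    (T : Finset (Fin L)) (x : Fin L → ν) : Prop :=
  P.Thin c O y g T x ∧ (∀ T' ⊆ T, T' ≠ T → ¬ P.Thin c O y g T' x) ∧ P.NoSpike c O y g T x

/-- A maximal subset of `E` whose different members are related. -/
lemma Thn_max {α : Type} [DecidableEq α] (E : Finset α) (r : α → α → Prop) (hr : ∀ a b, r a b → r b a) :
    ∃ F ⊆ E, (∀ a ∈ F, ∀ b ∈ F, a ≠ b → r a b) ∧ ∀ x ∈ E, x ∉ F → ∃ a ∈ F, ¬ r x a := by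
  classical
  obtain ⟨pr, hpr⟩ : ∃ pr : Finset α → Prop, ∀ F, pr F ↔ ∀ a ∈ F, ∀ b ∈ F, a ≠ b → r a b :=
    ⟨fun F => ∀ a ∈ F, ∀ b ∈ F, a ≠ b → r a b, fun _ => Iff.rfl⟩
  have hne : (E.powerset.filter pr).Nonempty :=
    ⟨∅, mem_filter.2 ⟨mem_powerset.2 (empty_subset _), (hpr _).2 (by simp)⟩⟩
  obtain ⟨F, hF, hmax⟩ := exists_max_image _ card hne
  rw [mem_filter, mem_powerset, hpr] at hF
  refine ⟨F, hF.1, hF.2, fun x hx hxF => ?_⟩
  by_contra hcon
  push Not at hcon
  have hins : insert x F ∈ E.powerset.filter pr := by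
    rw [mem_filter, mem_powerset, hpr]
    refine ⟨insert_subset hx hF.1, fun a ha b hb hab => ?_⟩
    rcases mem_insert.1 ha with ha1 | ha1 <;> rcases mem_insert.1 hb with hb1 | hb1
    · exact absurd (ha1.trans hb1.symm) hab
    · rw [ha1]
      exact hcon b hb1
    · rw [hb1]
      exact hr _ _ (hcon a ha1)
    · exact hF.2 a ha1 b hb1 hab
  have := hmax _ hins
  rw [card_insert_of_notMem hxF] at this
  omega

/-- `t` members of a set. -/
lemma Thn_sel {α : Type} (F : Finset α) (t : ℕ) (ht : t ≤ F.card) :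
    ∃ f : Fin t → α, Function.Injective f ∧ ∀ i, f i ∈ F := by
  classical
  obtain ⟨F1, hF1, hc⟩ := exists_subset_card_eq ht
  let e := F1.equivFinOfCardEq hc
  exact ⟨fun i => (e.symm i).1, fun i j hij => e.symm.injective (Subtype.ext hij),
    fun i => hF1 (e.symm i).2⟩

lemma Thn_t_pos {c : Num} {R : ℕ} (hc : c.OK R L) (g m : ℕ) : 1 ≤ c.t g m := by
  have hp := hc.p_pos
  have hK := hc.K_ge
  unfold Num.t
  rw [Nat.one_le_ceil_iff]
  positivity

open Classical in
/-- Fewer than `t` minimal thin tuples differ pairwise in all rows of `S`. -/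
lemma Thn_claim {P : Pl ν L} {c : Num} {R : ℕ} (h : P.OK c) (hc : c.OK R L)
    (U : Finset (Fin L)) (α : Fin L → ν) (Φ : Finset ν) (O : Finset ω) (y : ω → Finset ν) (g : ℕ)
    (hf : P.Fam c U α Φ O y g) (hO : O.Nonempty) (T S : Finset (Fin L)) (hS : S ⊆ T)
    (hS1 : 1 ≤ S.card) (hSc : S.card ≤ c.m0) (x0 : Fin L → ν)
    (t : ℕ) (ht : t = c.t g S.card) (x : Fin t → Fin L → ν) (hV : ∀ i, ∀ j, x i j ∈ P.V j)
    (hx0 : ∀ i, ∀ j, j ∉ S → x i j = x0 j) (hMT : ∀ i, P.MT c O y g T (x i))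
    (hd : ∀ i i', i ≠ i' → ∀ j ∈ S, x i j ≠ x i' j) : False := by
  have hp := hc.p_pos
  have hq : 0 < c.q := by linarith [hc.q_ge]
  have he := hc.e_gt
  have he0 : 0 < c.e := by linarith
  have hpg : 0 < c.p ^ g := pow_pos hp g
  have hτ : 0 < c.p ^ g / c.q := by positivity
  have hβ : 0 < c.β := by linarith [hc.β_ge]
  have hO0 : (0 : ℝ) < O.card := by exact_mod_cast card_pos.2 hO
  have ht1 : 1 ≤ c.t g S.card := Thn_t_pos hc g S.card
  rw [← ht] at ht1
  have ht0 : (0 : ℝ) < t := by exact_mod_cast ht1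
  set T1 := T \ S with hT1
  let i0 : Fin t := ⟨0, ht1⟩
  have hAd : ∀ i, ∀ o, Ad P.G T1 (x i) (y o) ↔ Ad P.G T1 (x i0) (y o) := by
    intro i o
    have he : ∀ j ∈ T1, x i j = x i0 j := by
      intro j hj
      have hjS : j ∉ S := (mem_sdiff.1 hj).2
      rw [hx0 i j hjS, hx0 i0 j hjS]
    constructor
    · intro hA j hj v hv
      rw [← he j hj]
      exact hA j hj v hv
    · intro hA j hj v hv
      rw [he j hj]
      exact hA j hj v hv
  have hT1T : T1 ⊆ T := sdiff_subset
  have hT1ne : T1 ≠ T := by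
    intro hE
    obtain ⟨j, hj⟩ := card_pos.1 (lt_of_lt_of_le Nat.zero_lt_one hS1)
    have : j ∈ T1 := by
      rw [hE]
      exact hS hj
    exact (mem_sdiff.1 this).2 hj
  have hcardT : T.card = T1.card + S.card := by
    rw [hT1, card_sdiff_of_subset hS]
    have := card_le_card hS
    omega
  have hlow : (c.p ^ g / c.q) ^ T1.card * O.card ≤ (cnt P.G O y T1 (x i0) : ℝ) := by
    have := (hMT i0).2.1 T1 hT1T hT1ne
    unfold Pl.Thin at this
    exact not_lt.1 this
  set O1 := O.filter (fun o => Ad P.G T1 (x i0) (y o)) with hO1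
  have hlow1 : (c.p ^ g / c.q) ^ T1.card * O.card ≤ (O1.card : ℝ) := hlow
  set D : ℝ := t * (c.p ^ g / c.q) ^ S.card with hD
  have hD0 : 0 < D := by positivity
  obtain ⟨a, ha⟩ : ∃ a : ω → ℕ, ∀ o, a o =
      ((univ : Finset (Fin t)).filter (fun i => Ad P.G S (x i) (y o))).card := ⟨_, fun _ => rfl⟩
  have hsuma : ∑ o ∈ O1, (a o : ℝ) < D * O1.card := by
    have h1 : ∑ o ∈ O1, (a o : ℝ) = ∑ i : Fin t,
        ((O1.filter (fun o => Ad P.G S (x i) (y o))).card : ℝ) := by
      simp only [ha, card_filter, Nat.cast_sum]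
      rw [sum_comm]
    have h2 : ∀ i : Fin t, ((O1.filter (fun o => Ad P.G S (x i) (y o))).card : ℝ) ≤
        cnt P.G O y T (x i) := by
      intro i
      unfold cnt
      rw [Nat.cast_le]
      refine card_le_card fun o ho => ?_
      obtain ⟨ho1, ho2⟩ := mem_filter.1 ho
      obtain ⟨ho3, ho4⟩ := mem_filter.1 ho1
      refine mem_filter.2 ⟨ho3, fun j hj v hv => ?_⟩
      by_cases hjS : j ∈ S
      · exact ho2 j hjS v hv
      · exact (hAd i o).2 ho4 j (mem_sdiff.2 ⟨hj, hjS⟩) v hv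
    rw [h1]
    calc ∑ i : Fin t, ((O1.filter (fun o => Ad P.G S (x i) (y o))).card : ℝ)
        ≤ ∑ i : Fin t, (cnt P.G O y T (x i) : ℝ) := sum_le_sum fun i _ => h2 i
      _ < ∑ _i : Fin t, ((c.p ^ g / c.q) ^ T.card * O.card : ℝ) :=
          sum_lt_sum_of_nonempty ⟨i0, mem_univ _⟩ fun i _ => (hMT i).1
      _ = D * ((c.p ^ g / c.q) ^ T1.card * O.card) := by
          rw [sum_const, card_univ, Fintype.card_fin, nsmul_eq_mul, hcardT, pow_add, hD]
          ring
      _ ≤ D * O1.card := mul_le_mul_of_nonneg_left hlow1 hD0.le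
  set O' := O1.filter (fun o => (a o : ℝ) ≤ c.e * D) with hO'
  have hO'low : (c.e - 1) * O1.card < c.e * O'.card := by
    set O2 := O1.filter (fun o => ¬ (a o : ℝ) ≤ c.e * D) with hO2
    have h1 : (O1.card : ℝ) = O'.card + O2.card := by
      rw [hO', hO2, ← Nat.cast_add, card_filter_add_card_filter_not]
    have h2 : (O2.card : ℝ) * (c.e * D) ≤ ∑ o ∈ O1, (a o : ℝ) := by
      calc (O2.card : ℝ) * (c.e * D) = ∑ _o ∈ O2, (c.e * D) := by
            rw [sum_const, nsmul_eq_mul]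
        _ ≤ ∑ o ∈ O2, (a o : ℝ) := sum_le_sum fun o ho => (not_le.1 (mem_filter.1 ho).2).le
        _ ≤ ∑ o ∈ O1, (a o : ℝ) := sum_le_sum_of_subset_of_nonneg (filter_subset _ _)
            (fun _ _ _ => Nat.cast_nonneg _)
    have h3 : (O2.card : ℝ) * c.e * D < O1.card * D := by
      calc (O2.card : ℝ) * c.e * D = O2.card * (c.e * D) := by ring
        _ ≤ ∑ o ∈ O1, (a o : ℝ) := h2
        _ < D * O1.card := hsuma
        _ = O1.card * D := mul_comm _ _
    have h4 := lt_of_mul_lt_mul_right h3 hD0.le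
    nlinarith
  obtain ⟨F', hF'O, hF'd, hF'm⟩ := Thn_max O' (fun o o' => Disjoint (y o) (y o'))
    (fun a b hab => hab.symm)
  have hO'O : ∀ o ∈ O', o ∈ O := fun o ho => (mem_filter.1 (mem_filter.1 ho).1).1
  rcases le_or_gt t F'.card with hle | hlt
  · obtain ⟨f, hfi, hfF⟩ := Thn_sel F' t hle
    have hdisp := h.disp S.card g hS1 hSc hf.g_pos hf.g_le S rfl
    rw [← ht] at hdisp
    have h1 := hdisp x
      (fun i j _ => hV i j) hd (fun i => y (f i))
      (fun i => hf.out _ (hO'O _ (hF'O (hfF i)))) (fun i => hf.card _ (hO'O _ (hF'O (hfF i))))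
      (fun i i' hii => hF'd _ (hfF i) _ (hfF i') (fun he => hii (hfi he)))
    have h2 : ((adp P.G S x (fun i => y (f i))).card : ℝ) = ∑ i' : Fin t, (a (f i') : ℝ) := by
      have h3 : (adp P.G S x (fun i => y (f i))).card = ∑ i' : Fin t, a (f i') := by
        unfold adp
        rw [card_filter, Fintype.sum_prod_type_right]
        refine sum_congr rfl fun i' _ => ?_
        rw [ha, card_filter]
      rw [h3, Nat.cast_sum]
    have h3 : ∑ i' : Fin t, (a (f i') : ℝ) ≤ t * (c.e * D) := by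
      calc ∑ i' : Fin t, (a (f i') : ℝ) ≤ ∑ _i' : Fin t, (c.e * D) :=
            sum_le_sum fun i' _ => (mem_filter.1 (hF'O (hfF i'))).2
        _ = t * (c.e * D) := by rw [sum_const, card_univ, Fintype.card_fin, nsmul_eq_mul]
    rw [h2] at h1
    have h4 : c.q ≤ c.q ^ S.card := le_self_pow₀ hc.q_ge.le (by omega)
    have h5 : c.e ^ 2 ≤ c.q ^ S.card := hc.eq_q.trans h4
    have h6 : 0 < c.q ^ S.card := pow_pos hq _
    have h7 : D * c.q ^ S.card = t * c.p ^ (g * S.card) := by
      rw [hD, div_pow, ← pow_mul]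
      field_simp
    have h8 : c.e * (t * (c.e * D)) ≤ c.p ^ (g * S.card) * (t : ℝ) ^ 2 := by
      have h9 : 0 ≤ t * D := by positivity
      calc c.e * (t * (c.e * D)) = c.e ^ 2 * (t * D) := by ring
        _ ≤ c.q ^ S.card * (t * D) := mul_le_mul_of_nonneg_right h5 h9
        _ = t * (D * c.q ^ S.card) := by ring
        _ = _ := by rw [h7]; ring
    have h9 := mul_le_mul_of_nonneg_left h3 he0.le
    linarith
  · have hcov2 : O' ⊆ (F'.biUnion y).biUnion
        (fun γ => O.filter (fun o => γ ∈ y o ∧ Ad P.G T1 (x i0) (y o))) := by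
      intro o ho
      have ho1 : o ∈ O := hO'O o ho
      have ho2 := (mem_filter.1 (mem_filter.1 ho).1).2
      have : ∃ o' ∈ F', ¬ Disjoint (y o) (y o') := by
        by_cases hoF : o ∈ F'
        · refine ⟨o, hoF, fun hdis => ?_⟩
          have h0 := disjoint_self.1 hdis
          have h1 := hf.card o ho1
          rw [h0, bot_eq_empty, card_empty] at h1
          have := hf.g_pos
          omega
        · exact hF'm o ho hoF
      obtain ⟨o', ho', hnd⟩ := this
      obtain ⟨γ, hγ1, hγ2⟩ := not_disjoint_iff.1 hnd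
      exact mem_biUnion.2 ⟨γ, mem_biUnion.2 ⟨o', ho', hγ2⟩, mem_filter.2 ⟨ho1, hγ1, ho2⟩⟩
    have hΓ : (F'.biUnion y).card ≤ t * g := by
      calc (F'.biUnion y).card ≤ ∑ o ∈ F', (y o).card := card_biUnion_le
        _ = ∑ _o ∈ F', g := sum_congr rfl fun o ho => hf.card o (hO'O o (hF'O ho))
        _ = F'.card * g := by rw [sum_const, smul_eq_mul]
        _ ≤ t * g := Nat.mul_le_mul_right _ hlt.le
    have hns := (hMT i0).2.2
    have hup : (O'.card : ℝ) ≤ (t * g) * (2 * c.p ^ (g * T1.card) / c.β * O.card) := by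
      have h1 : O'.card ≤ ∑ γ ∈ F'.biUnion y, cntl P.G O y γ T1 (x i0) := by
        unfold cntl
        exact (card_le_card hcov2).trans card_biUnion_le
      have h2 : (O'.card : ℝ) ≤ ∑ γ ∈ F'.biUnion y, (cntl P.G O y γ T1 (x i0) : ℝ) := by
        exact_mod_cast h1
      have h3 : ∑ γ ∈ F'.biUnion y, (cntl P.G O y γ T1 (x i0) : ℝ) ≤
          ∑ _γ ∈ F'.biUnion y, (2 * c.p ^ (g * T1.card) / c.β * O.card : ℝ) :=
        sum_le_sum fun γ _ => hns T1 hT1T γ
      rw [sum_const, nsmul_eq_mul] at h3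
      have h4 : (0 : ℝ) ≤ 2 * c.p ^ (g * T1.card) / c.β * O.card := by positivity
      have h5 : ((F'.biUnion y).card : ℝ) ≤ t * g := by exact_mod_cast hΓ
      exact (h2.trans h3).trans (mul_le_mul_of_nonneg_right h5 h4)
    have hF1 := hc.F1 g S.card hf.g_pos hf.g_le hS1 hSc
    rw [← ht] at hF1
    have hqL : c.q ^ T1.card ≤ c.q ^ L := by
      refine pow_le_pow_right₀ hc.q_ge.le ?_
      have := card_le_univ T1
      rwa [Fintype.card_fin] at this
    have hkey : (c.p ^ g / c.q) ^ T1.card = c.p ^ (g * T1.card) / c.q ^ T1.card := by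
      rw [div_pow, ← pow_mul]
    rw [hkey] at hlow1
    set a1 : ℝ := c.p ^ (g * T1.card) with ha1
    have ha0 : 0 < a1 := pow_pos hp _
    set b : ℝ := c.q ^ T1.card with hb
    have hb0 : 0 < b := pow_pos hq _
    have he1 : 0 < c.e - 1 := by linarith
    have hlt2 : (c.e - 1) * (a1 / b * O.card) < c.e * ((t * g) * (2 * a1 / c.β * O.card)) :=
      lt_of_le_of_lt (mul_le_mul_of_nonneg_left hlow1 he1.le)
        (lt_of_lt_of_le hO'low (mul_le_mul_of_nonneg_left hup he0.le))
    have h6 : c.β * (c.e - 1) < 2 * (t : ℝ) * g * b * c.e := by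
      have e1 : (c.e - 1) * (a1 / b * O.card) * (b * c.β) = (a1 * O.card) * (c.β * (c.e - 1)) := by
        field_simp
      have e2 : c.e * ((t * g) * (2 * a1 / c.β * O.card)) * (b * c.β) =
          (a1 * O.card) * (2 * (t : ℝ) * g * b * c.e) := by
        field_simp
      have h7 := mul_lt_mul_of_pos_right hlt2 (show (0 : ℝ) < b * c.β by positivity)
      rw [e1, e2] at h7
      exact lt_of_mul_lt_mul_left h7 (by positivity)
    have h8 : 2 * (t : ℝ) * g * b * c.e ≤ 2 * (g : ℝ) * c.q ^ L * t * c.e := by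
      have h9 : (0 : ℝ) ≤ 2 * (t : ℝ) * g * c.e := by positivity
      have h10 := mul_le_mul_of_nonneg_left hqL h9
      calc 2 * (t : ℝ) * g * b * c.e = 2 * (t : ℝ) * g * c.e * b := by ring
        _ ≤ 2 * (t : ℝ) * g * c.e * c.q ^ L := h10
        _ = _ := by ring
    linarith

open Classical in
lemma Thn_ind {P : Pl ν L} {c : Num} {R : ℕ} (h : P.OK c) (hc : c.OK R L)
    (U : Finset (Fin L)) (α : Fin L → ν) (Φ : Finset ν) (O : Finset ω) (y : ω → Finset ν) (g : ℕ)
    (hf : P.Fam c U α Φ O y g) (hO : O.Nonempty) (T : Finset (Fin L)) (m : ℕ) :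
    ∀ S : Finset (Fin L), S ⊆ T → S.card = m → m ≤ c.m0 → ∀ x0 : Fin L → ν,
    (((Fintype.piFinset P.V).filter
      (fun x => (∀ j, j ∉ S → x j = x0 j) ∧ P.MT c O y g T x)).card : ℝ) ≤ c.B ^ m := by
  induction m with
  | zero =>
    intro S _ hSc _ x0
    have hS0 : S = ∅ := card_eq_zero.1 hSc
    subst hS0
    have : ((Fintype.piFinset P.V).filter
      (fun x => (∀ j, j ∉ (∅ : Finset (Fin L)) → x j = x0 j) ∧ P.MT c O y g T x)) ⊆ {x0} := by
      intro x hx
      rw [mem_singleton]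
      exact funext fun j => (mem_filter.1 hx).2.1 j (notMem_empty j)
    have h1 := card_le_card this
    rw [card_singleton] at h1
    rw [pow_zero]
    exact_mod_cast h1
  | succ m ih =>
    intro S hS hSc hm x0
    have hB1 := hc.B_ge
    have hB0 : 0 < c.B := by linarith
    set E := (Fintype.piFinset P.V).filter
      (fun x => (∀ j, j ∉ S → x j = x0 j) ∧ P.MT c O y g T x) with hE
    obtain ⟨F, hFE, hFd, hFm⟩ := Thn_max E (fun a b => ∀ j ∈ S, a j ≠ b j)
      (fun a b hab j hj => (hab j hj).symm)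
    have hS1 : 1 ≤ S.card := by omega
    have hlt : F.card < c.t g S.card := by
      by_contra hcon
      push Not at hcon
      obtain ⟨f, hfi, hfF⟩ := Thn_sel F (c.t g S.card) hcon
      have hfE : ∀ i, f i ∈ E := fun i => hFE (hfF i)
      exact Thn_claim h hc U α Φ O y g hf hO T S hS hS1 (by omega) x0 _ rfl f
        (fun i j => (Fintype.mem_piFinset.1 (mem_filter.1 (hfE i)).1) j)
        (fun i => (mem_filter.1 (hfE i)).2.1) (fun i => (mem_filter.1 (hfE i)).2.2)
        (fun i i' hii => hFd _ (hfF i) _ (hfF i') (fun he => hii (hfi he)))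
    have hcov : E ⊆ F.biUnion (fun x' => S.biUnion (fun j => E.filter (fun x => x j = x' j))) := by
      intro x hx
      by_cases hxF : x ∈ F
      · obtain ⟨j, hj⟩ := card_pos.1 (lt_of_lt_of_le Nat.zero_lt_one hS1)
        exact mem_biUnion.2 ⟨x, hxF, mem_biUnion.2 ⟨j, hj, mem_filter.2 ⟨hx, rfl⟩⟩⟩
      · obtain ⟨x', hx', hn⟩ := hFm x hx hxF
        push Not at hn
        obtain ⟨j, hj, he⟩ := hn
        exact mem_biUnion.2 ⟨x', hx', mem_biUnion.2 ⟨j, hj, mem_filter.2 ⟨hx, he⟩⟩⟩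
    have hpart : ∀ x' : Fin L → ν, ∀ j ∈ S,
        ((E.filter (fun x => x j = x' j)).card : ℝ) ≤ c.B ^ m := by
      intro x' j hj
      have hsub : E.filter (fun x => x j = x' j) ⊆ (Fintype.piFinset P.V).filter
          (fun x => (∀ i, i ∉ S.erase j → x i = Function.update x0 j (x' j) i) ∧
            P.MT c O y g T x) := by
        intro x hx
        obtain ⟨hxE, hxj⟩ := mem_filter.1 hx
        obtain ⟨hxV, hx0, hxM⟩ := mem_filter.1 hxE
        refine mem_filter.2 ⟨hxV, fun i hi => ?_, hxM⟩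
        by_cases hij : i = j
        · subst hij
          rw [Function.update_self]
          exact hxj
        · rw [Function.update_of_ne hij]
          exact hx0 i (fun hiS => hi (mem_erase.2 ⟨hij, hiS⟩))
      have h1 := ih (S.erase j) ((erase_subset _ _).trans hS)
        (by rw [card_erase_of_mem hj, hSc]; rfl) (by omega) (Function.update x0 j (x' j))
      exact le_trans (by exact_mod_cast card_le_card hsub) h1
    have h1 : (E.card : ℝ) ≤ ∑ x' ∈ F, ∑ j ∈ S, ((E.filter (fun x => x j = x' j)).card : ℝ) := by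
      have h2 : E.card ≤ ∑ x' ∈ F, ∑ j ∈ S, (E.filter (fun x => x j = x' j)).card :=
        (card_le_card hcov).trans (card_biUnion_le.trans (sum_le_sum fun x' _ => card_biUnion_le))
      exact_mod_cast h2
    have h2 : ∑ x' ∈ F, ∑ j ∈ S, ((E.filter (fun x => x j = x' j)).card : ℝ) ≤
        ∑ _x' ∈ F, ∑ _j ∈ S, c.B ^ m :=
      sum_le_sum fun x' _ => sum_le_sum fun j hj => hpart x' j hj
    rw [sum_const, sum_const, nsmul_eq_mul, nsmul_eq_mul] at h2
    have hFB := hc.FB g S.card hf.g_pos hf.g_le hS1 (by omega)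
    have hBm : 0 < c.B ^ m := pow_pos hB0 m
    have hm0 : (S.card : ℝ) ≤ c.m0 := by
      have : S.card ≤ c.m0 := by omega
      exact_mod_cast this
    have hFt : (F.card : ℝ) ≤ c.t g S.card := by exact_mod_cast hlt.le
    have h3 : (F.card : ℝ) * S.card ≤ c.B := by
      calc (F.card : ℝ) * S.card ≤ c.t g S.card * c.m0 :=
            mul_le_mul hFt hm0 (Nat.cast_nonneg _) (Nat.cast_nonneg _)
        _ = c.m0 * c.t g S.card := mul_comm _ _
        _ ≤ c.B := hFB
    calc (E.card : ℝ) ≤ F.card * (S.card * c.B ^ m) := h1.trans h2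
      _ = (F.card * S.card) * c.B ^ m := by ring
      _ ≤ c.B * c.B ^ m := mul_le_mul_of_nonneg_right h3 hBm.le
      _ = c.B ^ (m + 1) := by rw [pow_succ]; ring

open Classical in
theorem thin_card {P : Pl ν L} {c : Num} {R : ℕ} (h : P.OK c) (hc : c.OK R L)
    (U : Finset (Fin L)) (α : Fin L → ν) (Φ : Finset ν) (O : Finset ω) (y : ω → Finset ν) (g : ℕ)
    (hf : P.Fam c U α Φ O y g) (hO : O.Nonempty) (T S : Finset (Fin L)) (hS : S ⊆ T)
    (hSc : S.card ≤ c.m0) (x0 : Fin L → ν) :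
    (((Fintype.piFinset P.V).filter
      (fun x => (∀ j, j ∉ S → x j = x0 j) ∧ P.MT c O y g T x)).card : ℝ) ≤ c.B ^ S.card := by
  exact Thn_ind h hc U α Φ O y g hf hO T S.card S hS rfl hSc x0

end Pool.Agent.H15.RD
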