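/-
ROW Tsl (about 110 lines). THIS FILE: only part (b) of the following plan, theorem ts_local. Uses spiky_card, thin_card, cell_le, W_le, den_all_le as stated.
Let `W = c.W L u φ`, `u = U.card`, `τ = p^g/q`, `C0 = cell (pts) U α Φ`. `X ⊆ C0` nonempty (`0 < Tot ≤ Z1 den X`, and `den X = #X * W`, den_of_sub). `Val` by val_of_mem.
`#C0 ≤ 8^L Z1 #X` (den_all_le: `#C0 W ≤ 8^L Tot ≤ 8^L Z1 #X W`).
Call `x ∈ X` bad if `¬ NoSpike Uᶜ x` or `Thin Uᶜ x`. If `NoSpike` and `Thin Uᶜ x` then some minimal `T ⊆ Uᶜ` with `Thin T x` (`Finset.exists_minimal`..), `T ≠ ∅` (`Thin ∅` would be `#O < #O`), and `MT T x`.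
(a) `#{x ∈ X | ¬ NoSpike} ≤ 128^L No #C0 / β^k ≤ 1024^L No Z1 #X/β^k ≤ #X/8` (F2).
(b) For `T ⊆ Uᶜ`, `1 ≤ m = |T| < m0`: `#{x ∈ X | MT T x} ≤ #X/(8 * 2^L)`. The restriction to `T` (map `x ↦ fun j => if j ∈ T then x j else x0 j`, `x0` fixed with letters in the blocks, e.g. a member of `X`) sends these
 points into the set of thin_card with `S = T` (`MT T` depends only on `x` on `T`), at most `B^m` images; the fibre of `σ` is contained in `cell X (U ∪ T) σ' Φ` (`σ' = σ` on `T`, `α` on `U`), and (upper with `Φ' = Φ`)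
 `#cell X (U∪T) σ' Φ * W L (u+m) φ ≤ G1 h^m #X W`, with W_le: `#fibre * (n p^(4L))^m ≤ G1 h^m #X`. So `#{..} * (n p^(4L))^m ≤ G1 (B h)^m #X`, and `B h ≤ n p^(4L)` (F3), `m ≥ 1`, F3 give the claim
 (`Finset.card_le_mul_card_image` or `card_eq_sum_card_fiberwise`).
(c) For `T ⊆ Uᶜ`, `|T| ≥ m0`: `#{x ∈ C0 | MT T x} ≤ #X/(8 * 2^L)`. Take `T' ⊆ T`, `|T'| = m0`. Fibre over the restriction to `T \ T'`: for a value `κ` (a member `x1`), `D = cell (pts) (U ∪ (T\T')) κ' Φ`; the points of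
 the fibre with `MT T` are divided by their values on `T'`: at most `B^m0` values (thin_card with `S = T'`, `x0 = x1` off `T'`, map as in (b)), and each value has at most `64^L #D / (n p^(4L))^m0` points of `D` (cell_le, `Val` for `D` by
 val_of_mem). The sum of the `#D` over the values `κ` is at most `#C0`. So `#{..} ≤ (B/(n p^(4L)))^m0 64^L #C0 ≤ (B/(n p^(4L)))^m0 64^L 8^L Z1 #X`, and F4: `8 * 1024^L Z1 B^m0 ≤ (n p^(4L))^m0` gives `≤ #X/(8 * 2^L)`.
 Hence at most `3/8 #X` bad points (`2^L` sets `T`), so `∑_{x ∈ X} cnt Uᶜ x ≥ (1/2) #X τ^(L-u) #O`; exchange the sums: some `o ∈ O` has `#{x ∈ X | Ad Uᶜ x (y o)} ≥ (1/2) τ^(L-u) #X`; for `x ∈ X`: `Ad Uᶜ x (y o)`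
 and `Ad U α (y o)`, `x = α` on `U` give `Ad univ x (y o)`, so this set is `cell X U α (Φ ∪ y o)`, whose weight is `W L u (φ+g) = W / p^(g(L-u))` (`Disjoint (y o) Φ`). `τ^(L-u)/p^(g(L-u)) = q^-(L-u) ≥ q^-L`.
(The case analysis (b)/(c) is by `m < m0` or `m ≥ m0`; if you want two rows, (a)+(b) and (c) are independent lemmas.)
-/
import Pool.Agent.H15.RD.Thn

set_option autoImplicit false
set_option linter.unusedSectionVars false

open Finset

namespace Pool.Agent.H15.RD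

variable {ν ω : Type} [Fintype ν] [DecidableEq ν] [DecidableEq ω] {L : ℕ}

theorem Tsl_Ad_congr {G : SimpleGraph ν} {T : Finset (Fin L)} {x x' : Fin L → ν} {S : Finset ν}
    (h : Eqn T x x') : Ad G T x S ↔ Ad G T x' S := by
  constructor
  · intro hA j hj v hv
    rw [← h j hj]
    exact hA j hj v hv
  · intro hA j hj v hv
    rw [h j hj]
    exact hA j hj v hv

theorem Tsl_cnt_congr {G : SimpleGraph ν} {O : Finset ω} {y : ω → Finset ν}
    {T : Finset (Fin L)} {x x' : Fin L → ν} (h : Eqn T x x') : cnt G O y T x = cnt G O y T x' := by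
  classical
  unfold cnt
  congr 1
  refine Finset.filter_congr fun o _ => ?_
  exact Tsl_Ad_congr h

theorem Tsl_cntl_congr {G : SimpleGraph ν} {O : Finset ω} {y : ω → Finset ν} {γ : ν}
    {T : Finset (Fin L)} {x x' : Fin L → ν} (h : Eqn T x x') :
    cntl G O y γ T x = cntl G O y γ T x' := by
  classical
  unfold cntl
  congr 1
  refine Finset.filter_congr fun o _ => ?_
  rw [Tsl_Ad_congr h]

theorem Tsl_Thin_congr {P : Pl ν L} {c : Num} {O : Finset ω} {y : ω → Finset ν} {g : ℕ}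
    {T : Finset (Fin L)} {x x' : Fin L → ν} (h : Eqn T x x') :
    P.Thin c O y g T x ↔ P.Thin c O y g T x' := by
  unfold Pl.Thin
  rw [Tsl_cnt_congr h]

theorem Tsl_MT_congr {P : Pl ν L} {c : Num} {O : Finset ω} {y : ω → Finset ν} {g : ℕ}
    {T : Finset (Fin L)} {x x' : Fin L → ν} (h : Eqn T x x') (hM : P.MT c O y g T x) :
    P.MT c O y g T x' := by
  obtain ⟨h1, h2, h3⟩ := hM
  refine ⟨(Tsl_Thin_congr h).1 h1, fun T' hT' hne => ?_, fun T' hT' γ => ?_⟩
  · rw [← Tsl_Thin_congr (fun j hj => h j (hT' hj) : Eqn T' x x')]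
    exact h2 T' hT' hne
  · rw [← Tsl_cntl_congr (fun j hj => h j (hT' hj) : Eqn T' x x')]
    exact h3 T' hT' γ

open Classical in
/-- (b): the minimal thin tuples of less than `m0` rows. -/
theorem ts_local {P : Pl ν L} {c : Num} {R : ℕ} (h : P.OK c) (hc : c.OK R L)
    (X : Finset (Fin L → ν)) (U : Finset (Fin L)) (α : Fin L → ν) (Φ : Finset ν) (v : ℕ)
    (hX : P.Sp c X U α Φ c.Z1 c.G1 v) (O : Finset ω) (y : ω → Finset ν) (g : ℕ)
    (hf : P.Fam c U α Φ O y g) (hO : O.Nonempty) (T : Finset (Fin L)) (hT : T ⊆ Uᶜ)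
    (hT1 : 1 ≤ T.card) (hTm : T.card ≤ c.m0) :
    8 * 2 ^ L * ((X.filter (fun x => P.MT c O y g T x)).card : ℝ) ≤ X.card := by
  have hp := hc.p_pos
  have hn : (0 : ℝ) < c.n := by exact_mod_cast hc.n_pos
  set A := X.filter (fun x => P.MT c O y g T x) with hA
  rcases A.eq_empty_or_nonempty with hA0 | ⟨x0, hx0⟩
  · rw [hA0]
    simp
  have hXpts : ∀ x ∈ X, ∀ j, x j ∈ P.V j := fun x hx => (mem_pts.1 (mem_cell.1 (hX.sub hx)).1).1
  have hXU : ∀ x ∈ X, Eqn U x α := fun x hx => (mem_cell.1 (hX.sub hx)).2.1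
  have hXΦ : ∀ x ∈ X, Ad P.G univ x Φ := fun x hx => (mem_cell.1 (hX.sub hx)).2.2
  have hAX : ∀ x ∈ A, x ∈ X := fun x hx => (mem_filter.1 hx).1
  have hAM : ∀ x ∈ A, P.MT c O y g T x := fun x hx => (mem_filter.1 hx).2
  set r : (Fin L → ν) → (Fin L → ν) := fun x j => if j ∈ T then x j else x0 j with hr
  have hrT : ∀ x, Eqn T x (r x) := by
    intro x j hj
    simp only [hr]
    rw [if_pos hj]
  set m := T.card with hm
  set N : ℝ := c.n * c.p ^ (4 * L) with hN
  have hN0 : 0 < N := by positivity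
  have hdisj : Disjoint U T := by
    rw [Finset.disjoint_left]
    intro j hj hjT
    exact (mem_compl.1 (hT hjT)) hj
  have hcardUT : (U ∪ T).card = U.card + m := card_union_of_disjoint hdisj
  have hcardL : U.card + m ≤ L := by
    have := card_le_univ (U ∪ T)
    rwa [hcardUT, Fintype.card_fin] at this
  have hW : 0 < c.W L U.card Φ.card := Num.W_pos hp hc.n_pos _ _ _
  -- the number of images
  have himg : (((A.image r).card : ℕ) : ℝ) ≤ c.B ^ m := by
    refine le_trans ?_ (thin_card h hc U α Φ O y g hf hO T T (subset_refl _) hTm x0)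
    have : A.image r ⊆ (Fintype.piFinset P.V).filter
        (fun x => (∀ j, j ∉ T → x j = x0 j) ∧ P.MT c O y g T x) := by
      intro z hz
      obtain ⟨x, hx, rfl⟩ := mem_image.1 hz
      refine mem_filter.2 ⟨Fintype.mem_piFinset.2 fun j => ?_, fun j hj => ?_, ?_⟩
      · simp only [hr]
        split_ifs
        · exact hXpts x (hAX x hx) j
        · exact hXpts x0 (hAX x0 hx0) j
      · simp only [hr]
        rw [if_neg hj]
      · exact Tsl_MT_congr (hrT x) (hAM x hx)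
    exact_mod_cast card_le_card this
  -- the fibres
  have hfib : ∀ z ∈ A.image r, ((A.filter (fun x => r x = z)).card : ℝ) * N ^ m ≤
      c.G1 * c.h ^ m * X.card := by
    intro z hz
    obtain ⟨x1, hx1, rfl⟩ := mem_image.1 hz
    have hsub : A.filter (fun x => r x = r x1) ⊆ cell P.G X (U ∪ T) x1 Φ := by
      intro x hx
      obtain ⟨hxA, hxr⟩ := mem_filter.1 hx
      refine mem_cell.2 ⟨hAX x hxA, fun j hj => ?_, hXΦ x (hAX x hxA)⟩
      rcases mem_union.1 hj with hj | hj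
      · rw [hXU x (hAX x hxA) j hj, hXU x1 (hAX x1 hx1) j hj]
      · have := congrFun hxr j
        simp only [hr] at this
        rwa [if_pos hj, if_pos hj] at this
    have h1 : ((A.filter (fun x => r x = r x1)).card : ℝ) ≤ (cell P.G X (U ∪ T) x1 Φ).card := by
      exact_mod_cast card_le_card hsub
    have h2 := hX.upper (U ∪ T) x1 Φ subset_union_left (hXU x1 (hAX x1 hx1)) (subset_refl _)
      hX.out (by omega)
    rw [P.den_of_sub c hX.sub, hcardUT, Nat.sub_self, pow_zero, mul_one] at h2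
    have e : U.card + m - U.card = m := by omega
    rw [e] at h2
    unfold Pl.den at h2
    rw [hcardUT] at h2
    have h3 := W_le hc U.card m Φ.card hcardL hX.card_le
    refine le_of_mul_le_mul_right ?_ hW
    calc ((A.filter (fun x => r x = r x1)).card : ℝ) * N ^ m * c.W L U.card Φ.card
        = ((A.filter (fun x => r x = r x1)).card : ℝ) * (c.W L U.card Φ.card * N ^ m) := by ring
      _ ≤ (cell P.G X (U ∪ T) x1 Φ).card * (c.W L U.card Φ.card * N ^ m) :=
        mul_le_mul_of_nonneg_right h1 (by positivity)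
      _ ≤ (cell P.G X (U ∪ T) x1 Φ).card * c.W L (U.card + m) Φ.card :=
        mul_le_mul_of_nonneg_left h3 (Nat.cast_nonneg _)
      _ ≤ c.G1 * c.h ^ m * (X.card * c.W L U.card Φ.card) := h2
      _ = c.G1 * c.h ^ m * X.card * c.W L U.card Φ.card := by ring
  -- the sum
  have hG1 : 0 < c.G1 := lt_of_lt_of_le one_pos hc.G1_ge
  have hh : 0 < c.h := lt_of_lt_of_le one_pos hc.h_ge
  have hB : 0 < c.B := lt_of_lt_of_le one_pos hc.B_ge
  have hsum : (A.card : ℝ) * N ^ m ≤ c.B ^ m * (c.G1 * c.h ^ m * X.card) := by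
    have e1 : (A.card : ℝ) = ∑ z ∈ A.image r, ((A.filter (fun x => r x = z)).card : ℝ) := by
      rw [card_eq_sum_card_image r A]
      push_cast
      rfl
    rw [e1, sum_mul]
    calc ∑ z ∈ A.image r, ((A.filter (fun x => r x = z)).card : ℝ) * N ^ m
        ≤ ∑ z ∈ A.image r, c.G1 * c.h ^ m * X.card := sum_le_sum hfib
      _ = ((A.image r).card : ℝ) * (c.G1 * c.h ^ m * X.card) := by
        rw [sum_const, nsmul_eq_mul]
      _ ≤ c.B ^ m * (c.G1 * c.h ^ m * X.card) :=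
        mul_le_mul_of_nonneg_right himg (by positivity)
  have hF3 := hc.F3
  have hBh : c.B * c.h ≤ N := by
    have h8 : (1 : ℝ) ≤ 8 * 2 ^ L := by
      have : (1 : ℝ) ≤ 2 ^ L := one_le_pow₀ (by norm_num)
      linarith
    have h9 : 1 ≤ 8 * 2 ^ L * c.G1 := by nlinarith [hc.G1_ge]
    calc c.B * c.h = 1 * (c.B * c.h) := by ring
      _ ≤ 8 * 2 ^ L * c.G1 * (c.B * c.h) := mul_le_mul_of_nonneg_right h9 (by positivity)
      _ = 8 * 2 ^ L * c.G1 * c.B * c.h := by ring
      _ ≤ N := hF3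
  have hfin : 8 * 2 ^ L * (c.B ^ m * (c.G1 * c.h ^ m)) ≤ N ^ m := by
    obtain ⟨m', hm'⟩ : ∃ m', m = m' + 1 := ⟨m - 1, by omega⟩
    rw [hm']
    calc 8 * 2 ^ L * (c.B ^ (m' + 1) * (c.G1 * c.h ^ (m' + 1)))
        = (8 * 2 ^ L * c.G1 * c.B * c.h) * (c.B * c.h) ^ m' := by
          rw [mul_pow]; ring
      _ ≤ N * N ^ m' := mul_le_mul hF3 (pow_le_pow_left₀ (by positivity) hBh m') (by positivity) hN0.le
      _ = N ^ (m' + 1) := by ring
  have hNm : 0 < N ^ m := pow_pos hN0 m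
  refine le_of_mul_le_mul_right ?_ hNm
  calc 8 * 2 ^ L * (A.card : ℝ) * N ^ m = 8 * 2 ^ L * ((A.card : ℝ) * N ^ m) := by ring
    _ ≤ 8 * 2 ^ L * (c.B ^ m * (c.G1 * c.h ^ m * X.card)) :=
      mul_le_mul_of_nonneg_left hsum (by positivity)
    _ = 8 * 2 ^ L * (c.B ^ m * (c.G1 * c.h ^ m)) * X.card := by ring
    _ ≤ N ^ m * X.card := mul_le_mul_of_nonneg_right hfin (Nat.cast_nonneg _)
    _ = X.card * N ^ m := by ring

end Pool.Agent.H15.RD
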