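/-
ROW Prc (about 260 lines). The players are processed one after the other. Uses typ, Sp.shrink, Sp.mono, Sp.nonempty, card_oth_le, card_lets_le as stated.
`Stage Q`: the players in `Q` are processed, `xs a` is the chosen point of `a ∈ Q`, `U' a` its set of rows. `act b` = active letters of player `b`: for `b ∈ Q` the letters of `xs b` on `U' b`, otherwise the letters of the old clique `v b` on `U b`. `C a`, `Φ a` = the current sets.
stage_step. PROOF. Let `a ∉ Q`, so `|Q| < R` and (`w = R f`) `f|Q| + f ≤ w`. Put `Uc b = if b ∈ Q then U' b else U b`, `αc b = if b ∈ Q then xs b else v b` (so `act b = lets (Uc b) (αc b)`). All current sets `C b` satisfy `Sp (C b) (Uc b) (αc b) (Φ b) Z1 G1 0` (Sp.mono):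
 unprocessed: `ZS 2^r (2 q^L)^|Q| ≤ ZS 2^r (2 q^L)^R ≤ Z1` (F10, `2 q^L ≥ 1`), `GS 2^r (2 q^L h1^f)^|Q| ≤ G1` (F10'); processed: `Zg (2 q^L)^|Q| ≤ ZS ≤ Z1` (F9, F10), `Gg (..)^|Q| ≤ GS ≤ G1` (F9', F10').
 For every `b ≠ a` and every `M` with `M.card ≤ f` apply `typ` (`Ca := C a`, `Cb := C b`, rows `U a`, `Uc b`): hold: for `j ∈ M ∩ U a`: `v a j ∈ act a ⊆ oth act b ⊆ Φ b`. had: `x ∈ C a` is adjacent to `Φ a ⊇ oth act a ⊇ act b`; symmetry of the graph.
 So the points `x ∈ C a` that are bad for some `b ≠ a` and some `M`, `M.card ≤ f`, number at most `2^L (R-1) #(C a)/(2 * 2^L * R) < #(C a)` (`C a` nonempty: Sp.nonempty); take `x ∈ C a` good for all `b ≠ a` and all `M`.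
 `x ∈ C a ⊆ A a ⊆ Y a`. `hgood` for `y = oth act a`: `y ⊆ Φ a ⊆ Out` (Sp.out), `y.card ≤ R f = w` (card_oth_le, card_lets_le, `(Uc b).card ≤ f`), `Ad univ x y` as `x ∈ C a ⊆ cell .. (Φ a)`. It gives `Ua'`, `Ψ`, `A' ⊆ Y' a`, `F a x' ≤ F a x` on `A'`, `Ua'.card ≤ f`, `Ψ.card ≤ ψm`,
 `Sp A' Ua' x (Ψ ∪ y) Zg Gg (2w)`. New stage: `U' := update U' a Ua'`, `xs := update xs a x`, `C' a = A'`, `Φ' a = Ψ ∪ y` (Sp.mono: constants with factors `(2 q^L)^(|Q|+1) ≥ 1`, `2w - f(|Q|+1) ≤ 2w`; card `≤ ψm + w`; `oth act' a = oth act a = y`), and for `b ≠ a`, with `Λ = lets Ua' x` (`Λ.card ≤ f`):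
 `C' b = cell G (C b) (Uc b) (αc b) (Φ b ∪ Λ)`, `Φ' b = Φ b ∪ Λ`: Sp.shrink with `θ = 2 q^L`, `d = f` (`Λ ⊆ Out_b`: letters of `x` are in the blocks of `a ≠ b`, mem_pl_Out; `Φ' b` has at most `ψm + 2w + f|Q| + f ≤ ψm + 3w ≤ 3L` elements; `f ≤ w - f|Q|`); `oth act' b ⊆ oth act b ∪ Λ`
 (`act' = update act a Λ`). `C' b ⊆ C b`, so sub₁, sub₂, below stay. The constants: `(2 q^L)^(|Q|+1)`, `(2 q^L h1^f)^(|Q|+1)`; `(insert a Q).card = |Q| + 1`; `w - f|Q| - f = w - f(|Q|+1)`.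
prc. Induction over `Q` (Finset.induction_on) from `Stage ∅` to `Stage univ`.
-/
import Pool.Agent.H15.RD.Typ

set_option autoImplicit false
set_option linter.unusedSectionVars false

open Finset

namespace Pool.Agent.H15.RD

variable {ν : Type} [Fintype ν] [DecidableEq ν] {R L : ℕ}

/-- The active letters of player `b`. -/
def act (Q : Finset (Fin R)) (U U' : Fin R → Finset (Fin L)) (v xs : Fin R → Fin L → ν)
    (b : Fin R) : Finset ν :=
  if b ∈ Q then lets (U' b) (xs b) else lets (U b) (v b)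

/-- The players in `Q` are processed. -/
structure Stage (G : SimpleGraph ν) (V : Fin R → Fin L → Finset ν) (c : Num)
    (A : Fin R → Finset (Fin L → ν)) (Y' : Fin R → Finset (Fin L → ν))
    (F : Fin R → (Fin L → ν) → ℝ) (U : Fin R → Finset (Fin L)) (v : Fin R → Fin L → ν)
    (Q : Finset (Fin R)) (U' : Fin R → Finset (Fin L)) (xs : Fin R → Fin L → ν)
    (C : Fin R → Finset (Fin L → ν)) (Φ : Fin R → Finset ν) : Prop where
  sub₁ : ∀ a ∉ Q, C a ⊆ A a
  sp₁ : ∀ a ∉ Q, (pl G V a).Sp c (C a) (U a) (v a) (Φ a)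
    (c.ZS * 2 ^ c.r * (2 * c.q ^ L) ^ Q.card)
    (c.GS * 2 ^ c.r * (2 * c.q ^ L * c.h1 ^ c.f) ^ Q.card) (c.w - c.f * Q.card)
  card₁ : ∀ a ∉ Q, (Φ a).card ≤ c.ψm + 2 * c.w + c.f * Q.card
  mem : ∀ a ∈ Q, xs a ∈ A a
  sub₂ : ∀ a ∈ Q, C a ⊆ Y' a
  below : ∀ a ∈ Q, ∀ x ∈ C a, F a x ≤ F a (xs a)
  U'_le : ∀ a ∈ Q, (U' a).card ≤ c.f
  sp₂ : ∀ a ∈ Q, (pl G V a).Sp c (C a) (U' a) (xs a) (Φ a)
    (c.Zg * (2 * c.q ^ L) ^ Q.card)
    (c.Gg * (2 * c.q ^ L * c.h1 ^ c.f) ^ Q.card) (2 * c.w - c.f * Q.card)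
  card₂ : ∀ a ∈ Q, (Φ a).card ≤ c.ψm + c.w + c.f * Q.card
  lets_sub : ∀ a, oth (act Q U U' v xs) a ⊆ Φ a

theorem Prc_shrink {P : Pl ν L} {c : Num} (hc : c.OK R L) {X : Finset (Fin L → ν)}
    {U : Finset (Fin L)} {α : Fin L → ν} {Φ : Finset ν} {Z G : ℝ} {v m : ℕ} (hZ : 0 ≤ Z)
    (hG : 0 ≤ G) (h : P.Sp c X U α Φ (Z * (2 * c.q ^ L) ^ m)
      (G * (2 * c.q ^ L * c.h1 ^ c.f) ^ m) (v - c.f * m)) (Λ : Finset ν) (hΛ : Λ ⊆ P.Out)
    (hΛc : Λ.card ≤ c.f) (hcard : Φ.card + c.f ≤ 3 * L) (hv : c.f * m + c.f ≤ v)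
    (hden : P.den c X U α Φ ≤ 2 * c.q ^ L * P.den c X U α (Φ ∪ Λ)) :
    P.Sp c (cell P.G X U α (Φ ∪ Λ)) U α (Φ ∪ Λ) (Z * (2 * c.q ^ L) ^ (m + 1))
      (G * (2 * c.q ^ L * c.h1 ^ c.f) ^ (m + 1)) (v - c.f * (m + 1)) := by
  have hq : 0 ≤ 2 * c.q ^ L := by
    have := hc.q_ge
    positivity
  have hh : 0 ≤ c.h1 := zero_le_one.trans hc.h1_ge
  have h1 := Pl.Sp.shrink hc h (by positivity) (by positivity) hq Λ hΛ c.f hΛc
    ((card_union_le _ _).trans (by omega)) (by omega) hden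
  refine Pl.Sp.mono hc h1 (le_of_eq ?_) (le_of_eq ?_) ?_
  · rw [pow_succ]
    ring
  · rw [pow_succ]
    ring
  · rw [Nat.mul_succ]
    omega

theorem Prc_one_le {c : Num} (hc : c.OK R L) : 1 ≤ 2 * c.q ^ L := by
  have h1 : 1 ≤ c.q ^ L := one_le_pow₀ (by linarith [hc.q_ge])
  linarith

theorem Prc_one_le' {c : Num} (hc : c.OK R L) : 1 ≤ 2 * c.q ^ L * c.h1 ^ c.f := by
  have h1 := Prc_one_le hc
  have h2 : 1 ≤ c.h1 ^ c.f := one_le_pow₀ hc.h1_ge
  exact one_le_mul_of_one_le_of_one_le h1 h2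

theorem Prc_ZS {c : Num} (hc : c.OK R L) : 0 ≤ c.ZS := by
  have h1 : (0 : ℝ) ≤ 2 * 8 ^ L := by positivity
  exact h1.trans hc.F12

theorem Prc_GS {c : Num} (hc : c.OK R L) : 0 ≤ c.GS := by
  have h1 : (0 : ℝ) ≤ 2 * 64 ^ L := by positivity
  exact h1.trans hc.F12'

theorem Prc_Gg {c : Num} (hc : c.OK R L) : 0 ≤ c.Gg := by
  have hh : 0 ≤ c.h1 := zero_le_one.trans hc.h1_ge
  have h1 : (0 : ℝ) ≤ 8 * c.h1 ^ (2 * c.w) := by positivity
  exact h1.trans hc.FGg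

theorem Prc_Zg {c : Num} (hc : c.OK R L) : 0 ≤ c.Zg := by
  have hh : 0 ≤ c.h1 := zero_le_one.trans hc.h1_ge
  have hβ : 0 ≤ c.β := le_trans (by norm_num) hc.β_ge
  have h1 : (0 : ℝ) ≤ 2 * c.β ^ (8 * c.w) * c.h1 ^ c.w := by positivity
  exact nonneg_of_mul_nonneg_right (h1.trans hc.FZg) hc.κ0_pos

theorem Prc_act_mem {Q : Finset (Fin R)} {U U' : Fin R → Finset (Fin L)} {v xs : Fin R → Fin L → ν}
    {b : Fin R} (hb : b ∈ Q) : act Q U U' v xs b = lets (U' b) (xs b) := if_pos hb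

theorem Prc_act_not {Q : Finset (Fin R)} {U U' : Fin R → Finset (Fin L)} {v xs : Fin R → Fin L → ν}
    {b : Fin R} (hb : b ∉ Q) : act Q U U' v xs b = lets (U b) (v b) := if_neg hb

/-- The current rows and letters of player `b`. -/
theorem Prc_cur {G : SimpleGraph ν} {V : Fin R → Fin L → Finset ν} {c : Num}
    (hc : c.OK R L) {A Y' : Fin R → Finset (Fin L → ν)}
    {F : Fin R → (Fin L → ν) → ℝ} {U : Fin R → Finset (Fin L)} {v : Fin R → Fin L → ν}
    (hU : ∀ a, (U a).card ≤ c.f)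
    {Q : Finset (Fin R)} {U' : Fin R → Finset (Fin L)} {xs : Fin R → Fin L → ν}
    {C : Fin R → Finset (Fin L → ν)} {Φ : Fin R → Finset ν}
    (hS : Stage G V c A Y' F U v Q U' xs C Φ) (b : Fin R) :
    ∃ (Uc : Finset (Fin L)) (αc : Fin L → ν), (b ∈ Q → Uc = U' b ∧ αc = xs b) ∧
      (b ∉ Q → Uc = U b ∧ αc = v b) ∧ act Q U U' v xs b = lets Uc αc ∧ Uc.card ≤ c.f ∧
      (pl G V b).Sp c (C b) Uc αc (Φ b) c.Z1 c.G1 0 := by
  have hQR : Q.card ≤ R := by
    have := card_le_univ Q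
    rwa [Fintype.card_fin] at this
  have e1 : (2 * c.q ^ L) ^ Q.card ≤ (2 * c.q ^ L) ^ R := pow_le_pow_right₀ (Prc_one_le hc) hQR
  have e2 : (2 * c.q ^ L * c.h1 ^ c.f) ^ Q.card ≤ (2 * c.q ^ L * c.h1 ^ c.f) ^ R :=
    pow_le_pow_right₀ (Prc_one_le' hc) hQR
  have h1 := Prc_one_le hc
  have h2 := Prc_one_le' hc
  have hZS := Prc_ZS hc
  have hGS := Prc_GS hc
  have hZg := Prc_Zg hc
  have hGg := Prc_Gg hc
  have h2r : (1 : ℝ) ≤ 2 ^ c.r := one_le_pow₀ (by norm_num)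
  have e3 : c.ZS * 2 ^ c.r * (2 * c.q ^ L) ^ Q.card ≤ c.Z1 :=
    (mul_le_mul_of_nonneg_left e1 (by positivity)).trans hc.F10
  have e4 : c.GS * 2 ^ c.r * (2 * c.q ^ L * c.h1 ^ c.f) ^ Q.card ≤ c.G1 :=
    (mul_le_mul_of_nonneg_left e2 (by positivity)).trans hc.F10'
  have e5 : c.Zg * (2 * c.q ^ L) ^ Q.card ≤ c.Z1 := by
    refine (mul_le_mul_of_nonneg_left e1 hZg).trans (hc.F9.trans ?_)
    have h3 : (1 : ℝ) ≤ 2 ^ c.r * (2 * c.q ^ L) ^ R :=
      one_le_mul_of_one_le_of_one_le h2r (one_le_pow₀ h1)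
    calc c.ZS ≤ c.ZS * (2 ^ c.r * (2 * c.q ^ L) ^ R) := le_mul_of_one_le_right hZS h3
      _ = c.ZS * 2 ^ c.r * (2 * c.q ^ L) ^ R := by ring
      _ ≤ c.Z1 := hc.F10
  have e6 : c.Gg * (2 * c.q ^ L * c.h1 ^ c.f) ^ Q.card ≤ c.G1 := by
    refine (mul_le_mul_of_nonneg_left e2 hGg).trans (hc.F9'.trans ?_)
    have h3 : (1 : ℝ) ≤ 2 ^ c.r * (2 * c.q ^ L * c.h1 ^ c.f) ^ R :=
      one_le_mul_of_one_le_of_one_le h2r (one_le_pow₀ h2)
    calc c.GS ≤ c.GS * (2 ^ c.r * (2 * c.q ^ L * c.h1 ^ c.f) ^ R) := le_mul_of_one_le_right hGS h3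
      _ = c.GS * 2 ^ c.r * (2 * c.q ^ L * c.h1 ^ c.f) ^ R := by ring
      _ ≤ c.G1 := hc.F10'
  by_cases hb : b ∈ Q
  · exact ⟨U' b, xs b, fun _ => ⟨rfl, rfl⟩, fun h => absurd hb h, Prc_act_mem hb, hS.U'_le b hb,
      Pl.Sp.mono hc (hS.sp₂ b hb) e5 e6 (Nat.zero_le _)⟩
  · exact ⟨U b, v b, fun h => absurd h hb, fun _ => ⟨rfl, rfl⟩, Prc_act_not hb, hU b,
      Pl.Sp.mono hc (hS.sp₁ b hb) e3 e4 (Nat.zero_le _)⟩

open Classical in
theorem Prc_pick {κ : Type} [DecidableEq κ] {R L : ℕ} (hR : 1 ≤ R) (C : Finset κ)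
    (hC : C.Nonempty) (I : Fin R → Finset (Fin L) → Prop) (B : Fin R → Finset (Fin L) → Finset κ)
    (hB : ∀ b M, I b M → 2 * 2 ^ L * (R : ℝ) * (B b M).card ≤ C.card) :
    ∃ x ∈ C, ∀ b M, I b M → x ∉ B b M := by
  by_contra hcon
  push Not at hcon
  have h1 : C ⊆ ((univ : Finset (Fin R × Finset (Fin L))).filter (fun z => I z.1 z.2)).biUnion
      (fun z => B z.1 z.2) := by
    intro x hx
    obtain ⟨b, M, hI, hx'⟩ := hcon x hx
    exact mem_biUnion.2 ⟨(b, M), mem_filter.2 ⟨mem_univ _, hI⟩, hx'⟩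
  have h2 : (C.card : ℝ) ≤ ∑ z ∈ (univ : Finset (Fin R × Finset (Fin L))).filter
      (fun z => I z.1 z.2), ((B z.1 z.2).card : ℝ) := by
    exact_mod_cast (card_le_card h1).trans card_biUnion_le
  have hR' : (1 : ℝ) ≤ R := by exact_mod_cast hR
  have hC' : (0 : ℝ) < C.card := by exact_mod_cast card_pos.2 hC
  have h3 : 2 * 2 ^ L * (R : ℝ) * C.card ≤ 2 ^ L * R * C.card := by
    calc 2 * 2 ^ L * (R : ℝ) * C.card ≤ 2 * 2 ^ L * (R : ℝ) *
          ∑ z ∈ (univ : Finset (Fin R × Finset (Fin L))).filter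
            (fun z => I z.1 z.2), ((B z.1 z.2).card : ℝ) :=
          mul_le_mul_of_nonneg_left h2 (by positivity)
      _ = ∑ z ∈ (univ : Finset (Fin R × Finset (Fin L))).filter
            (fun z => I z.1 z.2), 2 * 2 ^ L * (R : ℝ) * ((B z.1 z.2).card : ℝ) := by
          rw [mul_sum]
      _ ≤ ∑ z ∈ (univ : Finset (Fin R × Finset (Fin L))).filter
            (fun z => I z.1 z.2), (C.card : ℝ) :=
          sum_le_sum fun z hz => hB _ _ (mem_filter.1 hz).2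
      _ ≤ ∑ z : Fin R × Finset (Fin L), (C.card : ℝ) :=
          sum_le_sum_of_subset_of_nonneg (filter_subset _ _) fun _ _ _ => hC'.le
      _ = 2 ^ L * R * C.card := by
          rw [sum_const, card_univ, Fintype.card_prod, Fintype.card_fin, Fintype.card_finset,
            Fintype.card_fin, nsmul_eq_mul]
          push_cast
          ring
  have h4 : (0 : ℝ) < 2 ^ L * R * C.card := by positivity
  linarith

theorem stage_step {G : SimpleGraph ν} {V : Fin R → Fin L → Finset ν} {c : Num}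
    (h : ∀ a, (pl G V a).OK c) (hc : c.OK R L) (A Y' : Fin R → Finset (Fin L → ν))
    (F : Fin R → (Fin L → ν) → ℝ) (U : Fin R → Finset (Fin L)) (v : Fin R → Fin L → ν)
    (hU : ∀ a, (U a).card ≤ c.f)
    (hgood : ∀ a, ∀ x ∈ A a, ∀ y : Finset ν, y ⊆ (pl G V a).Out → y.card ≤ c.w →
      Ad G univ x y → (pl G V a).Good c (F a) (Y' a) x y)
    (Q : Finset (Fin R)) (U' : Fin R → Finset (Fin L)) (xs : Fin R → Fin L → ν)
    (C : Fin R → Finset (Fin L → ν)) (Φ : Fin R → Finset ν)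
    (hS : Stage G V c A Y' F U v Q U' xs C Φ) (a : Fin R) (ha : a ∉ Q) :
    ∃ (U'' : Fin R → Finset (Fin L)) (xs' : Fin R → Fin L → ν)
      (C' : Fin R → Finset (Fin L → ν)) (Φ' : Fin R → Finset ν),
      Stage G V c A Y' F U v (insert a Q) U'' xs' C' Φ' := by
  have hQR : Q.card < R := by
    have h1 := card_lt_univ_of_notMem ha
    rwa [Fintype.card_fin] at h1
  have hw : c.f * Q.card + c.f ≤ c.w := by
    rw [hc.w_eq]
    calc c.f * Q.card + c.f = (Q.card + 1) * c.f := by ring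
      _ ≤ R * c.f := Nat.mul_le_mul_right _ hQR
  have hψm := hc.ψm_le
  choose Uc αc hcur₁ hcur₂ hact hUc hSp using fun b => Prc_cur hc hU hS b
  obtain ⟨hUa, hαa⟩ := hcur₂ a ha
  -- the letters of the other players
  have hactΦ : ∀ b b', b ≠ b' → lets (Uc b) (αc b) ⊆ Φ b' := by
    intro b b' hbb u hu
    apply hS.lets_sub b'
    rw [mem_oth]
    exact ⟨b, hbb, by rw [hact]; exact hu⟩
  have hadj : ∀ x ∈ C a, ∀ b, b ≠ a → ∀ j ∈ Uc b, ∀ i, G.Adj (αc b j) (x i) := by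
    intro x hx b hb j hj i
    have h1 : αc b j ∈ Φ a := hactΦ b a hb (mem_lets.2 ⟨j, hj, rfl⟩)
    have h2 := (mem_cell.1 ((hSp a).sub hx)).2.2
    exact (h2 i (mem_univ _) _ h1).symm
  obtain ⟨x, hx, hgx⟩ := Prc_pick hc.R_pos (C a) (Pl.Sp.nonempty hc (hSp a))
    (fun b M => b ≠ a ∧ M.card ≤ c.f)
    (fun b M => (C a).filter (fun x => 2 * c.q ^ L * (pl G V b).den c (C b) (Uc b) (αc b)
      (Φ b ∪ lets M x) < (pl G V b).den c (C b) (Uc b) (αc b) (Φ b))) (by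
      rintro b M ⟨hba, hM⟩
      refine typ h hc a b hba.symm (C a) (C b) (Uc a) (Uc b) (αc a) (αc b) (Φ a) (Φ b) 0 0
        (hSp a) (hSp b) M hM ?_ ?_
      · intro j _ hj
        exact hactΦ a b hba.symm (mem_lets.2 ⟨j, hj, rfl⟩)
      · intro x hx j hj u hu
        obtain ⟨i, _, rfl⟩ := mem_lets.1 hu
        exact hadj x hx b hba j hj i)
  have hxpts := (mem_cell.1 ((hSp a).sub hx)).1
  have hxV : ∀ j, x j ∈ V a j := (mem_pts.1 hxpts).1
  -- the good set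
  obtain ⟨y, hy⟩ : ∃ y, y = oth (act Q U U' v xs) a := ⟨_, rfl⟩
  have hyΦ : y ⊆ Φ a := by
    rw [hy]
    exact hS.lets_sub a
  have hyc : y.card ≤ c.w := by
    have h1 := card_oth_le (act Q U U' v xs) a c.f (fun b => by
      rw [hact]
      exact (card_lets_le _ _).trans (hUc b))
    rw [← hy, ← hc.w_eq] at h1
    omega
  have hxy : Ad G univ x y := by
    intro j hj u hu
    exact (mem_cell.1 ((hSp a).sub hx)).2.2 j hj u (hyΦ hu)
  obtain ⟨Ua', Ψ, A', hA'Y, hA'F, hUa', hΨ, hxΨ, hA'Sp⟩ :=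
    hgood a x (hS.sub₁ a ha hx) y (hyΦ.trans (hSp a).out) hyc hxy
  obtain ⟨Λ, hΛ⟩ : ∃ Λ, Λ = lets Ua' x := ⟨_, rfl⟩
  have hΛc : Λ.card ≤ c.f := by
    rw [hΛ]
    exact (card_lets_le _ _).trans hUa'
  have hΛout : ∀ b, b ≠ a → Λ ⊆ (pl G V b).Out := by
    intro b hb u hu
    rw [hΛ] at hu
    obtain ⟨j, _, rfl⟩ := mem_lets.1 hu
    exact mem_pl_Out.2 ⟨a, hb.symm, j, hxV j⟩
  have hden : ∀ b, b ≠ a → (pl G V b).den c (C b) (Uc b) (αc b) (Φ b) ≤
      2 * c.q ^ L * (pl G V b).den c (C b) (Uc b) (αc b) (Φ b ∪ Λ) := by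
    intro b hb
    have h1 := hgx b Ua' ⟨hb, hUa'⟩
    rw [mem_filter, not_and, not_lt, ← hΛ] at h1
    exact h1 hx
  have hcardQ : (insert a Q).card = Q.card + 1 := card_insert_of_notMem ha
  have hne : ∀ {b}, b ∈ Q → b ≠ a := fun hb hba => ha (hba ▸ hb)
  have hact' : ∀ b, b ≠ a → act (insert a Q) U (Function.update U' a Ua') v
      (Function.update xs a x) b = act Q U U' v xs b := by
    intro b hb
    unfold act
    rw [Function.update_of_ne hb, Function.update_of_ne hb]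
    by_cases hbQ : b ∈ Q
    · rw [if_pos hbQ, if_pos (mem_insert_of_mem hbQ)]
    · rw [if_neg hbQ, if_neg (by rw [mem_insert, not_or]; exact ⟨hb, hbQ⟩)]
  have hacta : act (insert a Q) U (Function.update U' a Ua') v
      (Function.update xs a x) a = Λ := by
    rw [Prc_act_mem (mem_insert_self _ _), Function.update_self, Function.update_self, hΛ]
  refine ⟨Function.update U' a Ua', Function.update xs a x,
    fun b => if b = a then A' else cell G (C b) (Uc b) (αc b) (Φ b ∪ Λ),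
    fun b => if b = a then Ψ ∪ y else Φ b ∪ Λ, ?_⟩
  constructor
  · -- sub₁
    intro b hb
    rw [mem_insert, not_or] at hb
    simp only [if_neg hb.1]
    exact (cell_sub _ _ _ _ _).trans (hS.sub₁ b hb.2)
  · -- sp₁
    intro b hb
    rw [mem_insert, not_or] at hb
    simp only [if_neg hb.1]
    obtain ⟨e1, e2⟩ := hcur₂ b hb.2
    have h1 := hden b hb.1
    rw [e1, e2] at h1 ⊢
    rw [hcardQ]
    have hc1 := hS.card₁ b hb.2
    exact Prc_shrink hc (mul_nonneg (Prc_ZS hc) (by positivity))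
      (mul_nonneg (Prc_GS hc) (by positivity)) (hS.sp₁ b hb.2) Λ (hΛout b hb.1) hΛc
      (by omega) hw h1
  · -- card₁
    intro b hb
    rw [mem_insert, not_or] at hb
    simp only [if_neg hb.1]
    have hc1 := hS.card₁ b hb.2
    have h1 := card_union_le (Φ b) Λ
    rw [hcardQ, Nat.mul_succ]
    omega
  · -- mem
    intro b hb
    rcases mem_insert.1 hb with rfl | hb
    · rw [Function.update_self]
      exact hS.sub₁ b ha hx
    · rw [Function.update_of_ne (hne hb)]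
      exact hS.mem b hb
  · -- sub₂
    intro b hb
    rcases mem_insert.1 hb with rfl | hb
    · simp only [if_pos]
      exact hA'Y
    · simp only [if_neg (hne hb)]
      exact (cell_sub _ _ _ _ _).trans (hS.sub₂ b hb)
  · -- below
    intro b hb
    rcases mem_insert.1 hb with rfl | hb
    · simp only [if_pos]
      rw [Function.update_self]
      exact hA'F
    · simp only [if_neg (hne hb)]
      rw [Function.update_of_ne (hne hb)]
      exact fun z hz => hS.below b hb z (cell_sub _ _ _ _ _ hz)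
  · -- U'_le
    intro b hb
    rcases mem_insert.1 hb with rfl | hb
    · rw [Function.update_self]
      exact hUa'
    · rw [Function.update_of_ne (hne hb)]
      exact hS.U'_le b hb
  · -- sp₂
    intro b hb
    rcases mem_insert.1 hb with rfl | hb
    · simp only [if_pos]
      rw [Function.update_self, Function.update_self]
      refine Pl.Sp.mono hc hA'Sp ?_ ?_ (Nat.sub_le _ _)
      · exact le_mul_of_one_le_right (Prc_Zg hc) (one_le_pow₀ (Prc_one_le hc))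
      · exact le_mul_of_one_le_right (Prc_Gg hc) (one_le_pow₀ (Prc_one_le' hc))
    · simp only [if_neg (hne hb)]
      rw [Function.update_of_ne (hne hb), Function.update_of_ne (hne hb)]
      obtain ⟨e1, e2⟩ := hcur₁ b hb
      have h1 := hden b (hne hb)
      rw [e1, e2] at h1 ⊢
      rw [hcardQ]
      have hc1 := hS.card₂ b hb
      exact Prc_shrink hc (Prc_Zg hc) (Prc_Gg hc) (hS.sp₂ b hb) Λ (hΛout b (hne hb)) hΛc
        (by omega) (by omega) h1
  · -- card₂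
    intro b hb
    rcases mem_insert.1 hb with rfl | hb
    · simp only [if_pos]
      have h1 := card_union_le Ψ y
      omega
    · simp only [if_neg (hne hb)]
      have hc1 := hS.card₂ b hb
      have h1 := card_union_le (Φ b) Λ
      rw [hcardQ, Nat.mul_succ]
      omega
  · -- lets_sub
    intro b u hu
    obtain ⟨b', hb', hu⟩ := mem_oth.1 hu
    by_cases hba : b = a
    · subst hba
      simp only [if_pos]
      rw [hact' b' hb'] at hu
      refine mem_union_right _ ?_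
      rw [hy]
      exact mem_oth.2 ⟨b', hb', hu⟩
    · simp only [if_neg hba]
      by_cases hb'a : b' = a
      · subst hb'a
        rw [hacta] at hu
        exact mem_union_right _ hu
      · rw [hact' b' hb'a] at hu
        exact mem_union_left _ (hS.lets_sub b (mem_oth.2 ⟨b', hb', hu⟩))

theorem prc {G : SimpleGraph ν} {V : Fin R → Fin L → Finset ν} {c : Num}
    (h : ∀ a, (pl G V a).OK c) (hc : c.OK R L) (A Y' : Fin R → Finset (Fin L → ν))
    (F : Fin R → (Fin L → ν) → ℝ) (U : Fin R → Finset (Fin L)) (v : Fin R → Fin L → ν)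
    (hU : ∀ a, (U a).card ≤ c.f)
    (hgood : ∀ a, ∀ x ∈ A a, ∀ y : Finset ν, y ⊆ (pl G V a).Out → y.card ≤ c.w →
      Ad G univ x y → (pl G V a).Good c (F a) (Y' a) x y)
    (U' : Fin R → Finset (Fin L)) (xs : Fin R → Fin L → ν)
    (C : Fin R → Finset (Fin L → ν)) (Φ : Fin R → Finset ν)
    (hS : Stage G V c A Y' F U v ∅ U' xs C Φ) :
    ∃ (U'' : Fin R → Finset (Fin L)) (xs' : Fin R → Fin L → ν)
      (C' : Fin R → Finset (Fin L → ν)) (Φ' : Fin R → Finset ν),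
      Stage G V c A Y' F U v univ U'' xs' C' Φ' := by
  have key : ∀ Q : Finset (Fin R), ∃ (U'' : Fin R → Finset (Fin L)) (xs' : Fin R → Fin L → ν)
      (C' : Fin R → Finset (Fin L → ν)) (Φ' : Fin R → Finset ν),
      Stage G V c A Y' F U v Q U'' xs' C' Φ' := by
    intro Q
    induction Q using Finset.induction_on with
    | empty => exact ⟨U', xs, C, Φ, hS⟩
    | insert a Q ha ih =>
      obtain ⟨U1, xs1, C1, Φ1, h1⟩ := ih
      exact stage_step h hc A Y' F U v hU hgood Q U1 xs1 C1 Φ1 h1 a ha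
  exact key univ

end Pool.Agent.H15.RD
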