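/-
ROW Pre (about 90 lines). From a state for sets of good points to a state for the sets `Y'`. Uses prc, Sp.mono as stated.
PROOF. `hS` gives `A, U, v, Φ`. `Stage ∅` holds with `A`, `C = A`, `Φ`, `U' = U`, `xs = v` (`act ∅ .. b = lets (U b) (v b)`; `Q.card = 0`, powers with exponent 0, `w - f * 0 = w`). `hgood'` for prc from `A a ⊆ Y a`.
`prc` gives `Stage univ` with `U'', xs', C', Φ'`. New state: `A := C'`, `U := U''`, `v := xs'`, `Φ := Φ'`: `C' a ⊆ Y' a`; `(Φ' a).card ≤ ψm + w + f R = ψm + 2w` (`w = R f`, `univ.card = R`); `act univ .. b = lets (U'' b) (xs' b)`; Sp by Sp.mono with F9, F9' (`univ.card = R`) and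
`w ≤ 2w - f R`. For `X a ∈ C' a`: `∑ F a (X a) ≤ ∑ F a (xs' a) < t` since `xs' a ∈ A a`.
-/
import Pool.Agent.H15.RD.Prc

set_option autoImplicit false
set_option linter.unusedSectionVars false

open Finset

namespace Pool.Agent.H15.RD

variable {ν : Type} [Fintype ν] [DecidableEq ν] {R L : ℕ}

theorem pre_step {G : SimpleGraph ν} {V : Fin R → Fin L → Finset ν} {c : Num}
    (h : ∀ a, (pl G V a).OK c) (hc : c.OK R L) (Y Y' : Fin R → Finset (Fin L → ν))
    (F : Fin R → (Fin L → ν) → ℝ) (t : ℝ)
    (hgood : ∀ a, ∀ x ∈ Y a, ∀ y : Finset ν, y ⊆ (pl G V a).Out → y.card ≤ c.w →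
      Ad G univ x y → (pl G V a).Good c (F a) (Y' a) x y)
    (hS : St G V c Y F t (c.ZS * 2 ^ c.r) (c.GS * 2 ^ c.r)) : St G V c Y' F t c.ZS c.GS := by
  obtain ⟨A, U, v, Φ, hAY, hU, hΦc, hlets, hSp, hF⟩ := hS
  have hcardR : (univ : Finset (Fin R)).card = R := by rw [card_univ, Fintype.card_fin]
  have hfR : c.f * R = c.w := by rw [hc.w_eq, Nat.mul_comm]
  have hst : Stage G V c A Y' F U v ∅ U v A Φ := by
    constructor
    · intro a _
      exact Subset.refl _
    · intro a _
      refine Pl.Sp.mono hc (hSp a) (le_of_eq ?_) (le_of_eq ?_) ?_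
      · rw [card_empty, pow_zero, mul_one]
      · rw [card_empty, pow_zero, mul_one]
      · rw [card_empty, Nat.mul_zero, Nat.sub_zero]
    · intro a _
      rw [card_empty, Nat.mul_zero, Nat.add_zero]
      exact hΦc a
    · intro a ha
      exact absurd ha (notMem_empty _)
    · intro a ha
      exact absurd ha (notMem_empty _)
    · intro a ha
      exact absurd ha (notMem_empty _)
    · intro a ha
      exact absurd ha (notMem_empty _)
    · intro a ha
      exact absurd ha (notMem_empty _)
    · intro a ha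
      exact absurd ha (notMem_empty _)
    · intro a
      have h1 : act ∅ U U v v = fun b => lets (U b) (v b) := by
        funext b
        unfold act
        exact if_neg (notMem_empty _)
      rw [h1]
      exact hlets a
  obtain ⟨U'', xs', C', Φ', hS'⟩ := prc h hc A Y' F U v hU
    (fun a x hx => hgood a x (hAY a hx)) U v A Φ hst
  refine ⟨C', U'', xs', Φ', fun a => hS'.sub₂ a (mem_univ _), fun a => hS'.U'_le a (mem_univ _),
    ?_, ?_, ?_, ?_⟩
  · intro a
    have h1 := hS'.card₂ a (mem_univ _)
    rw [hcardR, hfR] at h1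
    omega
  · intro a
    have h1 := hS'.lets_sub a
    have h2 : act univ U U'' v xs' = fun b => lets (U'' b) (xs' b) := by
      funext b
      unfold act
      exact if_pos (mem_univ _)
    rwa [h2] at h1
  · intro a
    have h1 := hS'.sp₂ a (mem_univ _)
    rw [hcardR, hfR] at h1
    exact Pl.Sp.mono hc h1 hc.F9 hc.F9' (by omega)
  · intro X hX
    exact lt_of_le_of_lt
      (Finset.sum_le_sum fun a _ => hS'.below a (mem_univ _) (X a) (hX a))
      (hF xs' fun a => hS'.mem a (mem_univ _))

end Pool.Agent.H15.RD
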