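/-
The lower tail with an arbitrary factor `1 - δ` (a generalisation of `Pool.Agent.H9.KR.lower`).
-/
import Pool.Agent.H9.KR.Defs
import Pool.Agent.H82.RG.Prob

set_option autoImplicit false
set_option linter.unusedSectionVars false

open Finset

namespace Pool.Agent.H15.RD

open Pool.Agent.H9.KR

variable {Ω E : Type} [Fintype Ω] [DecidableEq E]

open Classical in
theorem Lo_gen {w : Ω → ℝ} {R : Ω → Finset E} {E₀ : Finset E} {p : ℝ} (h : RSub w R E₀ p) (l : ℝ)
    {ι : Type} (A : ι → Finset E) (I : Finset ι)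
    (hA : ∀ i ∈ I, A i ⊆ E₀) (hdis : ∀ i ∈ I, ∀ j ∈ I, i ≠ j → Disjoint (A i) (A j))
    (B : Finset E) (hB : B ⊆ E₀) (hBA : ∀ i ∈ I, Disjoint B (A i)) :
    ∑ o, w o * (if B ⊆ R o then 1 else 0) * ∏ i ∈ I, (1 - (if A i ⊆ R o then l else 0)) =
      p ^ B.card * ∏ i ∈ I, (1 - l * p ^ (A i).card) := by
  induction I using Finset.induction_on generalizing B with
  | empty =>
    have h1 := h.hit B hB
    unfold pr at h1
    simp only [Finset.prod_empty, mul_one]
    rw [← h1]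
    refine Finset.sum_congr rfl fun o _ => ?_
    split_ifs <;> simp
  | insert i I hi ih =>
    have hA' : ∀ j ∈ I, A j ⊆ E₀ := fun j hj => hA j (mem_insert_of_mem hj)
    have hdis' : ∀ j ∈ I, ∀ l ∈ I, j ≠ l → Disjoint (A j) (A l) :=
      fun j hj l hl => hdis j (mem_insert_of_mem hj) l (mem_insert_of_mem hl)
    have hne : ∀ j ∈ I, i ≠ j := by
      rintro j hj rfl
      exact hi hj
    have e1 := ih hA' hdis' B hB (fun j hj => hBA j (mem_insert_of_mem hj))
    have e2 := ih hA' hdis' (B ∪ A i) (union_subset hB (hA i (mem_insert_self i I)))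
      (fun j hj => by
        rw [Finset.disjoint_union_left]
        exact ⟨hBA j (mem_insert_of_mem hj),
          hdis i (mem_insert_self i I) j (mem_insert_of_mem hj) (hne j hj)⟩)
    rw [card_union_of_disjoint (hBA i (mem_insert_self i I)), pow_add] at e2
    rw [Finset.prod_insert hi]
    have e3 : ∀ o, w o * (if B ⊆ R o then 1 else 0) *
        ∏ j ∈ insert i I, (1 - (if A j ⊆ R o then l else 0)) =
        w o * (if B ⊆ R o then 1 else 0) * ∏ j ∈ I, (1 - (if A j ⊆ R o then l else 0)) -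
        l * (w o * (if B ∪ A i ⊆ R o then 1 else 0) *
          ∏ j ∈ I, (1 - (if A j ⊆ R o then l else 0))) := by
      intro o
      rw [Finset.prod_insert hi]
      by_cases h1 : B ⊆ R o <;> by_cases h2 : A i ⊆ R o
      · rw [if_pos h1, if_pos h2, if_pos (union_subset h1 h2)]
        ring
      · rw [if_pos h1, if_neg h2, if_neg (fun h3 => h2 (subset_union_right.trans h3))]
        ring
      · rw [if_neg h1, if_neg (fun h3 => h1 (subset_union_left.trans h3))]
        ring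
      · rw [if_neg h1, if_neg (fun h3 => h1 (subset_union_left.trans h3))]
        ring
    rw [Finset.sum_congr rfl fun o _ => e3 o, Finset.sum_sub_distrib, ← Finset.mul_sum, e1, e2]
    ring

open Classical in
theorem Lo_markov {w : Ω → ℝ} {R : Ω → Finset E} (hw : ∀ o, 0 ≤ w o) (l : ℝ) (hl0 : 0 ≤ l)
    (hl1 : l < 1) {ι : Type} (A : ι → Finset E) (I : Finset ι) (y : ℝ) :
    pr w (fun o => ((I.filter (fun i => A i ⊆ R o)).card : ℝ) ≤ y) * Real.exp (y * Real.log (1 - l)) ≤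
      ∑ o, w o * ∏ i ∈ I, (1 - (if A i ⊆ R o then l else 0)) := by
  unfold pr
  rw [Finset.sum_mul]
  refine Finset.sum_le_sum fun o _ => ?_
  have hl : 0 < 1 - l := by linarith
  have e : ∏ i ∈ I, (1 - (if A i ⊆ R o then l else 0)) =
      Real.exp (((I.filter (fun i => A i ⊆ R o)).card : ℝ) * Real.log (1 - l)) := by
    have e1 : ∀ i ∈ I, (1 - (if A i ⊆ R o then l else 0)) =
        if A i ⊆ R o then 1 - l else 1 := by
      intro i _
      split_ifs <;> ring
    rw [Finset.prod_congr rfl e1, Finset.prod_ite, Finset.prod_const, Finset.prod_const_one, mul_one,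
      Real.exp_nat_mul, Real.exp_log hl]
  rw [e]
  split_ifs with hy
  · refine mul_le_mul_of_nonneg_left (Real.exp_le_exp.2 ?_) (hw o)
    have hlog : Real.log (1 - l) ≤ 0 := Real.log_nonpos hl.le (by linarith)
    exact mul_le_mul_of_nonpos_right hy hlog
  · rw [zero_mul]
    exact mul_nonneg (hw o) (Real.exp_pos _).le

open Classical in
theorem lower_gen {w : Ω → ℝ} {R : Ω → Finset E} {E₀ : Finset E} {p : ℝ} (h : RSub w R E₀ p)
    (hp0 : 0 ≤ p) (hp1 : p ≤ 1) {ι : Type} (I : Finset ι) (A : ι → Finset E)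
    (hA : ∀ i ∈ I, A i ⊆ E₀) (hdis : ∀ i ∈ I, ∀ j ∈ I, i ≠ j → Disjoint (A i) (A j))
    (q : ℝ) (hq0 : 0 ≤ q) (hq : ∀ i ∈ I, q ≤ p ^ (A i).card) (d : ℝ) (hd0 : 0 ≤ d) (hd1 : d ≤ 1)
    (y : ℝ) (hy0 : 0 ≤ y) (hy : y ≤ (1 - d) * (q * I.card)) :
    pr w (fun o => ((I.filter (fun i => A i ⊆ R o)).card : ℝ) ≤ y) ≤
      Real.exp (-(d ^ 2 * (q * I.card) / 4)) := by
  have hw := h.nonneg
  obtain ⟨l, hl⟩ : ∃ l : ℝ, l = d / 2 := ⟨_, rfl⟩
  have hl0 : 0 ≤ l := by linarith
  have hl1 : l ≤ 1 / 2 := by linarith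
  have hgen := Lo_gen h l A I hA hdis ∅ (by simp) (fun i _ => by simp)
  simp only [Finset.empty_subset, if_true, mul_one, Finset.card_empty, pow_zero, one_mul] at hgen
  have hM := Lo_markov hw l hl0 (by linarith) A I (R := R) y
  have hbd : ∏ i ∈ I, (1 - l * p ^ (A i).card) ≤ Real.exp (-(l * (q * I.card))) := by
    calc ∏ i ∈ I, (1 - l * p ^ (A i).card) ≤ ∏ _i ∈ I, Real.exp (-(l * q)) := by
          refine Finset.prod_le_prod (fun i hi => ?_) (fun i hi => ?_)
          · have h1 := pow_le_one₀ (n := (A i).card) hp0 hp1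
            have h2 : 0 ≤ p ^ (A i).card := pow_nonneg hp0 _
            nlinarith
          · have h1 := mul_le_mul_of_nonneg_left (hq i hi) hl0
            have h2 := Real.add_one_le_exp (-(l * q))
            linarith
      _ = Real.exp (-(l * (q * I.card))) := by
          rw [Finset.prod_const, ← Real.exp_nat_mul]
          congr 1
          ring
  rw [hgen] at hM
  have hlog : -Real.log (1 - l) ≤ l / (1 - l) := by
    have h1 : 0 < 1 - l := by linarith
    have h2 := Real.add_one_le_exp (l / (1 - l))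
    have h3 : l / (1 - l) + 1 = (1 - l)⁻¹ := by
      field_simp
      ring
    rw [h3] at h2
    have h4 := Real.log_le_log (inv_pos.2 h1) h2
    rw [Real.log_inv, Real.log_exp] at h4
    exact h4
  have h3 : pr w (fun o => ((I.filter (fun i => A i ⊆ R o)).card : ℝ) ≤ y) ≤
      Real.exp (-(y * Real.log (1 - l))) * Real.exp (-(l * (q * I.card))) := by
    have h4 := hM.trans hbd
    have h5 := mul_le_mul_of_nonneg_left h4 (Real.exp_pos (-(y * Real.log (1 - l)))).le
    refine le_trans (le_of_eq ?_) h5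
    rw [mul_comm (pr w _), ← mul_assoc, ← Real.exp_add]
    simp
  refine h3.trans ?_
  rw [← Real.exp_add]
  refine Real.exp_le_exp.2 ?_
  obtain ⟨X, hX⟩ : ∃ X : ℝ, X = q * I.card := ⟨_, rfl⟩
  rw [← hX] at hy ⊢
  have hX0 : 0 ≤ X := by rw [hX]; positivity
  have h4 : -(y * Real.log (1 - l)) ≤ y * (l / (1 - l)) := by
    have := mul_le_mul_of_nonneg_left hlog hy0
    linarith
  have h5 : (0 : ℝ) < 1 - l := by linarith
  have h6 : y * (l / (1 - l)) ≤ l * (1 - l) * X := by
    rw [mul_div_assoc', div_le_iff₀ h5]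
    have h7 : (1 - d) ≤ (1 - l) * (1 - l) := by
      rw [hl]
      nlinarith
    have h8 : y ≤ (1 - l) * (1 - l) * X := hy.trans (mul_le_mul_of_nonneg_right h7 hX0)
    calc y * l ≤ ((1 - l) * (1 - l) * X) * l := mul_le_mul_of_nonneg_right h8 hl0
      _ = l * (1 - l) * X * (1 - l) := by ring
  have h7 : l * (1 - l) * X + -(l * X) = -(d ^ 2 * X / 4) := by
    rw [hl]
    ring
  linarith

variable {V : Type} [DecidableEq V]

open Pool.Agent.H82.RG in
open Classical in
/-- `t` disjoint sets on one side and `t` disjoint sets on the other side, few complete pairs. -/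
theorem disp_low {w : Ω → ℝ} {R : Ω → Finset (Sym2 V)} {E₀ : Finset (Sym2 V)} {p : ℝ} (h : RSub w R E₀ p)
    (hp0 : 0 ≤ p) (hp1 : p ≤ 1) (t m g : ℕ) (xs ys : Fin t → Finset V)
    (hx : ∀ r, (xs r).card = m) (hy : ∀ i, (ys i).card = g)
    (hxd : ∀ r r', r ≠ r' → Disjoint (xs r) (xs r')) (hyd : ∀ i i', i ≠ i' → Disjoint (ys i) (ys i'))
    (hxy : ∀ r i, Disjoint (xs r) (ys i)) (hE : ∀ r i, ∀ u ∈ xs r, ∀ v ∈ ys i, s(u, v) ∈ E₀)
    (d : ℝ) (hd0 : 0 ≤ d) (hd1 : d ≤ 1) :
    pr w (fun o => (((univ : Finset (Fin t × Fin t)).filter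
      (fun ri => ∀ u ∈ xs ri.1, ∀ v ∈ ys ri.2, s(u, v) ∈ R o)).card : ℝ) ≤
      (1 - d) * (p ^ (g * m) * t ^ 2)) ≤ Real.exp (-(d ^ 2 * (p ^ (g * m) * t ^ 2) / 4)) := by
  have hc : ((univ : Finset (Fin t × Fin t)).card : ℝ) = t ^ 2 := by
    rw [card_univ, Fintype.card_prod, Fintype.card_fin]
    push_cast
    ring
  have h2 := lower_gen h hp0 hp1 (univ : Finset (Fin t × Fin t)) (fun ri => pr2 (xs ri.1) (ys ri.2))
    (fun ri _ e he => by
      obtain ⟨u, hu, v, hv, rfl⟩ := mem_pr2.1 he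
      exact hE _ _ u hu v hv)
    (fun ri _ ri' _ hne => by
      rw [disjoint_left]
      intro e he he'
      obtain ⟨u, hu, v, hv, rfl⟩ := mem_pr2.1 he
      obtain ⟨u', hu', v', hv', h2⟩ := mem_pr2.1 he'
      rcases Sym2.eq_iff.1 h2 with ⟨h3, h4⟩ | ⟨h3, h4⟩
      · by_cases h5 : ri.1 = ri'.1
        · have h6 : ri.2 ≠ ri'.2 := fun h7 => hne (Prod.ext h5 h7)
          exact disjoint_left.1 (hyd _ _ h6) hv (h4 ▸ hv')
        · exact disjoint_left.1 (hxd _ _ h5) hu (h3 ▸ hu')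
      · exact disjoint_left.1 (hxy _ _) hu' (h3.symm ▸ hv))
    (p ^ (g * m)) (pow_nonneg hp0 _)
    (fun ri _ => by rw [card_pr2 (hxy _ _), hx, hy, mul_comm]) d hd0 hd1
    ((1 - d) * (p ^ (g * m) * t ^ 2)) (mul_nonneg (by linarith) (by positivity)) (by rw [hc])
  rw [hc] at h2
  refine le_trans (pr_mono h.nonneg fun o ho => ?_) h2
  refine le_trans (Nat.cast_le.2 (card_le_card fun ri hri => ?_)) ho
  rw [mem_filter] at hri ⊢
  exact ⟨hri.1, fun u hu v hv => hri.2 (mem_pr2.2 ⟨u, hu, v, hv, rfl⟩)⟩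

end Pool.Agent.H15.RD
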