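/-
Dispersion in the random graph: `t` points that differ in all rows of `T` and `t` disjoint sets of
letters have about `t ^ 2 p ^ (g m)` adjacent pairs.
-/
import Pool.Agent.H15.RD.Defs
import Pool.Agent.H15.RD.Lo
import Pool.Agent.H9.KR.Gnp

set_option autoImplicit false
set_option linter.unusedSectionVars false

open Finset

namespace Pool.Agent.H15.RD

open Pool.Agent.H9.KR

variable {N L : ℕ}

theorem mem_filt {α : Type} (s : Finset α) (P : α → Prop) (inst : DecidablePred P) {a : α} :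
    a ∈ @Finset.filter α P inst s ↔ a ∈ s ∧ P a := mem_filter

theorem mem_adp {ν : Type} {G : SimpleGraph ν} {T : Finset (Fin L)} {t : ℕ}
    {x : Fin t → Fin L → ν} {y : Fin t → Finset ν} {i : Fin t × Fin t} :
    i ∈ adp G T x y ↔ Ad G T (x i.1) (y i.2) := by
  simp [adp]

open Classical in
/-- One set of rows. -/
theorem dsp_one (p : unitInterval) (V : Fin L → Finset (Fin N)) (Out : Finset (Fin N))
    (hV : ∀ i j, i ≠ j → Disjoint (V i) (V j)) (hO : ∀ j, Disjoint Out (V j)) (m g t : ℕ)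
    (d : ℝ) (hd0 : 0 ≤ d) (hd1 : d ≤ 1) (T : Finset (Fin L)) (hT : T.card = m) :
    pr (fun G : SimpleGraph (Fin N) => (SimpleGraph.binomialRandom (Fin N) p).real {G})
      (fun G => ∃ x : Fin t → Fin L → Fin N,
        (∀ i, ∀ j ∈ T, x i j ∈ V j) ∧ (∀ i i', i ≠ i' → ∀ j ∈ T, x i j ≠ x i' j) ∧
        ∃ y : Fin t → Finset (Fin N), (∀ i, y i ⊆ Out) ∧ (∀ i, (y i).card = g) ∧
        (∀ i i', i ≠ i' → Disjoint (y i) (y i')) ∧
        ((adp G T x y).card : ℝ) ≤ (1 - d) * ((p : ℝ) ^ (g * m) * (t : ℝ) ^ 2)) ≤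
      ((N : ℝ) ^ (L + g)) ^ t * Real.exp (-(d ^ 2 * ((p : ℝ) ^ (g * m) * (t : ℝ) ^ 2) / 4)) := by
  have h := rsub_gnp (V := Fin N) p
  have hw := h.nonneg
  have hc : (((univ : Finset (Fin t → Fin L → Fin N)) ×ˢ
      (Fintype.piFinset fun _ : Fin t => powersetCard g (univ : Finset (Fin N)))).card : ℝ)
      ≤ ((N : ℝ) ^ (L + g)) ^ t := by
    rw [card_product, card_univ, Fintype.card_piFinset]
    push_cast
    rw [pow_add, mul_pow]
    refine mul_le_mul (le_of_eq ?_) ?_ (by positivity) (by positivity)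
    · rw [Fintype.card_fun, Fintype.card_fun, Fintype.card_fin, Fintype.card_fin, Fintype.card_fin]
      push_cast
      rfl
    · rw [prod_const, card_univ, Fintype.card_fin]
      refine pow_le_pow_left₀ (Nat.cast_nonneg _) ?_ t
      rw [card_powersetCard, card_univ, Fintype.card_fin]
      exact_mod_cast Nat.choose_le_pow _ _
  refine le_trans ?_ (mul_le_mul_of_nonneg_right hc (Real.exp_pos _).le)
  refine le_trans (pr_mono hw ?_) (pr_exists_le_card hw _ (fun x G =>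
      (∀ i, ∀ j ∈ T, x.1 i j ∈ V j) ∧ (∀ i i', i ≠ i' → ∀ j ∈ T, x.1 i j ≠ x.1 i' j) ∧
        (∀ i, x.2 i ⊆ Out) ∧ (∀ i, (x.2 i).card = g) ∧
        (∀ i i', i ≠ i' → Disjoint (x.2 i) (x.2 i')) ∧
        ((adp G T x.1 x.2).card : ℝ) ≤ (1 - d) * ((p : ℝ) ^ (g * m) * (t : ℝ) ^ 2))
      (Real.exp (-(d ^ 2 * ((p : ℝ) ^ (g * m) * (t : ℝ) ^ 2) / 4))) ?_)
  · rintro G ⟨xs, h1, h2, ys, h3, h4, h5, h6⟩
    refine ⟨(xs, ys), ?_, h1, h2, h3, h4, h5, h6⟩
    rw [mem_product, Fintype.mem_piFinset]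
    exact ⟨mem_univ _, fun i => mem_powersetCard.2 ⟨subset_univ _, h4 i⟩⟩
  · rintro ⟨xs, ys⟩ _
    simp only
    by_cases hg : (∀ i, ∀ j ∈ T, xs i j ∈ V j) ∧ (∀ i i', i ≠ i' → ∀ j ∈ T, xs i j ≠ xs i' j) ∧
        (∀ i, ys i ⊆ Out) ∧ (∀ i, (ys i).card = g) ∧ (∀ i i', i ≠ i' → Disjoint (ys i) (ys i'))
    · obtain ⟨h1, h2, h3, h4, h5⟩ := hg
      have hinj : ∀ r, Set.InjOn (xs r) T := by
        intro r j hj j' hj' hjj
        by_contra hne
        exact disjoint_left.1 (hV j j' hne) (h1 r j hj) (hjj ▸ h1 r j' hj')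
      refine le_trans (pr_mono hw ?_) (disp_low h p.2.1 p.2.2 t T.card g (fun r => T.image (xs r)) ys
        (fun r => card_image_of_injOn (hinj r)) h4 (fun r r' hr => ?_) h5 (fun r i => ?_)
        (fun r i u hu v hv => ?_) d hd0 hd1 |>.trans (le_of_eq (by rw [hT])))
      · rintro G ⟨_, _, _, _, _, h6⟩
        rw [hT]
        refine le_trans (Nat.cast_le.2 (card_le_card fun ri hri => ?_)) h6
        have h7 := ((mem_filt _ _ _).1 hri).2
        refine mem_adp.2 fun j hj v hv => ?_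
        exact mem_ed.1 (h7 _ (mem_image_of_mem _ hj) v hv)
      · rw [disjoint_left]
        intro u hu hu'
        obtain ⟨j, hj, rfl⟩ := mem_image.1 hu
        obtain ⟨j', hj', h7⟩ := mem_image.1 hu'
        by_cases hjj : j = j'
        · subst hjj
          exact h2 r r' hr j hj h7.symm
        · exact disjoint_left.1 (hV j j' hjj) (h1 r j hj) (h7 ▸ h1 r' j' hj')
      · rw [disjoint_left]
        intro u hu hu'
        obtain ⟨j, hj, rfl⟩ := mem_image.1 hu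
        exact disjoint_left.1 (hO j) (h3 i hu') (h1 r j hj)
      · obtain ⟨j, hj, rfl⟩ := mem_image.1 hu
        refine mem_pairs.2 ?_
        intro he
        exact disjoint_left.1 (hO j) (h3 i hv) (he ▸ h1 r j hj)
    · have h2 : pr (fun G : SimpleGraph (Fin N) => (SimpleGraph.binomialRandom (Fin N) p).real {G})
          (fun G => (∀ i, ∀ j ∈ T, xs i j ∈ V j) ∧ (∀ i i', i ≠ i' → ∀ j ∈ T, xs i j ≠ xs i' j) ∧
          (∀ i, ys i ⊆ Out) ∧ (∀ i, (ys i).card = g) ∧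
          (∀ i i', i ≠ i' → Disjoint (ys i) (ys i')) ∧
          ((adp G T xs ys).card : ℝ) ≤ (1 - d) * ((p : ℝ) ^ (g * m) * (t : ℝ) ^ 2)) = 0 := by
        unfold pr
        refine sum_eq_zero fun o _ => ?_
        rw [if_neg fun hh => hg ⟨hh.1, hh.2.1, hh.2.2.1, hh.2.2.2.1, hh.2.2.2.2.1⟩]
      rw [h2]
      positivity

theorem dsp_pr (p : unitInterval) (V : Fin L → Finset (Fin N)) (Out : Finset (Fin N))
    (hV : ∀ i j, i ≠ j → Disjoint (V i) (V j)) (hO : ∀ j, Disjoint Out (V j)) (m g t : ℕ)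
    (d : ℝ) (hd0 : 0 ≤ d) (hd1 : d ≤ 1) :
    pr (fun G : SimpleGraph (Fin N) => (SimpleGraph.binomialRandom (Fin N) p).real {G})
      (fun G => ∃ T : Finset (Fin L), T.card = m ∧ ∃ x : Fin t → Fin L → Fin N,
        (∀ i, ∀ j ∈ T, x i j ∈ V j) ∧ (∀ i i', i ≠ i' → ∀ j ∈ T, x i j ≠ x i' j) ∧
        ∃ y : Fin t → Finset (Fin N), (∀ i, y i ⊆ Out) ∧ (∀ i, (y i).card = g) ∧
        (∀ i i', i ≠ i' → Disjoint (y i) (y i')) ∧
        ((adp G T x y).card : ℝ) ≤ (1 - d) * ((p : ℝ) ^ (g * m) * (t : ℝ) ^ 2)) ≤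
      2 ^ L * ((N : ℝ) ^ (L + g)) ^ t *
        Real.exp (-(d ^ 2 * ((p : ℝ) ^ (g * m) * (t : ℝ) ^ 2) / 4)) := by
  classical
  have h := rsub_gnp (V := Fin N) p
  have hw := h.nonneg
  have h1 := pr_exists_le_card hw ((univ : Finset (Finset (Fin L))).filter (fun T => T.card = m))
    (fun T G => ∃ x : Fin t → Fin L → Fin N,
      (∀ i, ∀ j ∈ T, x i j ∈ V j) ∧ (∀ i i', i ≠ i' → ∀ j ∈ T, x i j ≠ x i' j) ∧
      ∃ y : Fin t → Finset (Fin N), (∀ i, y i ⊆ Out) ∧ (∀ i, (y i).card = g) ∧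
      (∀ i i', i ≠ i' → Disjoint (y i) (y i')) ∧
      ((adp G T x y).card : ℝ) ≤ (1 - d) * ((p : ℝ) ^ (g * m) * (t : ℝ) ^ 2))
    (((N : ℝ) ^ (L + g)) ^ t * Real.exp (-(d ^ 2 * ((p : ℝ) ^ (g * m) * (t : ℝ) ^ 2) / 4)))
    fun T hT => dsp_one p V Out hV hO m g t d hd0 hd1 T (mem_filter.1 hT).2
  refine (pr_mono hw ?_).trans (h1.trans ?_)
  · rintro G ⟨T, hT, h2⟩
    exact ⟨T, mem_filter.2 ⟨mem_univ _, hT⟩, h2⟩
  · have h2 : (((univ : Finset (Finset (Fin L))).filter (fun T => T.card = m)).card : ℝ) ≤ 2 ^ L := by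
      have h3 : ((univ : Finset (Finset (Fin L))).filter (fun T => T.card = m)).card ≤ 2 ^ L := by
        refine (card_filter_le _ _).trans ?_
        rw [card_univ, Fintype.card_finset, Fintype.card_fin]
      exact_mod_cast h3
    rw [mul_assoc]
    exact mul_le_mul_of_nonneg_right h2 (by positivity)

end Pool.Agent.H15.RD
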