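/-
The numbers. Everything is a power of `a = n ^ (1 / (128 R w))`, `w = R f`, `f = 16 z + 8`, except the loss `q` per row, which
is close to 1, and the number `K` of the dispersion property.
`8 ^ L ≤ a ^ (8 R w)`, `n p ^ (4 L) ≥ a ^ (112 R w)`, `n p ^ (5 L) ≥ a ^ (108 R w)`, `p ^ (w m0) a ^ (2 R (2 z + 1)) ≥ 1`.
-/
import Pool.Agent.H15.RD.Defs

set_option autoImplicit false

namespace Pool.Agent.H15.RD

/-- The numbers. -/
noncomputable def numd (a q e K : ℝ) (R L z n N r w : ℕ) (p : ℝ) : Num where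
  n := n
  w := w
  f := 16 * z + 8
  k := 256 * R * (z + 2)
  m0 := 4 * z + 6
  ψm := 4 * w * (16 * z + 9)
  s := 12 * L
  r := r
  No := N
  p := p
  q := q
  e := e
  K := K
  β := a ^ w
  h := a ^ (16 * R * w)
  h1 := a ^ (4 * R)
  κ0 := 8 ^ L / a ^ (8 * w * w + 16 * R * w)
  Z1 := a ^ (16 * w * w + 128 * R * w)
  G1 := a ^ (32 * R * w)
  Zg := a ^ (16 * w * w + 32 * R * w)
  Gg := a ^ (12 * R * w)
  ZS := a ^ (16 * w * w + 32 * R * w) * (2 * q ^ L) ^ R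
  GS := a ^ (12 * R * w) * (2 * q ^ L * (a ^ (4 * R)) ^ (16 * z + 8)) ^ R
  B := a ^ w

lemma Nm_a1 (R L z w : ℕ) (hw : w = R * (16 * z + 8)) (hR : 1 ≤ R) (hz : 1 ≤ z)
    (hL : 2 ^ 12 * R ^ 2 * z ^ 2 ≤ L) : 4 * w * (16 * z + 9) + 6 * w ≤ 3 * L := by
  subst hw
  obtain ⟨a, rfl⟩ := Nat.exists_eq_add_of_le hR
  obtain ⟨b, rfl⟩ := Nat.exists_eq_add_of_le hz
  obtain ⟨d, rfl⟩ := Nat.exists_eq_add_of_le hL
  ring_nf
  omega

lemma Nm_a2 (R L z w : ℕ) (hw : w = R * (16 * z + 8)) (hR : 1 ≤ R) (hz : 1 ≤ z)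
    (hL : 2 ^ 12 * R ^ 2 * z ^ 2 ≤ L) : 256 * R * (z + 2) * w ≤ 8 * L := by
  subst hw
  obtain ⟨a, rfl⟩ := Nat.exists_eq_add_of_le hR
  obtain ⟨b, rfl⟩ := Nat.exists_eq_add_of_le hz
  obtain ⟨d, rfl⟩ := Nat.exists_eq_add_of_le hL
  ring_nf
  omega

lemma Nm_a3 (R L z : ℕ) (hR : 1 ≤ R) (hz : 1 ≤ z) (hL : 2 ^ 12 * R ^ 2 * z ^ 2 ≤ L) :
    16 * z + 8 < L := by
  obtain ⟨a, rfl⟩ := Nat.exists_eq_add_of_le hR
  obtain ⟨b, rfl⟩ := Nat.exists_eq_add_of_le hz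
  obtain ⟨d, rfl⟩ := Nat.exists_eq_add_of_le hL
  ring_nf
  omega

lemma Nm_a4 (R L z w : ℕ) (hw : w = R * (16 * z + 8)) (hR : 1 ≤ R) (hz : 1 ≤ z)
    (hL : 2 ^ 12 * R ^ 2 * z ^ 2 ≤ L) : w * (4 * z + 6) * (512 * R) ≤ 48 * L := by
  subst hw
  obtain ⟨a, rfl⟩ := Nat.exists_eq_add_of_le hR
  obtain ⟨b, rfl⟩ := Nat.exists_eq_add_of_le hz
  obtain ⟨d, rfl⟩ := Nat.exists_eq_add_of_le hL
  ring_nf
  omega

lemma Nm_b0 (R z w : ℕ) (hw : w = R * (16 * z + 8)) (hR : 1 ≤ R) (hz : 1 ≤ z) :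
    24 * R ≤ w ∧ 24 ≤ w ∧ 4 * z + 6 ≤ 2 * w := by
  subst hw
  obtain ⟨a, rfl⟩ := Nat.exists_eq_add_of_le hR
  obtain ⟨b, rfl⟩ := Nat.exists_eq_add_of_le hz
  ring_nf
  omega

/-- F1 and FB -/
lemma Nm_b1 (R z w : ℕ) (hw : w = R * (16 * z + 8)) (hz : 1 ≤ z) :
    8 * R + 2 * R + 2 * R * (2 * z + 1) ≤ w := by
  subst hw
  obtain ⟨b, rfl⟩ := Nat.exists_eq_add_of_le hz
  ring_nf
  omega

/-- F2 -/
lemma Nm_b2 (R z w : ℕ) (hw : w = R * (16 * z + 8)) (hR : 1 ≤ R) (hz : 1 ≤ z) :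
    3 + 8 * R * w * 4 + (128 * R * w + 8 * R + (16 * w * w + 128 * R * w)) ≤
      w * (256 * R * (z + 2)) := by
  subst hw
  obtain ⟨a, rfl⟩ := Nat.exists_eq_add_of_le hR
  obtain ⟨b, rfl⟩ := Nat.exists_eq_add_of_le hz
  ring_nf
  omega

/-- F3 -/
lemma Nm_b3 (R z w : ℕ) (hw : w = R * (16 * z + 8)) (hR : 1 ≤ R) (hz : 1 ≤ z) :
    3 + 8 * R * w * 1 + (32 * R * w + w + 16 * R * w) ≤ 112 * R * w := by
  subst hw
  obtain ⟨a, rfl⟩ := Nat.exists_eq_add_of_le hR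
  obtain ⟨b, rfl⟩ := Nat.exists_eq_add_of_le hz
  ring_nf
  omega

/-- F4 -/
lemma Nm_b4 (R z w : ℕ) (hw : w = R * (16 * z + 8)) (hR : 1 ≤ R) (hz : 1 ≤ z) :
    3 + 8 * R * w * 4 + (16 * w * w + 128 * R * w + w * (4 * z + 6)) ≤
      112 * R * w * (4 * z + 6) := by
  subst hw
  obtain ⟨a, rfl⟩ := Nat.exists_eq_add_of_le hR
  obtain ⟨b, rfl⟩ := Nat.exists_eq_add_of_le hz
  ring_nf
  omega

/-- FU, FΨ -/
lemma Nm_b5 (R z w : ℕ) (hw : w = R * (16 * z + 8)) :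
    w * (8 * w) + (8 * w * w + 16 * R * w) = 16 * R * w * (16 * z + 8 + 1) ∧
    w * (8 * w) + (8 * w * w + 16 * R * w) = 4 * R * (4 * w * (16 * z + 9)) := by
  subst hw
  constructor <;> ring

/-- FC -/
lemma Nm_b6 (R L z w : ℕ) (hw : w = R * (16 * z + 8)) (hR : 1 ≤ R) (hz : 1 ≤ z)
    (hL : 2 ^ 12 * R ^ 2 * z ^ 2 ≤ L) :
    w * (8 * w) + (8 * w * w + 16 * R * w) ≤ 112 * R * w * (L - (16 * z + 8)) := by
  rw [(Nm_b5 R z w hw).1]
  have h1 : 16 * z + 8 + 1 ≤ L - (16 * z + 8) := by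
    obtain ⟨a, rfl⟩ := Nat.exists_eq_add_of_le hR
    obtain ⟨b, rfl⟩ := Nat.exists_eq_add_of_le hz
    obtain ⟨d, rfl⟩ := Nat.exists_eq_add_of_le hL
    ring_nf
    omega
  calc 16 * R * w * (16 * z + 8 + 1) ≤ 112 * R * w * (16 * z + 8 + 1) := by
        refine Nat.mul_le_mul_right _ ?_
        nlinarith [Nat.zero_le (R * w)]
    _ ≤ _ := Nat.mul_le_mul_left _ h1

/-- FE -/
lemma Nm_b7 (R z w : ℕ) (hw : w = R * (16 * z + 8)) (hR : 1 ≤ R) (hz : 1 ≤ z) :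
    7 + w + 256 * R * (z + 2) + 8 * R * w * 2 + (w * (8 * w) + (8 * w * w + 16 * R * w)) ≤
      w * (2 * (256 * R * (z + 2))) := by
  subst hw
  obtain ⟨a, rfl⟩ := Nat.exists_eq_add_of_le hR
  obtain ⟨b, rfl⟩ := Nat.exists_eq_add_of_le hz
  ring_nf
  omega

/-- F8 -/
lemma Nm_b8 (R z w : ℕ) (hw : w = R * (16 * z + 8)) (hR : 1 ≤ R) (hz : 1 ≤ z) :
    1 + R + 8 * R * w * 2 + (32 * R * w + 16 * R * w + w * 2) ≤ 108 * R * w := by
  subst hw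
  obtain ⟨a, rfl⟩ := Nat.exists_eq_add_of_le hR
  obtain ⟨b, rfl⟩ := Nat.exists_eq_add_of_le hz
  ring_nf
  omega

/-- F10 -/
lemma Nm_b9 (R z w : ℕ) (hw : w = R * (16 * z + 8)) (hR : 1 ≤ R) (hz : 1 ≤ z) :
    2 * R + 8 * R * w * 1 + (16 * w * w + 32 * R * w + 2 * R * R * 2) ≤
      16 * w * w + 128 * R * w := by
  subst hw
  obtain ⟨a, rfl⟩ := Nat.exists_eq_add_of_le hR
  obtain ⟨b, rfl⟩ := Nat.exists_eq_add_of_le hz
  ring_nf
  omega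

/-- F10' -/
lemma Nm_b10 (R z w : ℕ) (hw : w = R * (16 * z + 8)) (hR : 1 ≤ R) (hz : 1 ≤ z) :
    2 * R + 8 * R * w * 1 + (12 * R * w + (2 * R + 4 * R * (16 * z + 8)) * R * 2) ≤
      32 * R * w := by
  subst hw
  obtain ⟨a, rfl⟩ := Nat.exists_eq_add_of_le hR
  obtain ⟨b, rfl⟩ := Nat.exists_eq_add_of_le hz
  ring_nf
  omega

/-- last -/
lemma Nm_b11 (R z w : ℕ) (hw : w = R * (16 * z + 8)) (hR : 1 ≤ R) (hz : 1 ≤ z) :
    1 + 8 * R * w * 2 + (128 * R * w + 8 * R) * z ≤ 8 * w * w + 16 * R * w := by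
  subst hw
  obtain ⟨a, rfl⟩ := Nat.exists_eq_add_of_le hR
  obtain ⟨b, rfl⟩ := Nat.exists_eq_add_of_le hz
  ring_nf
  omega

lemma Nm_le {a : ℝ} (ha : 2 ≤ a) {L E : ℕ} (h8 : (8 : ℝ) ^ L ≤ a ^ E) {x y b c : ℕ}
    (h : x + E * y + b ≤ c) : (2 : ℝ) ^ x * (8 ^ L) ^ y * a ^ b ≤ a ^ c := by
  have ha0 : 0 < a := by linarith
  have h1 : (2 : ℝ) ^ x ≤ a ^ x := pow_le_pow_left₀ (by norm_num) ha x
  have h2 : ((8 : ℝ) ^ L) ^ y ≤ (a ^ E) ^ y := pow_le_pow_left₀ (by positivity) h8 y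
  calc (2 : ℝ) ^ x * (8 ^ L) ^ y * a ^ b ≤ a ^ x * (a ^ E) ^ y * a ^ b := by gcongr
    _ = a ^ (x + E * y + b) := by rw [← pow_mul, pow_add, pow_add]
    _ ≤ a ^ c := pow_le_pow_right₀ (by linarith) h

lemma Nm_nat (a : ℕ) : (a : ℝ) ≤ 2 ^ a := by
  exact_mod_cast (Nat.lt_two_pow_self (n := a)).le

/-- `p ^ L * a ^ (4 R w) ≥ 1`. -/
lemma Nm_p (a : ℝ) (R L w n : ℕ) (p : ℝ) (hp0 : 0 < p) (hp1 : p ≤ 1)
    (hp : 1 ≤ (n : ℝ) * p ^ (48 * L)) (ha : 2 ≤ a) (han : a ^ (128 * R * w) = n) :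
    1 ≤ p ^ L * a ^ (4 * R * w) := by
  have ha0 : 0 < a := by linarith
  by_contra hcon
  push Not at hcon
  have h1 : (p ^ L * a ^ (4 * R * w)) ^ 32 < 1 :=
    pow_lt_one₀ (by positivity) hcon (by norm_num)
  have h2 : (n : ℝ) * p ^ (32 * L) = (p ^ L * a ^ (4 * R * w)) ^ 32 := by
    rw [← han, mul_pow, ← pow_mul, ← pow_mul, mul_comm, mul_comm L 32]
    congr 2
    ring
  have h3 : p ^ (48 * L) ≤ p ^ (32 * L) := pow_le_pow_of_le_one hp0.le hp1 (by omega)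
  have h4 : (n : ℝ) * p ^ (48 * L) ≤ n * p ^ (32 * L) :=
    mul_le_mul_of_nonneg_left h3 (Nat.cast_nonneg n)
  linarith

/-- `n p ^ (j L) ≥ a ^ b`. -/
lemma Nm_np (a : ℝ) (R L w n : ℕ) (p : ℝ) (ha : 2 ≤ a)
    (han : a ^ (128 * R * w) = n) (h8 : 1 ≤ p ^ L * a ^ (4 * R * w)) (j b : ℕ)
    (hab : b + 4 * R * w * j = 128 * R * w) :
    a ^ b ≤ n * p ^ (j * L) := by
  have ha0 : 0 < a := by linarith
  have h2 : (n : ℝ) * p ^ (j * L) = a ^ b * (p ^ L * a ^ (4 * R * w)) ^ j := by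
    rw [← han, ← hab, mul_pow, ← pow_mul, ← pow_mul, pow_add, mul_comm j L]
    ring
  rw [h2]
  exact le_mul_of_one_le_right (by positivity) (one_le_pow₀ h8)

/-- The bound of `t`. -/
lemma Nm_t (a K : ℝ) (R z w m0 : ℕ) (p : ℝ) (hp0 : 0 < p) (hp1 : p ≤ 1) (hK : 1 ≤ K)
    (h : 1 ≤ p ^ (w * m0) * a ^ (2 * R * (2 * z + 1))) (g m : ℕ) (hg : g ≤ w) (hm : m ≤ m0) :
    ((⌈K / p ^ (g * m)⌉₊ : ℕ) : ℝ) ≤ 2 * K * a ^ (2 * R * (2 * z + 1)) := by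
  have hgm : 0 < p ^ (g * m) := pow_pos hp0 _
  have h0 : 0 ≤ K / p ^ (g * m) := by positivity
  have h1 := (Nat.ceil_lt_add_one h0).le
  have h2 : 1 ≤ K / p ^ (g * m) := by
    rw [le_div_iff₀ hgm]
    linarith [pow_le_one₀ (n := g * m) hp0.le hp1]
  have h3 : K / p ^ (g * m) ≤ K * a ^ (2 * R * (2 * z + 1)) := by
    rw [div_le_iff₀ hgm]
    have h4 : p ^ (w * m0) ≤ p ^ (g * m) :=
      pow_le_pow_of_le_one hp0.le hp1 (Nat.mul_le_mul hg hm)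
    have hX : 0 < a ^ (2 * R * (2 * z + 1)) := by
      by_contra hc
      push Not at hc
      have : p ^ (w * m0) * a ^ (2 * R * (2 * z + 1)) ≤ 0 :=
        mul_nonpos_of_nonneg_of_nonpos (pow_pos hp0 _).le hc
      linarith
    have h5 : 1 ≤ p ^ (g * m) * a ^ (2 * R * (2 * z + 1)) :=
      h.trans (mul_le_mul_of_nonneg_right h4 hX.le)
    calc K = K * 1 := (mul_one K).symm
      _ ≤ K * (p ^ (g * m) * a ^ (2 * R * (2 * z + 1))) := mul_le_mul_of_nonneg_left h5 (by linarith)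
      _ = _ := by ring
  linarith

/-- Multiplying out `κ0`. -/
lemma Nm_κ {A B C D : ℝ} (hD : 0 < D) (h : A * D ≤ C * B) : A ≤ C / D * B := by
  rw [div_mul_eq_mul_div, le_div_iff₀ hD]
  exact h

/-- kβ -/
lemma Nm_kβ {X : ℝ} (L m : ℕ) (hm : m ≤ 8 * L) (hX0 : 0 < X) (hX : (16 : ℝ) * L ≤ X) :
    (1 + 1 / X) ^ m ≤ 2 := by
  have h3 : 1 + 1 / X ≤ Real.exp (1 / X) := by
    have := Real.add_one_le_exp (1 / X)
    linarith
  have h4 : (1 + 1 / X) ^ m ≤ Real.exp (m * (1 / X)) := by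
    rw [Real.exp_nat_mul]
    exact pow_le_pow_left₀ (by positivity) h3 m
  refine h4.trans ?_
  have h5 : (m : ℝ) * (1 / X) ≤ 1 / 2 := by
    rw [mul_one_div, div_le_iff₀ hX0]
    have : (m : ℝ) ≤ 8 * L := by exact_mod_cast hm
    linarith
  have h6 : Real.exp (1 / 2) ≤ 2 := by
    have h7 : Real.exp (1 / 2) ^ 2 = Real.exp 1 := by
      rw [← Real.exp_nat_mul]
      norm_num
    have h8 := Real.exp_one_lt_d9
    have h9 := Real.exp_pos (1 / 2)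
    nlinarith
  exact (Real.exp_le_exp.2 h5).trans h6

theorem numd_ok (a q e K : ℝ) (R L z n N r w : ℕ) (p : ℝ) (hw : w = R * (16 * z + 8))
    (hR : 1 ≤ R) (hz : 1 ≤ z)
    (hL : 2 ^ 12 * R ^ 2 * z ^ 2 ≤ L) (hr : r ≤ L) (hp0 : 0 < p) (hp1 : p ≤ 1)
    (hp : 1 ≤ (n : ℝ) * p ^ (48 * L)) (h2L : (2 : ℝ) ^ (48 * L) ≤ n) (hN : N ≤ n * (2 * R * L))
    (ha : 2 ≤ a) (han : a ^ (128 * R * w) = n) (he : 1 < e) (heq : e ^ 2 ≤ q)
    (hqL : q ^ L ≤ a ^ (2 * R)) (hKL : (L : ℝ) ≤ K)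
    (hK : 4 * (w : ℝ) * K * e ≤ a ^ (8 * R) * (e - 1)) :
    (numd a q e K R L z n N r w p).OK R L ∧
      2 * 8 ^ L * ((N : ℝ) ^ z * (numd a q e K R L z n N r w p).κ0) ≤ 1 := by
  have ha0 : 0 < a := by linarith
  have ha1 : 1 ≤ a := by linarith
  have hL1 : 1 ≤ L := by have := Nm_a3 R L z hR hz hL; omega
  have hLr : (1 : ℝ) ≤ L := by exact_mod_cast hL1
  have hK1 : 1 ≤ K := by linarith
  obtain ⟨hw24R, hw24, hm0w⟩ := Nm_b0 R z w hw hR hz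
  have hwr : (24 : ℝ) ≤ w := by exact_mod_cast hw24
  have hwRr : (24 : ℝ) * R ≤ w := by exact_mod_cast hw24R
  have hq1 : 1 ≤ q := by nlinarith
  have hqL1 : 1 ≤ q ^ L := one_le_pow₀ hq1
  have h8 : (8 : ℝ) ^ L ≤ a ^ (8 * R * w) := by
    have h1 : ((8 : ℝ) ^ L) ^ 16 ≤ (a ^ (8 * R * w)) ^ 16 := by
      calc ((8 : ℝ) ^ L) ^ 16 = 2 ^ (48 * L) := by
            rw [show (8 : ℝ) = 2 ^ 3 by norm_num, ← pow_mul, ← pow_mul]
            congr 1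
            ring
        _ ≤ n := h2L
        _ = (a ^ (8 * R * w)) ^ 16 := by
            rw [← han, ← pow_mul]
            congr 1
            ring
    exact le_of_pow_le_pow_left₀ (by norm_num) (by positivity) h1
  have h4w : 4 * (w : ℝ) * K ≤ a ^ (8 * R) := by
    have h1 : 4 * (w : ℝ) * K * e ≤ a ^ (8 * R) * e := by
      have h2 : 0 < a ^ (8 * R) := by positivity
      nlinarith
    exact le_of_mul_le_mul_right h1 (by linarith)
  have h8L : (1 : ℝ) ≤ 8 ^ L := one_le_pow₀ (by norm_num)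
  have hpL := Nm_p a R L w n p hp0 hp1 hp ha han
  have h4 : a ^ (112 * R * w) ≤ n * p ^ (4 * L) :=
    Nm_np a R L w n p ha han hpL 4 _ (by ring)
  have h5 : a ^ (108 * R * w) ≤ n * p ^ (5 * L) :=
    Nm_np a R L w n p ha han hpL 5 _ (by ring)
  have hn0 : (0 : ℝ) < n := by rw [← han]; positivity
  have hn0' : 0 < n := by exact_mod_cast hn0
  have hpw : 1 ≤ p ^ (w * (4 * z + 6)) * a ^ (2 * R * (2 * z + 1)) := by
    by_contra hcon
    push Not at hcon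
    have h1 : (p ^ (w * (4 * z + 6)) * a ^ (2 * R * (2 * z + 1))) ^ (512 * R) < 1 :=
      pow_lt_one₀ (by positivity) hcon (by omega)
    rw [mul_pow, ← pow_mul, ← pow_mul] at h1
    have h2 : 2 * R * (2 * z + 1) * (512 * R) = 128 * R * w := by rw [hw]; ring
    rw [h2, han] at h1
    have h3 : p ^ (48 * L) ≤ p ^ (w * (4 * z + 6) * (512 * R)) :=
      pow_le_pow_of_le_one hp0.le hp1 (Nm_a4 R L z w hw hR hz hL)
    have h4 : p ^ (48 * L) * n ≤ p ^ (w * (4 * z + 6) * (512 * R)) * n :=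
      mul_le_mul_of_nonneg_right h3 hn0.le
    linarith
  have ht : ∀ g m : ℕ, g ≤ w → m ≤ 4 * z + 6 →
      (((numd a q e K R L z n N r w p).t g m : ℕ) : ℝ) ≤ 2 * K * a ^ (2 * R * (2 * z + 1)) :=
    fun g m hg hm => Nm_t a K R z w (4 * z + 6) p hp0 hp1 hK1 hpw g m hg hm
  have hY : (2 : ℝ) * R * L ≤ a ^ (8 * R) := by
    refine le_trans ?_ h4w
    have hR0 : (0 : ℝ) ≤ R := Nat.cast_nonneg R
    have h1 : (2 : ℝ) * R ≤ 4 * w := by linarith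
    exact mul_le_mul h1 hKL (by linarith) (by linarith)
  have hNr : (N : ℝ) ≤ a ^ (128 * R * w + 8 * R) := by
    calc (N : ℝ) ≤ n * (2 * R * L) := by exact_mod_cast hN
      _ ≤ n * a ^ (8 * R) := mul_le_mul_of_nonneg_left hY hn0.le
      _ = _ := by rw [← han, pow_add]
  have hD : 0 < a ^ (8 * w * w + 16 * R * w) := by positivity
  refine ⟨⟨hR, hL1, hn0', ?_, ?_, hp0, hp1, he, heq, hK1, ?_, ?_, ?_, ?_, ?_, ?_, ?_, ?_, hw, ?_, ?_, ?_,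
    ?_, ?_, ?_, ?_, ?_, ?_, ?_, ?_, ?_, ?_, ?_, ?_, ?_, ?_, ?_, ?_, ?_, ?_, ?_, ?_, ?_⟩, ?_⟩
  · -- f_pos
    show 1 ≤ 16 * z + 8
    omega
  · -- f_lt
    exact Nm_a3 R L z hR hz hL
  · -- β_ge
    show 16 ≤ a ^ w
    calc (16 : ℝ) = 2 ^ 4 := by norm_num
      _ ≤ a ^ 4 := pow_le_pow_left₀ (by norm_num) ha 4
      _ ≤ a ^ w := pow_le_pow_right₀ ha1 (by omega)
  · -- h_ge
    exact one_le_pow₀ ha1
  · -- h1_ge
    exact one_le_pow₀ ha1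
  · -- κ0_pos
    show 0 < (8 : ℝ) ^ L / _
    positivity
  · -- B_ge
    exact one_le_pow₀ ha1
  · -- Z1_ge
    exact one_le_pow₀ ha1
  · -- G1_ge
    exact one_le_pow₀ ha1
  · -- m0_pos
    show 1 ≤ 4 * z + 6
    omega
  · -- ψm_le
    exact Nm_a1 R L z w hw hR hz hL
  · -- s_ge
    show 4 * L + 256 * R * (z + 2) * w ≤ 12 * L
    have := Nm_a2 R L z w hw hR hz hL
    omega
  · -- kβ
    refine Nm_kβ L _ (Nm_a2 R L z w hw hR hz hL) (by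
      show 0 < (a ^ w) ^ 2
      positivity) ?_
    show (16 : ℝ) * L ≤ (a ^ w) ^ 2
    rw [← pow_mul]
    calc (16 : ℝ) * L ≤ 4 * w * K := by nlinarith
      _ ≤ a ^ (8 * R) := h4w
      _ ≤ _ := pow_le_pow_right₀ ha1 (by omega)
  · -- F1
    intro g m hg1 hg hm1 hm
    show 2 * (g : ℝ) * q ^ L * (((numd a q e K R L z n N r w p).t g m : ℕ) : ℝ) * e ≤
      a ^ w * (e - 1)
    have h1 := ht g m hg hm
    have hg' : (g : ℝ) ≤ w := by exact_mod_cast (show g ≤ w from hg)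
    have hg0 : (0 : ℝ) ≤ g := Nat.cast_nonneg g
    have hA : 0 ≤ a ^ (2 * R * (2 * z + 1)) := by positivity
    have hB : 0 ≤ a ^ (2 * R) := by positivity
    calc 2 * (g : ℝ) * q ^ L * (((numd a q e K R L z n N r w p).t g m : ℕ) : ℝ) * e
        ≤ 2 * (w : ℝ) * a ^ (2 * R) * (2 * K * a ^ (2 * R * (2 * z + 1))) * e := by
          refine mul_le_mul_of_nonneg_right ?_ (by linarith)
          refine mul_le_mul ?_ h1 (Nat.cast_nonneg _) (by positivity)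
          exact mul_le_mul (by linarith) hqL (by positivity) (by positivity)
      _ = (4 * (w : ℝ) * K * e) * (a ^ (2 * R) * a ^ (2 * R * (2 * z + 1))) := by ring
      _ ≤ (a ^ (8 * R) * (e - 1)) * (a ^ (2 * R) * a ^ (2 * R * (2 * z + 1))) :=
          mul_le_mul_of_nonneg_right hK (by positivity)
      _ = a ^ (8 * R + 2 * R + 2 * R * (2 * z + 1)) * (e - 1) := by
          rw [pow_add, pow_add]
          ring
      _ ≤ a ^ w * (e - 1) :=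
          mul_le_mul_of_nonneg_right (pow_le_pow_right₀ ha1 (Nm_b1 R z w hw hz)) (by linarith)
  · -- FB
    intro g m hg1 hg hm1 hm
    show (((4 * z + 6 : ℕ) : ℕ) : ℝ) * (((numd a q e K R L z n N r w p).t g m : ℕ) : ℝ) ≤ a ^ w
    have h1 := ht g m hg hm
    have h2 : ((4 * z + 6 : ℕ) : ℝ) ≤ 2 * w := by exact_mod_cast hm0w
    have hA : 0 ≤ a ^ (2 * R * (2 * z + 1)) := by positivity
    calc (((4 * z + 6 : ℕ) : ℕ) : ℝ) * (((numd a q e K R L z n N r w p).t g m : ℕ) : ℝ)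
        ≤ (2 * w) * (2 * K * a ^ (2 * R * (2 * z + 1))) :=
          mul_le_mul h2 h1 (Nat.cast_nonneg _) (by positivity)
      _ = (4 * (w : ℝ) * K) * a ^ (2 * R * (2 * z + 1)) := by ring
      _ ≤ a ^ (8 * R) * a ^ (2 * R * (2 * z + 1)) := mul_le_mul_of_nonneg_right h4w hA
      _ = a ^ (8 * R + 2 * R * (2 * z + 1)) := by rw [pow_add]
      _ ≤ a ^ w := pow_le_pow_right₀ ha1 (by have := Nm_b1 R z w hw hz; omega)
  · -- F2
    show 8 * 1024 ^ L * (N : ℝ) * a ^ (16 * w * w + 128 * R * w) ≤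
      (a ^ w) ^ (256 * R * (z + 2))
    rw [← pow_mul]
    refine le_trans ?_ (Nm_le ha h8 (Nm_b2 R z w hw hR hz))
    have h10 : (1024 : ℝ) ^ L ≤ (8 ^ L) ^ 4 := by
      rw [← pow_mul, mul_comm L 4, pow_mul]
      exact pow_le_pow_left₀ (by norm_num) (by norm_num) L
    calc 8 * 1024 ^ L * (N : ℝ) * a ^ (16 * w * w + 128 * R * w)
        ≤ 8 * (8 ^ L) ^ 4 * a ^ (128 * R * w + 8 * R) * a ^ (16 * w * w + 128 * R * w) := by
          gcongr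
      _ = _ := by
        rw [pow_add a (128 * R * w + 8 * R)]
        norm_num
        ring
  · -- F3
    show 8 * 2 ^ L * a ^ (32 * R * w) * a ^ w * a ^ (16 * R * w) ≤ n * p ^ (4 * L)
    refine le_trans ?_ h4
    refine le_trans ?_ (Nm_le ha h8 (Nm_b3 R z w hw hR hz))
    have h10 : (2 : ℝ) ^ L ≤ 8 ^ L := pow_le_pow_left₀ (by norm_num) (by norm_num) L
    calc 8 * 2 ^ L * a ^ (32 * R * w) * a ^ w * a ^ (16 * R * w)
        ≤ 8 * 8 ^ L * a ^ (32 * R * w) * a ^ w * a ^ (16 * R * w) := by gcongr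
      _ = _ := by
        rw [pow_add a, pow_add a]
        norm_num
        ring
  · -- F4
    show 8 * 1024 ^ L * a ^ (16 * w * w + 128 * R * w) * (a ^ w) ^ (4 * z + 6) ≤
      (n * p ^ (4 * L)) ^ (4 * z + 6)
    refine le_trans ?_ (pow_le_pow_left₀ (by positivity) h4 (4 * z + 6))
    rw [← pow_mul a (112 * R * w)]
    refine le_trans ?_ (Nm_le ha h8 (Nm_b4 R z w hw hR hz))
    have h10 : (1024 : ℝ) ^ L ≤ (8 ^ L) ^ 4 := by
      rw [← pow_mul, mul_comm L 4, pow_mul]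
      exact pow_le_pow_left₀ (by norm_num) (by norm_num) L
    calc 8 * 1024 ^ L * a ^ (16 * w * w + 128 * R * w) * (a ^ w) ^ (4 * z + 6)
        ≤ 8 * (8 ^ L) ^ 4 * a ^ (16 * w * w + 128 * R * w) * (a ^ w) ^ (4 * z + 6) := by gcongr
      _ = _ := by
        rw [pow_add a (16 * w * w + 128 * R * w), pow_mul a w]
        norm_num
        ring
  · -- F5
    show 2 * q ^ L ≤ a ^ (4 * R)
    calc 2 * q ^ L ≤ 2 * a ^ (2 * R) := by linarith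
      _ ≤ a ^ 1 * a ^ (2 * R) := by rw [pow_one]; gcongr
      _ = a ^ (1 + 2 * R) := by rw [pow_add]
      _ ≤ _ := pow_le_pow_right₀ ha1 (by omega)
  · -- FZ
    show 2 * (a ^ w) ^ (8 * w) * (a ^ (4 * R)) ^ w ≤
      8 ^ L / _ * a ^ (16 * w * w + 128 * R * w)
    refine Nm_κ hD ?_
    have h := Nm_le ha h8 (x := 1) (y := 0)
      (b := w * (8 * w) + 4 * R * w + (8 * w * w + 16 * R * w)) (c := 16 * w * w + 128 * R * w)
      (by nlinarith [Nat.mul_le_mul hR hw24])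
    rw [pow_zero, mul_one, pow_one, pow_add a, pow_add a, pow_mul a w, pow_mul a (4 * R)] at h
    calc _ = _ := by ring
      _ ≤ _ := h
      _ ≤ _ := le_mul_of_one_le_left (by positivity) h8L
  · -- FG
    show 8 * (a ^ (4 * R)) ^ (2 * w) ≤ a ^ (32 * R * w)
    have h := Nm_le ha h8 (x := 3) (y := 0) (b := 4 * R * (2 * w)) (c := 32 * R * w)
      (by nlinarith [Nat.mul_le_mul hR hw24])
    rw [pow_zero, mul_one, pow_mul a (4 * R)] at h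
    norm_num at h ⊢
    exact h
  · -- FZg
    show 2 * (a ^ w) ^ (8 * w) * (a ^ (4 * R)) ^ w ≤
      8 ^ L / _ * a ^ (16 * w * w + 32 * R * w)
    refine Nm_κ hD ?_
    have h := Nm_le ha h8 (x := 1) (y := 0)
      (b := w * (8 * w) + 4 * R * w + (8 * w * w + 16 * R * w)) (c := 16 * w * w + 32 * R * w)
      (by nlinarith [Nat.mul_le_mul hR hw24])
    rw [pow_zero, mul_one, pow_one, pow_add a, pow_add a, pow_mul a w, pow_mul a (4 * R)] at h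
    calc _ = _ := by ring
      _ ≤ _ := h
      _ ≤ _ := le_mul_of_one_le_left (by positivity) h8L
  · -- FGg
    show 8 * (a ^ (4 * R)) ^ (2 * w) ≤ a ^ (12 * R * w)
    have h := Nm_le ha h8 (x := 3) (y := 0) (b := 4 * R * (2 * w)) (c := 12 * R * w)
      (by nlinarith [Nat.mul_le_mul hR hw24])
    rw [pow_zero, mul_one, pow_mul a (4 * R)] at h
    norm_num at h ⊢
    exact h
  · -- FU
    show 8 ^ L * (a ^ w) ^ (8 * w) ≤ 8 ^ L / _ * (a ^ (16 * R * w)) ^ (16 * z + 8 + 1)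
    refine Nm_κ hD ?_
    rw [← pow_mul, ← pow_mul, mul_assoc, ← pow_add, (Nm_b5 R z w hw).1]
  · -- FΨ
    show 8 ^ L * (a ^ w) ^ (8 * w) ≤ 8 ^ L / _ * (a ^ (4 * R)) ^ (4 * w * (16 * z + 9))
    refine Nm_κ hD ?_
    rw [← pow_mul, ← pow_mul, mul_assoc, ← pow_add, (Nm_b5 R z w hw).2]
  · -- FC
    show (a ^ w) ^ (8 * w) ≤ 8 ^ L / _ * (n * p ^ (4 * L)) ^ (L - (16 * z + 8))
    refine Nm_κ hD ?_
    rw [← pow_mul, ← pow_add]
    refine le_trans (pow_le_pow_right₀ ha1 (Nm_b6 R L z w hw hR hz hL)) ?_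
    rw [pow_mul a]
    refine le_trans (pow_le_pow_left₀ (by positivity) h4 (L - (16 * z + 8))) ?_
    exact le_mul_of_one_le_left (by positivity) h8L
  · -- FE
    show 100 * (w : ℝ) * 512 ^ L * 2 ^ (256 * R * (z + 2)) * (a ^ w) ^ (8 * w) ≤
      8 ^ L / _ * (a ^ w) ^ (2 * (256 * R * (z + 2)))
    refine Nm_κ hD ?_
    have h := Nm_le ha h8 (Nm_b7 R z w hw hR hz)
    rw [← pow_mul a w (2 * (256 * R * (z + 2))), ← pow_mul a w (8 * w)]
    refine le_trans ?_ (mul_le_mul_of_nonneg_left h (by positivity : (0 : ℝ) ≤ 8 ^ L))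
    rw [pow_add (2 : ℝ), pow_add (2 : ℝ), pow_add a (w * (8 * w))]
    have hA : (w : ℝ) ≤ 2 ^ w := Nm_nat _
    have hB : (512 : ℝ) ^ L = 8 ^ L * (8 ^ L) ^ 2 := by
      rw [← pow_mul, mul_comm L 2, pow_mul, ← mul_pow]
      norm_num
    rw [hB]
    calc 100 * (w : ℝ) * (8 ^ L * (8 ^ L) ^ 2) * 2 ^ (256 * R * (z + 2)) *
        a ^ (w * (8 * w)) * a ^ (8 * w * w + 16 * R * w)
        ≤ 2 ^ 7 * 2 ^ w * (8 ^ L * (8 ^ L) ^ 2) * 2 ^ (256 * R * (z + 2)) *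
        a ^ (w * (8 * w)) * a ^ (8 * w * w + 16 * R * w) := by
          gcongr
          norm_num
      _ = _ := by ring
  · -- F8
    show 2 * (R : ℝ) * 16 ^ L * a ^ (32 * R * w) * a ^ (16 * R * w) * (a ^ w) ^ 2 ≤
      n * p ^ (5 * L)
    refine le_trans ?_ h5
    refine le_trans ?_ (Nm_le ha h8 (Nm_b8 R z w hw hR hz))
    have hA : (R : ℝ) ≤ 2 ^ R := Nm_nat _
    have hB : (16 : ℝ) ^ L ≤ (8 ^ L) ^ 2 := by
      rw [← pow_mul, mul_comm L 2, pow_mul]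
      exact pow_le_pow_left₀ (by norm_num) (by norm_num) L
    rw [pow_add (2 : ℝ), pow_add a, pow_add a, pow_mul a w 2]
    calc 2 * (R : ℝ) * 16 ^ L * a ^ (32 * R * w) * a ^ (16 * R * w) * (a ^ w) ^ 2
        ≤ 2 * (2 ^ R) * (8 ^ L) ^ 2 * a ^ (32 * R * w) * a ^ (16 * R * w) * (a ^ w) ^ 2 := by gcongr
      _ = _ := by
        rw [pow_one]
        ring
  · -- F9
    exact le_rfl
  · -- F9'
    exact le_rfl
  · -- F10
    show a ^ (16 * w * w + 32 * R * w) * (2 * q ^ L) ^ R * 2 ^ r * (2 * q ^ L) ^ R ≤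
      a ^ (16 * w * w + 128 * R * w)
    refine le_trans ?_ (Nm_le ha h8 (Nm_b9 R z w hw hR hz))
    have h10 : (2 : ℝ) ^ r ≤ 8 ^ L :=
      (pow_le_pow_right₀ (by norm_num) hr).trans (pow_le_pow_left₀ (by norm_num) (by norm_num) L)
    have h11 : (2 * q ^ L) ^ R ≤ 2 ^ R * a ^ (2 * R * R) := by
      rw [pow_mul a (2 * R), ← mul_pow]
      exact pow_le_pow_left₀ (by positivity) (by linarith) R
    calc a ^ (16 * w * w + 32 * R * w) * (2 * q ^ L) ^ R * 2 ^ r * (2 * q ^ L) ^ R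
        ≤ a ^ (16 * w * w + 32 * R * w) * (2 ^ R * a ^ (2 * R * R)) * 8 ^ L *
          (2 ^ R * a ^ (2 * R * R)) := by gcongr
      _ = _ := by
        rw [pow_one, pow_add a (16 * w * w + 32 * R * w), pow_mul a (2 * R * R) 2,
          show 2 * R = R + R by ring, pow_add (2 : ℝ)]
        ring
  · -- F10'
    show a ^ (12 * R * w) * (2 * q ^ L * (a ^ (4 * R)) ^ (16 * z + 8)) ^ R * 2 ^ r *
      (2 * q ^ L * (a ^ (4 * R)) ^ (16 * z + 8)) ^ R ≤ a ^ (32 * R * w)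
    refine le_trans ?_ (Nm_le ha h8 (Nm_b10 R z w hw hR hz))
    have h10 : (2 : ℝ) ^ r ≤ 8 ^ L :=
      (pow_le_pow_right₀ (by norm_num) hr).trans (pow_le_pow_left₀ (by norm_num) (by norm_num) L)
    have h11 : (2 * q ^ L * (a ^ (4 * R)) ^ (16 * z + 8)) ^ R ≤
        2 ^ R * a ^ ((2 * R + 4 * R * (16 * z + 8)) * R) := by
      rw [pow_mul a (2 * R + 4 * R * (16 * z + 8)), ← mul_pow, pow_add a (2 * R),
        pow_mul a (4 * R), ← mul_assoc]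
      refine pow_le_pow_left₀ (by positivity) ?_ R
      exact mul_le_mul_of_nonneg_right (by linarith) (by positivity)
    calc a ^ (12 * R * w) * (2 * q ^ L * (a ^ (4 * R)) ^ (16 * z + 8)) ^ R * 2 ^ r *
        (2 * q ^ L * (a ^ (4 * R)) ^ (16 * z + 8)) ^ R
        ≤ a ^ (12 * R * w) * (2 ^ R * a ^ ((2 * R + 4 * R * (16 * z + 8)) * R)) * 8 ^ L *
          (2 ^ R * a ^ ((2 * R + 4 * R * (16 * z + 8)) * R)) := by gcongr
      _ = _ := by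
        rw [pow_one, pow_add a (12 * R * w), pow_mul a ((2 * R + 4 * R * (16 * z + 8)) * R) 2]
        rw [show (2 : ℝ) ^ (2 * R) = 2 ^ R * 2 ^ R by rw [← pow_add]; congr 1; ring]
        ring
  · -- F12
    show 2 * 8 ^ L ≤ a ^ (16 * w * w + 32 * R * w) * (2 * q ^ L) ^ R
    have hB : (1 : ℝ) ≤ (2 * q ^ L) ^ R := one_le_pow₀ (by linarith)
    have hC := Nm_le ha h8 (x := 1) (y := 1) (b := 0) (c := 16 * w * w + 32 * R * w)
      (by nlinarith [Nat.mul_le_mul hR hw24])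
    rw [pow_zero, mul_one, pow_one, pow_one] at hC
    exact hC.trans (le_mul_of_one_le_right (by positivity) hB)
  · -- F12'
    show 2 * 64 ^ L ≤ a ^ (12 * R * w) * (2 * q ^ L * (a ^ (4 * R)) ^ (16 * z + 8)) ^ R
    have hB : 2 * a ^ (4 * R * w) ≤ (2 * q ^ L * (a ^ (4 * R)) ^ (16 * z + 8)) ^ R := by
      have h1 : (2 : ℝ) ≤ 2 ^ R := le_self_pow₀ (by norm_num) (by omega)
      have h2 : 2 * (a ^ (4 * R)) ^ (16 * z + 8) ≤ 2 * q ^ L * (a ^ (4 * R)) ^ (16 * z + 8) :=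
        mul_le_mul_of_nonneg_right (by linarith) (by positivity)
      refine le_trans ?_ (pow_le_pow_left₀ (by positivity) h2 R)
      rw [mul_pow, ← pow_mul, ← pow_mul]
      have h3 : 4 * R * ((16 * z + 8) * R) = 4 * R * w := by rw [hw]; ring
      rw [h3]
      exact mul_le_mul_of_nonneg_right h1 (by positivity)
    have hC := Nm_le ha h8 (x := 0) (y := 2) (b := 0) (c := 12 * R * w + 4 * R * w)
      (le_of_eq (by ring))
    rw [pow_zero, pow_zero, mul_one, one_mul, pow_add] at hC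
    have hE : (64 : ℝ) ^ L = (8 ^ L) ^ 2 := by
      rw [← pow_mul, mul_comm L 2, pow_mul]
      norm_num
    rw [hE]
    calc 2 * ((8 : ℝ) ^ L) ^ 2 ≤ 2 * (a ^ (12 * R * w) * a ^ (4 * R * w)) := by linarith
      _ = a ^ (12 * R * w) * (2 * a ^ (4 * R * w)) := by ring
      _ ≤ _ := mul_le_mul_of_nonneg_left hB (by positivity)
  · -- last
    show 2 * 8 ^ L * ((N : ℝ) ^ z * (8 ^ L / a ^ (8 * w * w + 16 * R * w))) ≤ 1
    have h := Nm_le ha h8 (Nm_b11 R z w hw hR hz)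
    have hNz : (N : ℝ) ^ z ≤ a ^ ((128 * R * w + 8 * R) * z) := by
      rw [pow_mul]
      exact pow_le_pow_left₀ (by positivity) hNr z
    have hE : 2 * 8 ^ L * ((N : ℝ) ^ z * (8 ^ L / a ^ (8 * w * w + 16 * R * w))) =
      2 * (8 ^ L) ^ 2 * (N : ℝ) ^ z / a ^ (8 * w * w + 16 * R * w) := by
      ring
    rw [hE, div_le_one hD]
    calc 2 * (8 ^ L) ^ 2 * (N : ℝ) ^ z ≤
        2 * (8 ^ L) ^ 2 * a ^ ((128 * R * w + 8 * R) * z) := by gcongr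
      _ = 2 ^ 1 * (8 ^ L) ^ 2 * a ^ ((128 * R * w + 8 * R) * z) := by rw [pow_one]
      _ ≤ _ := h

end Pool.Agent.H15.RD
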