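/-
The numbers of the final theorem. `R = 64 c`, `L = k / R + 1`, `n = N / (R L)`, `w = R (16 z + 8)`, `x = k / c`, `λ = log N`.
`x ≥ 2^30 (c z)²`, `x log 2 ≤ λ`, `4 k ≤ x²`, so `log (4 k) ≤ λ / 1024` and `log n ≥ (1 - 1/1024) λ`;
`64 L log 2 ≤ λ + 64`, so `2 ^ (48 L) ≤ n` and `32 L ≤ log n`.
-/
import Mathlib

set_option autoImplicit false

namespace Pool.Agent.H15.RD

theorem Nq_nat (c z k N R L n : ℕ) (hc : 1 ≤ c) (hz : 1 ≤ z)
    (hk : 2 ^ 30 * c ^ 3 * z ^ 2 ≤ k) (hR : R = 64 * c) (hL : L = k / R + 1)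
    (hn : n = N / (R * L)) :
    n * (R * L) ≤ N ∧ k < R * L ∧ R * L ≤ k + R ∧ 2 ^ 12 * R ^ 2 * z ^ 2 ≤ L ∧
      N < (n + 1) * (R * L) ∧ 1 ≤ L := by
  have hRpos : 0 < R := by omega
  have hRL1 : k < R * L := by
    rw [hL]
    exact Nat.lt_mul_div_succ k hRpos
  have hRL2 : R * L ≤ k + R := by
    rw [hL, mul_add, mul_one]
    exact Nat.add_le_add_right (Nat.mul_div_le k R) R
  have hLpos : 1 ≤ L := by rw [hL]; exact Nat.le_add_left 1 _
  have hRLpos : 0 < R * L := Nat.mul_pos hRpos hLpos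
  have c3 : 2 ^ 12 * R ^ 2 * z ^ 2 ≤ L := by
    rw [hL]
    refine le_trans ?_ (Nat.le_succ _)
    rw [Nat.le_div_iff_mul_le hRpos]
    refine le_trans (le_of_eq ?_) hk
    rw [hR]; ring
  refine ⟨?_, hRL1, hRL2, c3, ?_, hLpos⟩
  · rw [hn]; exact Nat.div_mul_le_self N (R * L)
  · have h1 : N < (R * L) * (N / (R * L) + 1) := Nat.lt_mul_div_succ N hRLpos
    rw [← hn] at h1
    rw [mul_comm]
    exact h1

/-- The real inequalities. -/
theorem Nq_real (c z k N R L n : ℕ) (hc : 1 ≤ c) (hz : 1 ≤ z)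
    (hk : 2 ^ 30 * c ^ 3 * z ^ 2 ≤ k) (hN : 2 ^ k ≤ N ^ c) (hR : R = 64 * c)
    (hRL1 : k < R * L) (hRL2 : R * L ≤ k + R) (hNn : N < (n + 1) * (R * L)) (hL : 1 ≤ L) :
    1 ≤ n ∧ (2 : ℝ) ^ 29 * ((c : ℝ) * z) ^ 2 ≤ Real.log N ∧ (k : ℝ) ≤ N ∧
      (1 - 1 / 1024) * Real.log N ≤ Real.log n ∧
      64 * (c : ℝ) * L ≤ (1 + 1 / 1024) * k ∧ 44 * (L : ℝ) ≤ (1 + 1 / 1024) * Real.log N := by
  have hcr : (1 : ℝ) ≤ c := by exact_mod_cast hc
  have hzr : (1 : ℝ) ≤ z := by exact_mod_cast hz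
  have hc0 : (0 : ℝ) < c := by linarith
  have hkr : (2 : ℝ) ^ 30 * c ^ 3 * z ^ 2 ≤ k := by exact_mod_cast hk
  have hcz : (1 : ℝ) ≤ (c : ℝ) * z := one_le_mul_of_one_le_of_one_le hcr hzr
  obtain ⟨lam, hlam⟩ : ∃ lam : ℝ, lam = Real.log N := ⟨_, rfl⟩
  obtain ⟨x, hx⟩ : ∃ x : ℝ, x = k / c := ⟨_, rfl⟩
  have hkx : (k : ℝ) = c * x := by rw [hx]; field_simp
  have hx1 : (2 : ℝ) ^ 30 * ((c : ℝ) * z) ^ 2 ≤ x := by
    rw [hx, le_div_iff₀ hc0]
    calc (2 : ℝ) ^ 30 * ((c : ℝ) * z) ^ 2 * (c : ℝ) = 2 ^ 30 * (c : ℝ) ^ 3 * (z : ℝ) ^ 2 := by ring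
      _ ≤ (k : ℝ) := hkr
  have hcz2 : (1 : ℝ) ≤ ((c : ℝ) * z) ^ 2 := one_le_pow₀ hcz
  have hx30 : (2 : ℝ) ^ 30 ≤ x := by linarith
  have hx0 : 0 < x := by linarith
  have hk0 : 0 < k := by
    have : (0 : ℝ) < k := by rw [hkx]; positivity
    exact_mod_cast this
  have hN0 : 0 < N := by
    rcases Nat.eq_zero_or_pos N with h0 | h0
    · rw [h0, zero_pow (by omega)] at hN
      have : 0 < 2 ^ k := by positivity
      omega
    · exact h0
  have hNr : (0 : ℝ) < N := by exact_mod_cast hN0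
  -- x log 2 ≤ lam
  have hA : x * Real.log 2 ≤ lam := by
    have h1 : ((2 : ℝ)) ^ k ≤ (N : ℝ) ^ c := by exact_mod_cast hN
    have h2 := Real.log_le_log (by positivity) h1
    rw [Real.log_pow, Real.log_pow, ← hlam, hkx] at h2
    have h3 : (c : ℝ) * (x * Real.log 2) ≤ c * lam := by linarith
    exact le_of_mul_le_mul_left h3 hc0
  have hlog2 := Real.log_two_gt_d9
  have hlog2' := Real.log_two_lt_d9
  have hlamx : x / 2 ≤ lam := by
    have h1 : x * (1 / 2) ≤ x * Real.log 2 := mul_le_mul_of_nonneg_left (by linarith) hx0.le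
    linarith
  have hlam29 : (2 : ℝ) ^ 29 ≤ lam := by linarith
  -- log (4 k)
  have h4k : Real.log (4 * k) ≤ lam / 4096 := by
    have h1 : 4 * (k : ℝ) ≤ x ^ 2 := by
      have h2 : (c : ℝ) ≤ ((c : ℝ) * z) ^ 2 :=
        (le_mul_of_one_le_right hc0.le hzr).trans (le_self_pow₀ hcz (by norm_num))
      have h3 : 4 * (c : ℝ) ≤ x := by linarith
      calc 4 * (k : ℝ) = (4 * c) * x := by rw [hkx]; ring
        _ ≤ x * x := mul_le_mul_of_nonneg_right h3 hx0.le
        _ = x ^ 2 := by ring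
    have h2 : Real.log (4 * k) ≤ 2 * Real.log x := by
      have h3 := Real.log_le_log (by positivity) h1
      rw [Real.log_pow] at h3
      exact_mod_cast h3
    have h3 : Real.log x ≤ 2 * Real.sqrt x := by
      have h4 := Real.log_le_sub_one_of_pos (Real.sqrt_pos.2 hx0)
      rw [Real.log_sqrt hx0.le] at h4
      linarith
    have h4 : (2 : ℝ) ^ 15 ≤ Real.sqrt x := by
      apply Real.le_sqrt_of_sq_le
      rw [← pow_mul]
      exact hx30
    have h5 : (2 : ℝ) ^ 15 * Real.sqrt x ≤ x := by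
      calc (2 : ℝ) ^ 15 * Real.sqrt x ≤ Real.sqrt x * Real.sqrt x :=
            mul_le_mul_of_nonneg_right h4 (Real.sqrt_nonneg x)
        _ = x := Real.mul_self_sqrt hx0.le
    have h6 : Real.sqrt x ≤ x / 2 ^ 15 := by
      rw [le_div_iff₀ (by positivity)]
      linarith
    have h7 : Real.log (4 * k) ≤ 4 * (x / 2 ^ 15) := by linarith
    have h8 : 4 * (x / 2 ^ 15) ≤ (x / 2) / 4096 := by
      have h9 : 4 * (x / 2 ^ 15) = (x / 2) / 4096 := by
        field_simp
        norm_num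
      exact h9.le
    linarith
  have hkr0 : (0 : ℝ) < k := by exact_mod_cast hk0
  have hkN : (k : ℝ) ≤ N := by
    have h1 : Real.log k ≤ Real.log (4 * k) := Real.log_le_log hkr0 (by linarith)
    have h2 : Real.log k ≤ Real.log N := by rw [← hlam]; linarith
    exact (Real.log_le_log_iff hkr0 hNr).1 h2
  -- R L ≤ 2 k
  have hRk : R ≤ k := by
    have h1 : (64 : ℝ) * c ≤ k := by
      rw [hkx, mul_comm (64 : ℝ)]
      exact mul_le_mul_of_nonneg_left (by linarith) hc0.le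
    have h2 : 64 * c ≤ k := by exact_mod_cast h1
    omega
  have hRLk : R * L ≤ 2 * k := by omega
  have hn1 : 1 ≤ n := by
    by_contra hcon
    have h0 : n = 0 := by omega
    rw [h0, zero_add, one_mul] at hNn
    have h1 : N ≤ 2 * k := by omega
    have h2 : (N : ℝ) ≤ 4 * k := by
      have : (N : ℝ) ≤ 2 * k := by exact_mod_cast h1
      linarith
    have h3 := Real.log_le_log hNr h2
    rw [← hlam] at h3
    linarith
  have hn0 : (0 : ℝ) < n := by exact_mod_cast hn1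
  have hNn4 : (N : ℝ) ≤ 4 * k * n := by
    have h1 : N ≤ 4 * k * n := by
      have h2 : N ≤ (n + 1) * (2 * k) := hNn.le.trans (Nat.mul_le_mul_left _ hRLk)
      have h3 : (n + 1) * (2 * k) ≤ (n + n) * (2 * k) := Nat.mul_le_mul_right _ (by omega)
      have h4 : (n + n) * (2 * k) = 4 * k * n := by ring
      omega
    exact_mod_cast h1
  have hlogn : (1 - 1 / 1024) * lam ≤ Real.log n := by
    have h1 := Real.log_le_log hNr hNn4
    rw [Real.log_mul (by positivity) (by positivity), ← hlam] at h1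
    have h2 : 0 ≤ lam := by linarith
    linarith
  -- L
  have hcL : 64 * (c : ℝ) * L ≤ k + 64 * c := by
    have h1 : 64 * c * L ≤ k + 64 * c := by rw [← hR]; exact hRL2
    exact_mod_cast h1
  have h64c : 64 * (c : ℝ) ≤ k / 1024 := by
    rw [le_div_iff₀ (by norm_num), hkx]
    calc 64 * (c : ℝ) * 1024 = c * 65536 := by ring
      _ ≤ c * x := mul_le_mul_of_nonneg_left (by linarith) hc0.le
  have hLl : 44 * (L : ℝ) ≤ (1 + 1 / 1024) * lam := by
    have h1 : 64 * (L : ℝ) ≤ (1 + 1 / 1024) * x := by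
      have h2 : (c : ℝ) * (64 * L) ≤ c * ((1 + 1 / 1024) * x) := by
        calc (c : ℝ) * (64 * L) = 64 * c * L := by ring
          _ ≤ k + 64 * c := hcL
          _ ≤ (1 + 1 / 1024) * k := by linarith
          _ = c * ((1 + 1 / 1024) * x) := by rw [hkx]; ring
      exact le_of_mul_le_mul_left h2 hc0
    have h3 : 11 / 16 * x ≤ lam := by
      have h4 : x * (11 / 16) ≤ x * Real.log 2 := mul_le_mul_of_nonneg_left (by linarith) hx0.le
      linarith
    linarith
  refine ⟨hn1, ?_, hkN, ?_, by linarith, ?_⟩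
  · rw [← hlam]
    linarith
  · rw [← hlam]
    exact hlogn
  · rw [← hlam]
    exact hLl

theorem nqd (c z k N R L n w : ℕ) (p : ℝ) (hc : 1 ≤ c) (hz : 1 ≤ z)
    (hk : 2 ^ 30 * c ^ 3 * z ^ 2 ≤ k) (hN : 2 ^ k ≤ N ^ c)
    (hp : (N : ℝ) ^ (-(c : ℝ) / k) ≤ p) (hR : R = 64 * c) (hL : L = k / R + 1)
    (hn : n = N / (R * L)) (hw : w = R * (16 * z + 8)) :
    n * (R * L) ≤ N ∧ k ≤ R * L ∧ 2 ^ 12 * R ^ 2 * z ^ 2 ≤ L ∧ 1 ≤ (n : ℝ) * p ^ (48 * L) ∧
      (2 : ℝ) ^ (48 * L) ≤ n ∧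
      N ≤ n * (2 * R * L) ∧ 96 * (L + 1) * Real.log (N + 1) ≤ Real.sqrt n ∧
      4 * (R * (4 * z + 6) * w) ≤ N ∧ ∃ a e K : ℝ, 2 ≤ a ∧
      a ^ (128 * R * w) = n ∧ 1 < e ∧ (e ^ 2) ^ L ≤ a ^ (2 * R) ∧ (L : ℝ) ≤ K ∧
      4 * (w : ℝ) * K * e ≤ a ^ (8 * R) * (e - 1) ∧
      4 * ((L + (w : ℝ) + 3) * Real.log N + L) ≤ (1 - 1 / e) ^ 2 * K := by
  obtain ⟨h1, h2, h3, h4, h5, h6⟩ := Nq_nat c z k N R L n hc hz hk hR hL hn
  obtain ⟨g1, g2, g3, g4, g5, g6⟩ := Nq_real c z k N R L n hc hz hk hN hR h2 h3 h5 h6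
  have hcr : (1 : ℝ) ≤ c := by exact_mod_cast hc
  have hzr : (1 : ℝ) ≤ z := by exact_mod_cast hz
  have hc0 : (0 : ℝ) < c := by linarith
  have hcz : (1 : ℝ) ≤ (c : ℝ) * z := one_le_mul_of_one_le_of_one_le hcr hzr
  have hcz2 : (1 : ℝ) ≤ ((c : ℝ) * z) ^ 2 := one_le_pow₀ hcz
  obtain ⟨lam, hlam⟩ : ∃ lam : ℝ, lam = Real.log N := ⟨_, rfl⟩
  rw [← hlam] at g2 g4 g6
  have hlam29 : (2 : ℝ) ^ 29 ≤ lam := by linarith
  have hlam0 : 0 < lam := by linarith
  have hLr : (1 : ℝ) ≤ L := by exact_mod_cast h6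
  have hnr : (1 : ℝ) ≤ n := by exact_mod_cast g1
  have hn0 : (0 : ℝ) < n := by linarith
  have hN0 : (0 : ℝ) < N := by
    rcases Nat.eq_zero_or_pos N with h0 | h0
    · rw [h0, Nat.cast_zero, Real.log_zero] at hlam
      linarith
    · exact_mod_cast h0
  have hN1 : (1 : ℝ) ≤ N := by
    have : 1 ≤ N := by exact_mod_cast hN0
    exact_mod_cast this
  have hk0 : (0 : ℝ) < k := by
    have : 0 < k := lt_of_lt_of_le (by positivity) hk
    exact_mod_cast this
  have hwr : (w : ℝ) = 64 * (c * (16 * z + 8)) := by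
    rw [hw, hR]
    push_cast
    ring
  have hw24 : (1536 : ℝ) ≤ w := by
    have h7 : (24 : ℝ) ≤ 16 * z + 8 := by linarith
    have h8 : (1 : ℝ) * 24 ≤ c * (16 * z + 8) := mul_le_mul hcr h7 (by norm_num) hc0.le
    rw [hwr]
    linarith
  have hw0 : (0 : ℝ) < w := by linarith
  have hwle : (w : ℝ) ≤ 1536 * ((c : ℝ) * z) := by
    have h7 : (c : ℝ) * (16 * z + 8) ≤ c * (24 * z) := mul_le_mul_of_nonneg_left (by linarith) hc0.le
    rw [hwr]
    linarith
  have hw2 : 128 * (w : ℝ) ^ 2 ≤ lam := by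
    have h7 : (w : ℝ) ^ 2 ≤ (1536 * ((c : ℝ) * z)) ^ 2 := pow_le_pow_left₀ hw0.le hwle 2
    have h8 : (1536 * ((c : ℝ) * z)) ^ 2 = 2359296 * ((c : ℝ) * z) ^ 2 := by ring
    rw [h8] at h7
    linarith
  obtain ⟨ln, hln⟩ : ∃ ln : ℝ, ln = Real.log n := ⟨_, rfl⟩
  rw [← hln] at g4
  have hexpn : Real.exp ln = n := by rw [hln, Real.exp_log hn0]
  have hlog2' := Real.log_two_lt_d9
  have hlog2 := Real.log_two_gt_d9
  refine ⟨h1, h2.le, h4, ?_, ?_, ?_, ?_, ?_, ?_⟩
  · -- 1 ≤ n p^(48 L)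
    have hp0 : 0 < (N : ℝ) ^ (-(c : ℝ) / k) := Real.rpow_pos_of_pos hN0 _
    have e1 : ((N : ℝ) ^ (-(c : ℝ) / k)) ^ (48 * L) ≤ p ^ (48 * L) :=
      pow_le_pow_left₀ hp0.le hp _
    have e2 : ((N : ℝ) ^ (-(c : ℝ) / k)) ^ (48 * L) = Real.exp (-(48 * L * c / k * lam)) := by
      rw [← Real.rpow_natCast, ← Real.rpow_mul hN0.le, Real.rpow_def_of_pos hN0, ← hlam]
      congr 1
      push_cast
      field_simp
    have e3 : 48 * (L : ℝ) * c / k ≤ 7 / 8 := by
      rw [div_le_iff₀ hk0]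
      linarith
    have e4 : 48 * (L : ℝ) * c / k * lam ≤ 7 / 8 * lam := mul_le_mul_of_nonneg_right e3 hlam0.le
    have e5 : Real.exp (-(48 * L * c / k * lam)) ≤ p ^ (48 * L) := by rw [← e2]; exact e1
    calc (1 : ℝ) = Real.exp 0 := Real.exp_zero.symm
      _ ≤ Real.exp (ln + -(48 * L * c / k * lam)) := Real.exp_le_exp.2 (by linarith)
      _ = n * Real.exp (-(48 * L * c / k * lam)) := by rw [Real.exp_add, hexpn]
      _ ≤ n * p ^ (48 * L) := mul_le_mul_of_nonneg_left e5 hn0.le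
  · -- 2^(48 L) ≤ n
    have e1 : (2 : ℝ) ^ (48 * L) = Real.exp (48 * L * Real.log 2) := by
      rw [← Real.rpow_natCast, Real.rpow_def_of_pos (by norm_num)]
      congr 1
      push_cast
      ring
    rw [e1, ← hexpn]
    refine Real.exp_le_exp.2 ?_
    have e2 : 48 * (L : ℝ) * Real.log 2 ≤ 48 * L * (17 / 24) :=
      mul_le_mul_of_nonneg_left (by linarith) (by linarith)
    linarith
  · -- N ≤ n (2 R L)
    have e1 : (n + 1) * (R * L) ≤ (n + n) * (R * L) := Nat.mul_le_mul_right _ (by omega)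
    have e2 : (n + n) * (R * L) = n * (2 * R * L) := by ring
    omega
  · -- 96 (L+1) log (N+1) ≤ √n
    have e1 : Real.log (N + 1) ≤ 2 * lam := by
      have e2 : (N : ℝ) + 1 ≤ (N : ℝ) ^ 2 := by
        have e3 : (2 : ℝ) ≤ N := by
          have e4 : (1 : ℝ) + lam ≤ N := by
            have := Real.add_one_le_exp lam
            rw [hlam, Real.exp_log hN0, ← hlam] at this
            linarith
          linarith
        calc (N : ℝ) + 1 ≤ 2 * N := by linarith
          _ ≤ N * N := mul_le_mul_of_nonneg_right e3 hN0.le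
          _ = (N : ℝ) ^ 2 := by ring
      have e4 := Real.log_le_log (by positivity) e2
      rw [Real.log_pow, ← hlam] at e4
      exact_mod_cast e4
    have e2 : Real.sqrt n = Real.exp (ln / 2) := by
      rw [Real.exp_half, hexpn]
    rw [e2]
    obtain ⟨y, hy⟩ : ∃ y : ℝ, y = ln / 2 := ⟨_, rfl⟩
    rw [← hy]
    have hy0 : 0 ≤ y := by linarith
    have hyl : lam / 3 ≤ y := by linarith
    have e3 := Real.pow_div_factorial_le_exp y hy0 3
    have e4 : ((3 : ℕ).factorial : ℝ) = 6 := by norm_num [Nat.factorial]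
    rw [e4] at e3
    have e5 : (L : ℝ) + 1 ≤ lam := by linarith
    have e6 : (lam / 3) ^ 3 ≤ y ^ 3 := pow_le_pow_left₀ (by positivity) hyl 3
    calc 96 * ((L : ℝ) + 1) * Real.log (N + 1) ≤ 96 * lam * (2 * lam) := by
          have e7 : 0 ≤ Real.log ((N : ℝ) + 1) := Real.log_nonneg (by linarith)
          exact mul_le_mul (by linarith) e1 e7 (by positivity)
      _ = 192 * lam ^ 2 := by ring
      _ ≤ (lam / 3) ^ 3 / 6 := by
          have e8 : (lam / 3) ^ 3 / 6 = lam ^ 2 * (lam / 162) := by ring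
          rw [e8]
          have e9 : (192 : ℝ) ≤ lam / 162 := by linarith
          have e10 : 0 ≤ lam ^ 2 := by positivity
          have e11 := mul_le_mul_of_nonneg_left e9 e10
          linarith
      _ ≤ y ^ 3 / 6 := by linarith
      _ ≤ Real.exp y := e3
  · -- 4 R (4z+6) w ≤ N
    have e1 : ((4 * (R * (4 * z + 6) * w) : ℕ) : ℝ) ≤ N := by
      refine le_trans ?_ g3
      have e2 : ((4 * (R * (4 * z + 6) * w) : ℕ) : ℝ) = 256 * (c * (4 * z + 6)) * w := by
        rw [hR]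
        push_cast
        ring
      rw [e2]
      have e3 : (c : ℝ) * (4 * z + 6) ≤ 10 * (c * z) := by
        have e3' : (c : ℝ) * (4 * z + 6) ≤ c * (10 * z) :=
          mul_le_mul_of_nonneg_left (by linarith) hc0.le
        linarith
      have e4 : 256 * ((c : ℝ) * (4 * z + 6)) * w ≤ 256 * (10 * (c * z)) * (1536 * (c * z)) := by
        refine mul_le_mul (by linarith) hwle hw0.le (by positivity)
      have hkr : (2 : ℝ) ^ 30 * c ^ 3 * z ^ 2 ≤ k := by exact_mod_cast hk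
      have e5 : (2 : ℝ) ^ 30 * ((c : ℝ) * z) ^ 2 ≤ 2 ^ 30 * c ^ 3 * z ^ 2 := by
        have e6 : ((c : ℝ) * z) ^ 2 ≤ c ^ 3 * z ^ 2 := by
          have e7 : (c : ℝ) ^ 2 ≤ c ^ 3 := pow_le_pow_right₀ hcr (by norm_num)
          have e8 : (0 : ℝ) ≤ (z : ℝ) ^ 2 := by positivity
          calc ((c : ℝ) * z) ^ 2 = (c : ℝ) ^ 2 * (z : ℝ) ^ 2 := by ring
            _ ≤ (c : ℝ) ^ 3 * (z : ℝ) ^ 2 := mul_le_mul_of_nonneg_right e7 e8
        linarith
      have e9 : 256 * (10 * ((c : ℝ) * z)) * (1536 * (c * z)) = 3932160 * ((c : ℝ) * z) ^ 2 := by ring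
      rw [e9] at e4
      linarith
    exact_mod_cast e1
  · -- the numbers a, e, K
    have hRw0 : (0 : ℝ) < 128 * R * w := by
      rw [hR]
      push_cast
      positivity
    have hRr : (R : ℝ) = 64 * c := by rw [hR]; push_cast; ring
    obtain ⟨E, hE⟩ : ∃ E : ℝ, E = 128 * R * w := ⟨_, rfl⟩
    rw [← hE] at hRw0
    have hapow : ∀ j : ℕ, (Real.exp (ln / E)) ^ j = Real.exp (j * (ln / E)) := by
      intro j
      rw [← Real.exp_nat_mul]
    have hln32 : 32 * (L : ℝ) ≤ ln := by linarith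
    have hlnlam : lam / 2 ≤ ln := by linarith
    obtain ⟨K, hK⟩ : ∃ K : ℝ, K = 4 * (4 * w + 1) ^ 2 * ((L + (w : ℝ) + 3) * lam + L) := ⟨_, rfl⟩
    have hA0 : 0 ≤ (L + (w : ℝ) + 3) * lam := by positivity
    have hwlam : (w : ℝ) ≤ lam / 1024 := by
      have h8 : (w : ℝ) * 1536 ≤ w * w := mul_le_mul_of_nonneg_left hw24 hw0.le
      have h9 : (w : ℝ) ^ 2 = w * w := by ring
      rw [h9] at hw2
      linarith
    have he : (1 : ℝ) + 1 / (4 * w) = (4 * w + 1) / (4 * w) := by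
      field_simp
    refine ⟨Real.exp (ln / E), 1 + 1 / (4 * w), K, ?_, ?_, ?_, ?_, ?_, ?_, ?_⟩
    · -- 2 ≤ a
      have e1 : 1 ≤ ln / E := by
        rw [le_div_iff₀ hRw0, one_mul, hE, hRr]
        have e2 : 128 * (64 * (c : ℝ)) * w ≤ 128 * (64 * (c * z)) * (1536 * (c * z)) := by
          refine mul_le_mul ?_ hwle hw0.le (by positivity)
          have e2' : (c : ℝ) ≤ c * z := le_mul_of_one_le_right hc0.le hzr
          linarith
        have e3 : 128 * (64 * ((c : ℝ) * z)) * (1536 * (c * z)) = 12582912 * ((c : ℝ) * z) ^ 2 := by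
          ring
        linarith
      have e2 := Real.add_one_le_exp (ln / E)
      linarith
    · rw [hapow]
      have e1 : ((128 * R * w : ℕ) : ℝ) * (ln / E) = ln := by
        push_cast
        rw [← hE]
        field_simp
      rw [e1, hexpn]
    · have : (0 : ℝ) < 1 / (4 * w) := by positivity
      linarith
    · -- (e^2)^L ≤ a^(2R)
      rw [hapow, ← pow_mul]
      have e1 : (1 + 1 / (4 * (w : ℝ))) ^ (2 * L) ≤ Real.exp ((2 * L : ℕ) * (1 / (4 * w))) := by
        rw [Real.exp_nat_mul]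
        refine pow_le_pow_left₀ (by positivity) ?_ _
        have := Real.add_one_le_exp (1 / (4 * (w : ℝ)))
        linarith
      refine e1.trans (Real.exp_le_exp.2 ?_)
      push_cast
      have e2 : 2 * (L : ℝ) * (1 / (4 * w)) = (32 * L) / (64 * w) := by
        field_simp
        ring
      have e3 : 2 * (R : ℝ) * (ln / E) = ln / (64 * w) := by
        rw [hE, hRr]
        field_simp
        ring
      rw [e2, e3]
      exact div_le_div_of_nonneg_right hln32 (by positivity)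
    · -- L ≤ K
      rw [hK]
      have e1 : (1 : ℝ) ≤ 4 * (4 * w + 1) ^ 2 := by
        have e0 : (1 : ℝ) ≤ (4 * w + 1) ^ 2 := one_le_pow₀ (by linarith)
        linarith
      have e2 : (0 : ℝ) ≤ (L + (w : ℝ) + 3) * lam + L := by positivity
      exact (by linarith : (L : ℝ) ≤ (L + (w : ℝ) + 3) * lam + L).trans
        (le_mul_of_one_le_left e2 e1)
    · -- the bound of K
      have e0 : 4 * (w : ℝ) * K * (4 * w + 1) ≤ Real.exp (ln / E) ^ (8 * R) := by
        rw [hapow]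
        have e3 : ((8 * R : ℕ) : ℝ) * (ln / E) = ln / (16 * w) := by
          push_cast
          rw [hE, hRr]
          field_simp
          ring
        rw [e3]
        obtain ⟨m, hm⟩ : ∃ m : ℝ, m = ln / (16 * w) := ⟨_, rfl⟩
        rw [← hm]
        have hmw : m * (16 * w) = ln := by rw [hm]; field_simp
        have hm0 : 0 ≤ m := by
          rw [hm]
          have : 0 ≤ ln := by linarith
          positivity
        -- m ^ 2 ≥ 0.4 lam
        have e4 : 0.4 * lam ≤ m ^ 2 := by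
          have e5 : (0.99 * lam) ^ 2 ≤ (m * (16 * w)) ^ 2 := by
            rw [hmw]
            exact pow_le_pow_left₀ (by positivity) (by linarith) 2
          have e6 : (m * (16 * (w : ℝ))) ^ 2 = m ^ 2 * (2 * (128 * w ^ 2)) := by ring
          have e7 : m ^ 2 * (2 * (128 * (w : ℝ) ^ 2)) ≤ m ^ 2 * (2 * lam) :=
            mul_le_mul_of_nonneg_left (by linarith) (sq_nonneg m)
          have e8 : (0.4 * lam) * (2 * lam) ≤ m ^ 2 * (2 * lam) := by
            have e9 : (0.4 * lam) * (2 * lam) ≤ (0.99 * lam) ^ 2 := by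
              have e10 : (0.99 * lam) ^ 2 - (0.4 * lam) * (2 * lam) = 0.1801 * lam ^ 2 := by ring
              have e11 : 0 ≤ lam ^ 2 := by positivity
              linarith
            linarith
          exact le_of_mul_le_mul_right e8 (by positivity)
        have e5 : 4 * (w : ℝ) * K * (4 * w + 1) ≤ lam ^ 4 := by
          have e6 : (L + (w : ℝ) + 3) * lam + L ≤ 2 * lam ^ 2 := by
            have e7 : (L + (w : ℝ) + 3) * lam ≤ lam * lam :=
              mul_le_mul_of_nonneg_right (by linarith) hlam0.le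
            have e8 : (L : ℝ) ≤ lam * lam := by
              have e9 : lam * 1 ≤ lam * lam := mul_le_mul_of_nonneg_left (by linarith) hlam0.le
              linarith
            have e9 : 2 * lam ^ 2 = lam * lam + lam * lam := by ring
            linarith
          have e7 : (4 * (w : ℝ) + 1) ^ 3 ≤ (5 * w) ^ 3 :=
            pow_le_pow_left₀ (by positivity) (by linarith) 3
          calc 4 * (w : ℝ) * K * (4 * w + 1)
              = (16 * w * (4 * w + 1) ^ 3) * ((L + (w : ℝ) + 3) * lam + L) := by rw [hK]; ring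
            _ ≤ (16 * w * (5 * w) ^ 3) * (2 * lam ^ 2) := by
                refine mul_le_mul ?_ e6 (by positivity) (by positivity)
                exact mul_le_mul_of_nonneg_left e7 (by positivity)
            _ = 4000 * (w ^ 2 * w ^ 2) * lam ^ 2 := by ring
            _ ≤ 4000 * ((lam / 128) * (lam / 128)) * lam ^ 2 := by
                have e8 : (w : ℝ) ^ 2 ≤ lam / 128 := by linarith
                gcongr
            _ ≤ lam ^ 4 := by
                have e9 : 0 ≤ lam ^ 4 := by positivity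
                have e10 : 4000 * ((lam / 128) * (lam / 128)) * lam ^ 2 =
                    4000 / 16384 * lam ^ 4 := by ring
                rw [e10]
                linarith
        have e6 := Real.pow_div_factorial_le_exp m hm0 10
        have e7 : ((10 : ℕ).factorial : ℝ) = 3628800 := by norm_num [Nat.factorial]
        rw [e7] at e6
        have e8 : lam ^ 4 ≤ m ^ 10 / 3628800 := by
          have e9 : (0.4 * lam) ^ 5 ≤ (m ^ 2) ^ 5 := pow_le_pow_left₀ (by positivity) e4 5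
          have e10 : (m ^ 2) ^ 5 = m ^ 10 := by ring
          rw [e10] at e9
          rw [le_div_iff₀ (by norm_num)]
          have e11 : (0.4 * lam) ^ 5 = lam ^ 4 * (0.01024 * lam) := by ring
          rw [e11] at e9
          have e12 : lam ^ 4 * 3628800 ≤ lam ^ 4 * (0.01024 * lam) := by
            refine mul_le_mul_of_nonneg_left ?_ (by positivity)
            linarith
          linarith
        linarith
      rw [he]
      have e1 : (4 * (w : ℝ) + 1) / (4 * w) - 1 = 1 / (4 * w) := by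
        field_simp
        ring
      rw [e1, mul_div_assoc', mul_one_div]
      exact div_le_div_of_nonneg_right e0 (by positivity)
    · -- the dispersion inequality
      rw [he]
      have e1 : 1 - 1 / ((4 * (w : ℝ) + 1) / (4 * w)) = 1 / (4 * w + 1) := by
        field_simp
        ring
      rw [e1, hK, ← hlam]
      refine le_of_eq ?_
      field_simp

end Pool.Agent.H15.RD
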