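/-
ROW Reg (about 150 lines). Degrees in the random graph. Uses `Pool.Agent.H9.KR.lower`, `upper2` as stated (and `rsub_gnp`, `mem_ed`, `mem_pairs`).
reg_pr. PROOF. For one pair `(B, S)` (`B` a block, `#B = n`, `S.card ≤ s`, `Disjoint S B`) let `A v = S.image (fun u => s(v, u))`, `v ∈ B`: subsets of `pairs` of size `S.card`, pairwise disjoint (for `v ∈ B`, `u ∈ S`: `s(v,u) = s(v',u')` forces `v = v'`, since `u' ∉ B`), and
 `A v ⊆ ed G ↔ ∀ u ∈ S, G.Adj v u`, so `nbr G B S = {v ∈ B | A v ⊆ ed G}`. `lower` with `q = p ^ S.card`, `y = q n / 8`: `pr (#nbr ≤ q n/8) ≤ exp (- q n/8)`; `upper2` with `t = 8 q n`: `pr (8 q n ≤ #nbr) ≤ exp (-8 q n)`. (`q n > 0`.)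
 Both are at most `exp (-(n p^s / 8))` since `p ≤ 1`. Union bound over `B ∈ 𝓑` and `S` with at most `s` elements: at most `(N+1)^s` sets (`#{S | S.card ≤ s} ≤ (N+1)^s`: map lists/functions `Fin s → Option ν`; or `∑_{i ≤ s} choose N i ≤ (N+1)^s`).
-/
import Pool.Agent.H15.RD.Defs
import Pool.Agent.H49.RG.Up2
import Pool.Agent.H9.KR.Lo
import Pool.Agent.H9.KR.Gnp

set_option autoImplicit false
set_option linter.unusedSectionVars false

open Finset

namespace Pool.Agent.H15.RD

open Pool.Agent.H49.RG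

open Pool.Agent.H9.KR

variable {N : ℕ}

theorem Reg_sets (s : ℕ) :
    ((univ.filter fun S : Finset (Fin N) => S.card ≤ s).card : ℝ) ≤ ((N : ℝ) + 1) ^ s := by
  have h2 : (univ.filter fun S : Finset (Fin N) => S.card ≤ s).card ≤ (N + 1) ^ s := by
    have h3 : (univ.filter fun S : Finset (Fin N) => S.card ≤ s) ⊆
        (univ : Finset (Fin s → Option (Fin N))).image
          (fun f => univ.filter fun v => ∃ i, f i = some v) := by
      intro S hS
      rw [mem_filter] at hS
      rw [mem_image]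
      refine ⟨fun i => if h : i.val < S.card then some (S.orderEmbOfFin rfl ⟨i.val, h⟩) else none,
        mem_univ _, ?_⟩
      ext v
      rw [mem_filter]
      constructor
      · rintro ⟨_, i, hi⟩
        by_cases h : i.val < S.card
        · simp only [h, dif_pos] at hi
          rw [← Option.some_inj.1 hi]
          exact orderEmbOfFin_mem _ _ _
        · simp only [h, dif_neg, not_false_eq_true] at hi
          cases hi
      · intro hv
        refine ⟨mem_univ _, ?_⟩
        have h4 : v ∈ Set.range (S.orderEmbOfFin rfl) := by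
          rw [range_orderEmbOfFin]
          exact hv
        obtain ⟨j, hj⟩ := h4
        refine ⟨⟨j.val, lt_of_lt_of_le j.2 hS.2⟩, ?_⟩
        simp only [j.2, dif_pos]
        exact congrArg some hj
    refine (card_le_card h3).trans (card_image_le.trans ?_)
    rw [card_univ, Fintype.card_fun, Fintype.card_option, Fintype.card_fin, Fintype.card_fin]
  exact_mod_cast h2

theorem reg_pr (p : unitInterval) (hp : 0 < (p : ℝ)) (n s : ℕ) (hn : 0 < n)
    (Bs : Finset (Finset (Fin N))) (hB : ∀ B ∈ Bs, B.card = n) :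
    pr (fun G : SimpleGraph (Fin N) => (SimpleGraph.binomialRandom (Fin N) p).real {G})
      (fun G => ∃ B ∈ Bs, ∃ S : Finset (Fin N), S.card ≤ s ∧ Disjoint S B ∧
        ¬ ((n : ℝ) * (p : ℝ) ^ S.card / 8 ≤ (nbr G B S).card ∧
          ((nbr G B S).card : ℝ) ≤ 8 * (n * (p : ℝ) ^ S.card))) ≤
      2 * Bs.card * ((N : ℝ) + 1) ^ s * Real.exp (-(n * (p : ℝ) ^ s / 8)) := by
  classical
  have h := rsub_gnp (V := Fin N) p
  have hw := h.nonneg
  have key := pr_exists_le_card hw Bs (fun B G => ∃ S : Finset (Fin N), S.card ≤ s ∧ Disjoint S B ∧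
        ¬ ((n : ℝ) * (p : ℝ) ^ S.card / 8 ≤ (nbr G B S).card ∧
          ((nbr G B S).card : ℝ) ≤ 8 * (n * (p : ℝ) ^ S.card)))
      (((N : ℝ) + 1) ^ s * (2 * Real.exp (-(n * (p : ℝ) ^ s / 8)))) fun B hBs => ?_
  · refine key.trans (le_of_eq (by ring))
  · have h1 := pr_exists_le_card hw (univ.filter fun S : Finset (Fin N) => S.card ≤ s)
      (fun S G => Disjoint S B ∧
        ¬ ((n : ℝ) * (p : ℝ) ^ S.card / 8 ≤ (nbr G B S).card ∧
          ((nbr G B S).card : ℝ) ≤ 8 * (n * (p : ℝ) ^ S.card)))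
      (2 * Real.exp (-(n * (p : ℝ) ^ s / 8))) fun S hS => ?_
    · refine (pr_mono hw ?_).trans (h1.trans (mul_le_mul_of_nonneg_right (Reg_sets s) (by positivity)))
      rintro G ⟨S, h2, h3, h4⟩
      exact ⟨S, mem_filter.2 ⟨mem_univ _, h2⟩, h3, h4⟩
    · have hS' : S.card ≤ s := (mem_filter.1 hS).2
      by_cases hd : Disjoint S B
      · have hE' : ∀ u ∈ B, ∀ v ∈ S, s(u, v) ∈ pairs (Fin N) := fun u hu v hv =>
          mem_pairs.2 fun h => disjoint_left.1 hd (h ▸ hv) hu
        have hn' : (0 : ℝ) < n := Nat.cast_pos.2 hn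
        have hps : (p : ℝ) ^ s ≤ (p : ℝ) ^ S.card := pow_le_pow_of_le_one p.2.1 p.2.2 hS'
        have hpp : 0 < (p : ℝ) ^ S.card := pow_pos hp _
        have hBc := hB B hBs
        have e1 := Pool.Agent.H82.RG.cn_lower h p.2.1 p.2.2 B S hd.symm hE' (n * (p : ℝ) ^ S.card / 2)
          (by rw [hBc]; linarith)
        have e2 := Pool.Agent.H82.RG.cn_upper h p.2.1 B S hd.symm hE' (8 * (n * (p : ℝ) ^ S.card))
          (by positivity) (by rw [hBc]; linarith)
        have h6 : (n : ℝ) * (p : ℝ) ^ s ≤ n * (p : ℝ) ^ S.card := mul_le_mul_of_nonneg_left hps hn'.le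
        have h7 : (0 : ℝ) ≤ n * (p : ℝ) ^ S.card := by positivity
        have e3 : Real.exp (-((p : ℝ) ^ S.card * B.card / 8)) ≤ Real.exp (-(n * (p : ℝ) ^ s / 8)) := by
          rw [Real.exp_le_exp, hBc]
          nlinarith
        have e4 : Real.exp (-(8 * (n * (p : ℝ) ^ S.card))) ≤ Real.exp (-(n * (p : ℝ) ^ s / 8)) := by
          rw [Real.exp_le_exp]
          linarith
        refine (pr_mono hw ?_).trans ((pr_or_le hw _ _).trans ((add_le_add (e1.trans e3) (e2.trans e4)).trans
          (le_of_eq (by ring))))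
        rintro G ⟨_, h5⟩
        have h8 : ∀ (inst : DecidablePred fun u => ∀ v ∈ S, s(u, v) ∈ ed G),
            (@Finset.filter _ (fun u => ∀ v ∈ S, s(u, v) ∈ ed G) inst B).card = (nbr G B S).card := by
          intro inst
          congr 1
          ext u
          rw [mem_nbr, mem_filter]
          refine and_congr_right fun _ => forall₂_congr fun v _ => ?_
          rw [mem_ed]
        by_contra hcon
        push Not at hcon
        have a1 := hcon.1
        have a2 := hcon.2
        rw [h8] at a1 a2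
        refine h5 ⟨?_, a2.le⟩
        linarith
      · have h2 : pr (fun G : SimpleGraph (Fin N) => (SimpleGraph.binomialRandom (Fin N) p).real {G})
          (fun G => Disjoint S B ∧
            ¬ ((n : ℝ) * (p : ℝ) ^ S.card / 8 ≤ (nbr G B S).card ∧
              ((nbr G B S).card : ℝ) ≤ 8 * (n * (p : ℝ) ^ S.card))) = 0 := by
          unfold pr
          refine sum_eq_zero fun o _ => ?_
          rw [if_neg fun h => hd h.1]
        rw [h2]
        positivity

end Pool.Agent.H15.RD
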