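/-
The final theorem (helper49). Uses noref, rnd_ok, numq_ok, nq, ref_of, cutting_group, resolution_cutting, pr_clique.
-/
import Pool.Agent.H15.RD.Dsc
import Pool.Agent.H15.RD.Rx
import Pool.Agent.H15.RD.Nm
import Pool.Agent.H15.RD.Nq
import Pool.Agent.H15.RD.Rf
import Pool.Agent.H49.RG.Cp
import Pool.Agent.H35.CL.Uny
import Pool.Agent.H9.KR.CF

set_option autoImplicit false
set_option linter.unusedSectionVars false

open Finset

namespace Pool.Agent.H15.RD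

open Pool.Agent.H49.RG

open Pool.Agent.H35.CL Pool.Agent.H9.KR

theorem Ref.mono {ν : Type} {G : SimpleGraph ν} {R L : ℕ}
    {V : Fin R → Fin L → Finset ν} {r r' S : ℕ} {F : ℕ → Fin R → (Fin L → ν) → ℝ} {t : ℕ → ℝ}
    (h : Ref G V r S F t) (hr : r ≤ r') : Ref G V r' S F t where
  step := fun s hs => by
    obtain ⟨prem, h1, h2⟩ := h.step s hs
    exact ⟨prem, h1.trans hr, h2⟩
  last := h.last

theorem group_pr (c z k N : ℕ) (p : unitInterval) (hc : 1 ≤ c) (hz : 1 ≤ z)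
    (hk : 2 ^ 30 * c ^ 3 * z ^ 2 ≤ k) (hN : 2 ^ k ≤ N ^ c)
    (hp : (N : ℝ) ^ (-(c : ℝ) / k) ≤ p) :
    (SimpleGraph.binomialRandom (Fin N) p).real
      {G | ∃ S q : ℕ, S ≤ N ^ z ∧ 64 * c * q ≤ k ∧
        ∃ f, GroupRefutation (k := k) G (64 * c) q S f} ≤ 1 / N := by
  obtain ⟨h1, h2, h3, h4, h4', h5, h6, h7, a, e, K, ha, han, he, heL, hLK, hK1, hK2⟩ :=
    nqd c z k N (64 * c) (k / (64 * c) + 1) (N / (64 * c * (k / (64 * c) + 1)))
      (64 * c * (16 * z + 8)) p hc hz hk hN hp rfl rfl rfl rfl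
  set R : ℕ := 64 * c with hR
  set L : ℕ := k / R + 1 with hL
  set n : ℕ := N / (R * L) with hn
  set w : ℕ := R * (16 * z + 8) with hw
  have hR1 : 1 ≤ R := by omega
  have hk0 : 0 < k := lt_of_lt_of_le (by positivity) hk
  have hN0 : 0 < N := by
    rcases Nat.eq_zero_or_pos N with h0 | h0
    · rw [h0, zero_pow (by omega)] at hN
      have : 0 < 2 ^ k := by positivity
      omega
    · exact h0
  have hp0 : (0 : ℝ) < p := lt_of_lt_of_le (by positivity) hp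
  have hOK := numd_ok a (e ^ 2) e K R L z n N (k / R) w p hw hR1 hz h3 (by omega) hp0 p.2.2 h4 h4' h5
    ha han he le_rfl heL hLK hK1
  obtain ⟨hOK, hS⟩ := hOK
  have hw1 : 1 ≤ (numd a (e ^ 2) e K R L z n N (k / R) w p).w := by
    show 1 ≤ R * (16 * z + 8)
    exact Nat.mul_pos hR1 (by omega)
  have h24 : 1 ≤ (n : ℝ) * (p : ℝ) ^ (24 * L) := by
    refine h4.trans (mul_le_mul_of_nonneg_left ?_ (Nat.cast_nonneg n))
    exact pow_le_pow_of_le_one p.2.1 p.2.2 (by omega)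
  have hpr := rnd_ok (R := R) (L := L) (N := N) (numd a (e ^ 2) e K R L z n N (k / R) w p) hOK p rfl
    h1 rfl rfl h24 hK2 h6 h7
  refine le_trans ?_ hpr
  refine MeasureTheory.measureReal_mono ?_
  rintro G ⟨S, r, hSN, hr, f, hf⟩ hG
  obtain ⟨F, t, hT⟩ := ref_of (L := L) hR1 h2 G
    (fun (b : Fin R) (j : Fin L) => Vb R (numd a (e ^ 2) e K R L z n N (k / R) w p).n N b j) hf
  have hrk : r ≤ k / R := (Nat.le_div_iff_mul_le (by omega)).2 (by rw [mul_comm]; exact hr)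
  refine noref hG hOK hw1 S ?_ F t (hT.mono hrk)
  refine le_trans ?_ hS
  have hκ := hOK.κ0_pos
  have hSR : (S : ℝ) ≤ (N : ℝ) ^ z := by exact_mod_cast hSN
  gcongr

theorem main (c z k N : ℕ) (p : unitInterval) (hc : 1 ≤ c) (hz : 1 ≤ z)
    (hk : 2 ^ 30 * c ^ 3 * z ^ 2 ≤ k) (hN : 2 ^ k ≤ N ^ c)
    (hp : (N : ℝ) ^ (-(c : ℝ) / k) ≤ p) :
    (SimpleGraph.binomialRandom (Fin N) p).real {G | ∃ S : ℕ, S ≤ N ^ z ∧
      ((∃ C, ResolutionOf (KClique G k) S C) ∨ ∃ q, 64 * c * q ≤ k ∧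
        ((∃ a b, CuttingPlanesOf (KClique G k) q S a b) ∨
          ∃ f, GroupRefutation (k := k) G (64 * c) q S f))} ≤ 1 / N ∧
    ((p : ℝ) ≤ (N : ℝ) ^ (-(2 + 5 / (k : ℝ)) / k) →
      (SimpleGraph.binomialRandom (Fin N) p).real {G | ¬ G.CliqueFree k} ≤ 1 / N) := by
  have hcz : 1 ≤ c ^ 3 * z ^ 2 := Nat.mul_pos (by positivity) (by positivity)
  have hk30 : 2 ^ 30 ≤ k := by
    calc 2 ^ 30 ≤ 2 ^ 30 * (c ^ 3 * z ^ 2) := Nat.le_mul_of_pos_right _ hcz
      _ ≤ k := by rw [← mul_assoc]; exact hk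
  have hc3 : c ≤ c ^ 3 * z ^ 2 := by
    calc c = c * 1 := (mul_one c).symm
      _ ≤ c * (c ^ 2 * z ^ 2) := Nat.mul_le_mul_left _ (Nat.mul_pos (by positivity) (by positivity))
      _ = c ^ 3 * z ^ 2 := by ring
  have hck : 64 * c * 2 ≤ k := by
    calc 64 * c * 2 = 128 * c := by ring
      _ ≤ 2 ^ 30 * (c ^ 3 * z ^ 2) := Nat.mul_le_mul (by norm_num) hc3
      _ ≤ k := by rw [← mul_assoc]; exact hk
  have hN0 : 0 < N := by
    rcases Nat.eq_zero_or_pos N with h0 | h0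
    · rw [h0, zero_pow (by omega)] at hN
      have : 0 < 2 ^ k := by positivity
      omega
    · exact h0
  constructor
  · refine le_trans (MeasureTheory.measureReal_mono ?_) (group_pr c z k N p hc hz hk hN hp)
    rintro G ⟨S, hS, h | ⟨q, hq, h | ⟨f, hf⟩⟩⟩
    · obtain ⟨C, hC⟩ := h
      obtain ⟨a, b, hab⟩ := resolution_cutting hC
      obtain ⟨f, hf⟩ := cutting_group (R := 64 * c) (by omega) (by omega) G hab
      exact ⟨S, 2, hS, hck, f, hf⟩
    · obtain ⟨a, b, hab⟩ := h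
      obtain ⟨f, hf⟩ := cutting_group (R := 64 * c) (by omega) (by omega) G hab
      exact ⟨S, q, hS, hq, f, hf⟩
    · exact ⟨S, q, hS, hq, f, hf⟩
  · intro hp3
    rw [real_eq_pr p]
    refine (pr_clique (rsub_gnp (V := Fin N) p) k).trans ?_
    rw [Fintype.card_fin]
    have hNr : (1 : ℝ) ≤ N := by exact_mod_cast hN0
    have hN0' : (0 : ℝ) < N := by linarith
    have hk0 : (0 : ℝ) < k := by
      have : 0 < k := by omega
      exact_mod_cast this
    have h2 : ((N.choose k : ℕ) : ℝ) ≤ (N : ℝ) ^ (k : ℝ) := by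
      rw [Real.rpow_natCast]
      exact_mod_cast Nat.choose_le_pow N k
    have h3 : (p : ℝ) ^ (k.choose 2) ≤ (N : ℝ) ^ (-((2 + 5 / (k : ℝ)) * ((k : ℝ) - 1) / 2)) := by
      calc (p : ℝ) ^ (k.choose 2) ≤ ((N : ℝ) ^ (-(2 + 5 / (k : ℝ)) / k)) ^ (k.choose 2) :=
            pow_le_pow_left₀ p.2.1 hp3 _
        _ = (N : ℝ) ^ (-((2 + 5 / (k : ℝ)) * ((k : ℝ) - 1) / 2)) := by
            rw [← Real.rpow_natCast, ← Real.rpow_mul hN0'.le, Nat.cast_choose_two]
            congr 1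
            field_simp
    calc ((N.choose k : ℕ) : ℝ) * (p : ℝ) ^ (k.choose 2) ≤
          (N : ℝ) ^ (k : ℝ) * (N : ℝ) ^ (-((2 + 5 / (k : ℝ)) * ((k : ℝ) - 1) / 2)) :=
            mul_le_mul h2 h3 (pow_nonneg p.2.1 _) (by positivity)
      _ = (N : ℝ) ^ ((k : ℝ) + -((2 + 5 / (k : ℝ)) * ((k : ℝ) - 1) / 2)) :=
            (Real.rpow_add hN0' _ _).symm
      _ ≤ (N : ℝ) ^ (-1 : ℝ) := by
          apply Real.rpow_le_rpow_of_exponent_le hNr
          have h4 : (5 : ℝ) ≤ k := by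
            have : 5 ≤ k := by omega
            exact_mod_cast this
          have h5 : (k : ℝ) + -((2 + 5 / (k : ℝ)) * ((k : ℝ) - 1) / 2) =
              -1 - (1 / 2 - 5 / (2 * k)) := by
            field_simp
            ring
          have h6 : 5 / (2 * (k : ℝ)) ≤ 1 / 2 := by
            rw [div_le_div_iff₀ (by positivity) (by norm_num)]
            linarith
          rw [h5]
          linarith
      _ = 1 / N := by rw [Real.rpow_neg_one, one_div]

end Pool.Agent.H15.RD
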