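/-
ROW Gl (about 120 lines; helper35). The main lemma on cells, by induction. Uses half, case1, case2, clm_small, clm_U, clm_Y, two_le as stated.
PROOF. Induction on `#C * (2 L + 2 ψm + 6 w + 2)` + `(L - U.card) + (ψm + 3w - Ψ.card)`-type measure (or lexicographic: strong induction on `#C`, inside it on `(L - U.card) + (ψm + 3w - Ψ.card)`). If `w < Y.card`, or `f < U.card`, or `ψm ≤ Ψ.card`, or `den C ≤ κ Tot`: base cases. Otherwise
 `2 ≤ #C` (two_le); take the lower half `A` (half). If hreg of case2 holds for `A`: case2 (`#A < #C`; `A` in position). If it fails: there are `U1 ⊇ U`, `α1`, `Φ' ⊇ Ψ ∪ Y`, `Φ' ⊆ Out`, `Φ'.card ≤ (Ψ∪Y).card + 3w` with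
 `8 h^.. h1^.. den A U α (Ψ∪Y) < den A U1 α1 Φ'`; `γ = Φ' \ (Ψ∪Y)`, `γ.card = Φ'.card - (Ψ∪Y).card ≤ 3w`, `Φ' = Ψ ∪ γ ∪ Y`. `den C ≤ 2 den A`, and `den A U1 α1 Φ' ≤ den C1 U1 α1 Φ'`, so hbig of case1 holds. `C1 = cell C U1 α1 Φ'` is in position (`U1, Ψ ∪ γ, Y`; `(Ψ∪γ).card ≤ ψm + 3w` as `Ψ.card < ψm`).
 `C1` nonempty (its density is > 0), so `#(C \ C1) < #C`. For `C1`: `#C1 ≤ #C`, and if `#C1 = #C` then `U1 ≠ U` or `γ ≠ ∅` (otherwise `8 den A < den A`), so the second part of the measure drops.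
(2) bad_new: for `N = bad (s+1) \ bad s`: with `U = ∅, Ψ = ∅, Y = ∅` (`W L 0 0 = 1`): every `x ∈ N` is in `Bad (F s) N ∅` (Good.mono, `N ⊆ pts \ bad s`), so `#N^2 ≤ κ0 Tot #N`. bad_card by induction. bad_mono clear.
-/
import Pool.Agent.H15.RD.C2
import Pool.Agent.H49.RG.Hlf

set_option autoImplicit false
set_option linter.unusedSectionVars false

open Finset

namespace Pool.Agent.H15.RD

open Pool.Agent.H49.RG

variable {ν : Type} [Fintype ν] [DecidableEq ν] {L : ℕ}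

theorem lemG_aux {P : Pl ν L} {c : Num} {R : ℕ} (h : P.OK c) (hc : c.OK R L)
    (F : (Fin L → ν) → ℝ) (N : ℕ) : ∀ (C : Finset (Fin L → ν)) (U : Finset (Fin L)) (α : Fin L → ν)
    (Ψ Y : Finset ν), C.card + (c.f + 1 - U.card) + (c.ψm - Ψ.card) ≤ N → P.Pos c C U α Ψ Y →
      P.Clm c F C U α Ψ Y := by
  induction N with
  | zero =>
    intro C U α Ψ Y hN hP
    by_cases hY : c.w < Y.card
    · exact clm_Y h hc hP hY
    · exact clm_U h hc hP (not_lt.1 hY) (Or.inl (by omega))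
  | succ N ih =>
    intro C U α Ψ Y hN hP
    by_cases hY : c.w < Y.card
    · exact clm_Y h hc hP hY
    rw [not_lt] at hY
    by_cases hU : c.f < U.card ∨ c.ψm ≤ Ψ.card
    · exact clm_U h hc hP hY hU
    push Not at hU
    obtain ⟨hU, hΨ⟩ := hU
    by_cases hd : P.den c C U α (Ψ ∪ Y) ≤ c.κ U.card Ψ.card Y.card * c.Tot L
    · exact clm_small h hc hP hd
    rw [not_le] at hd
    have hC2 := two_le h hc hP hY hU hd
    obtain ⟨A, hAC, hA2, hA3, hAF⟩ := half F C hC2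
    have hAP : P.Pos c A U α Ψ Y := ⟨hAC.trans hP.sub, hP.out, hP.dis, hP.Ψ_le⟩
    by_cases hreg : ∀ (U' : Finset (Fin L)) (α' : Fin L → ν) (Φ' : Finset ν), U ⊆ U' → Eqn U α' α →
      Ψ ∪ Y ⊆ Φ' → Φ' ⊆ P.Out → Φ'.card ≤ (Ψ ∪ Y).card + 3 * c.w →
      P.den c A U' α' Φ' ≤ 8 * c.h ^ (U'.card - U.card) *
        c.h1 ^ (Φ'.card - (Ψ ∪ Y).card) * P.den c A U α (Ψ ∪ Y)
    · refine case2 h hc hP hY hU hΨ hd A hAC hA2 hA3 hAF hreg (ih A U α Ψ Y (by omega) hAP) ?_
      intro C' hC' γ hP'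
      exact ih C' U α Ψ (Y ∪ γ) (by omega) hP'
    · push Not at hreg
      obtain ⟨U1, α1, Φ', hU1, hα1, hΦ', hout, hcard, hlt⟩ := hreg
      obtain ⟨γ, hγ⟩ : ∃ γ, γ = Φ' \ (Ψ ∪ Y) := ⟨_, rfl⟩
      have hγd : Disjoint γ (Ψ ∪ Y) := by
        rw [hγ]
        exact sdiff_disjoint
      have hΦe : Ψ ∪ γ ∪ Y = Φ' := by
        rw [hγ]
        ext v
        simp only [mem_union, mem_sdiff]
        constructor
        · rintro ((h1 | h1) | h1)
          · exact hΦ' (mem_union_left _ h1)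
          · exact h1.1
          · exact hΦ' (mem_union_right _ h1)
        · intro h1
          tauto
      have hγc : γ.card = Φ'.card - (Ψ ∪ Y).card := by
        rw [hγ, card_sdiff_of_subset hΦ']
      have hW := Num.W_pos hc.p_pos hc.n_pos L U.card (Ψ ∪ Y).card
      have hdenA : P.den c C U α (Ψ ∪ Y) ≤ 2 * P.den c A U α (Ψ ∪ Y) := by
        rw [P.den_of_sub c hP.sub, P.den_of_sub c hAP.sub]
        have h1 : (C.card : ℝ) ≤ 2 * A.card := by exact_mod_cast hA2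
        calc (C.card : ℝ) * c.W L U.card (Ψ ∪ Y).card ≤ (2 * A.card) * c.W L U.card (Ψ ∪ Y).card :=
              mul_le_mul_of_nonneg_right h1 hW.le
          _ = _ := by ring
      have hh0 : 0 < c.h := lt_of_lt_of_le one_pos hc.h_ge
      have hh1 : 0 < c.h1 := lt_of_lt_of_le one_pos hc.h1_ge
      have hA0 : 0 ≤ P.den c A U α (Ψ ∪ Y) := P.den_nonneg hc.p_pos hc.n_pos _ _ _ _
      have hbig : 4 * (c.h ^ (U1.card - U.card) * c.h1 ^ γ.card) * P.den c C U α (Ψ ∪ Y) <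
          P.den c (cell P.G C U1 α1 (Ψ ∪ γ ∪ Y)) U1 α1 (Ψ ∪ γ ∪ Y) := by
        rw [hΦe]
        have e1 : P.den c (cell P.G C U1 α1 Φ') U1 α1 Φ' = P.den c C U1 α1 Φ' := by
          unfold Pl.den
          rw [cell_cell C (Subset.refl U1) (fun j _ => rfl) (Subset.refl Φ')]
        rw [e1]
        have e2 := P.den_mono hc.p_pos hc.n_pos hAC U1 α1 Φ'
        calc 4 * (c.h ^ (U1.card - U.card) * c.h1 ^ γ.card) * P.den c C U α (Ψ ∪ Y)
            ≤ 4 * (c.h ^ (U1.card - U.card) * c.h1 ^ γ.card) * (2 * P.den c A U α (Ψ ∪ Y)) :=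
              mul_le_mul_of_nonneg_left hdenA (by positivity)
          _ = 8 * c.h ^ (U1.card - U.card) * c.h1 ^ (Φ'.card - (Ψ ∪ Y).card) *
                P.den c A U α (Ψ ∪ Y) := by rw [hγc]; ring
          _ < P.den c A U1 α1 Φ' := hlt
          _ ≤ _ := e2
      have hC1C : cell P.G C U1 α1 (Ψ ∪ γ ∪ Y) ⊆ C := cell_sub _ _ _ _ _
      have hC1pos : 0 < (cell P.G C U1 α1 (Ψ ∪ γ ∪ Y)).card := by
        rw [Nat.pos_iff_ne_zero]
        intro h0
        rw [card_eq_zero] at h0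
        rw [h0] at hbig
        have e1 : P.den c (∅ : Finset (Fin L → ν)) U1 α1 (Ψ ∪ γ ∪ Y) = 0 := by
          unfold Pl.den
          have : cell P.G (∅ : Finset (Fin L → ν)) U1 α1 (Ψ ∪ γ ∪ Y) = ∅ := by
            rw [← subset_empty]
            exact cell_sub _ _ _ _ _
          rw [this]
          simp
        rw [e1] at hbig
        have e2 := P.den_nonneg hc.p_pos hc.n_pos C U α (Ψ ∪ Y)
        have e3 : 0 ≤ 4 * (c.h ^ (U1.card - U.card) * c.h1 ^ γ.card) * P.den c C U α (Ψ ∪ Y) := by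
          positivity
        linarith
      have hC1le := card_le_card hC1C
      have hsd : (C \ cell P.G C U1 α1 (Ψ ∪ γ ∪ Y)).card = C.card - (cell P.G C U1 α1 (Ψ ∪ γ ∪ Y)).card :=
        card_sdiff_of_subset hC1C
      have hΨγ : (Ψ ∪ γ).card = Ψ.card + γ.card :=
        card_union_of_disjoint (disjoint_union_right.1 hγd).1.symm
      have hdrop : U.card < U1.card ∨ 0 < γ.card := by
        by_contra hcon
        push Not at hcon
        obtain ⟨h1, h2⟩ := hcon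
        have h3 : U1 = U := (eq_of_subset_of_card_le hU1 h1).symm
        have h4 : γ.card = 0 := by omega
        have h5 : Φ' = Ψ ∪ Y := by
          rw [card_eq_zero] at h4
          rw [← hΦe, h4, union_empty]
        subst h3
        rw [h5] at hlt
        simp only [Nat.sub_self, pow_zero, mul_one] at hlt
        have h6 : P.den c A U1 α1 (Ψ ∪ Y) = P.den c A U1 α (Ψ ∪ Y) := by
          unfold Pl.den
          have : cell P.G A U1 α1 (Ψ ∪ Y) = cell P.G A U1 α (Ψ ∪ Y) :=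
            Subset.antisymm (cell_anti A (Subset.refl U1) hα1 (Subset.refl _))
              (cell_anti A (Subset.refl U1) hα1.symm (Subset.refl _))
          rw [this]
        rw [h6] at hlt
        linarith
      have hU1c := card_le_card hU1
      refine case1 h hc hP U1 α1 γ hU1 hα1 hγd hbig ?_ ?_
      · refine ih _ _ _ _ _ ?_ ⟨?_, ?_, ?_, ?_⟩
        · rw [hΨγ]
          omega
        · have e1 : C ⊆ pts P.G P.V := hP.sub.trans (cell_sub _ _ _ _ _)
          exact cell_mono e1 _ _ _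
        · rw [hΦe]
          exact hout
        · rw [disjoint_union_left]
          exact ⟨hP.dis, (disjoint_union_right.1 hγd).2⟩
        · rw [hΨγ, hγc]
          omega
      · refine ih _ _ _ _ _ ?_ ⟨sdiff_subset.trans hP.sub, hP.out, hP.dis, hP.Ψ_le⟩
        rw [hsd]
        omega

theorem lemG {P : Pl ν L} {c : Num} {R : ℕ} (h : P.OK c) (hc : c.OK R L)
    (F : (Fin L → ν) → ℝ) (C : Finset (Fin L → ν)) (U : Finset (Fin L)) (α : Fin L → ν)
    (Ψ Y : Finset ν) (hP : P.Pos c C U α Ψ Y) : P.Clm c F C U α Ψ Y :=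
  lemG_aux h hc F _ C U α Ψ Y le_rfl hP

theorem bad_mono {P : Pl ν L} {c : Num} (F : ℕ → (Fin L → ν) → ℝ) {s s' : ℕ} (h : s ≤ s') :
    P.bad c F s ⊆ P.bad c F s' := by
  induction s', h using Nat.le_induction with
  | base => exact Subset.refl _
  | succ s' _ ih => exact ih.trans subset_union_left

theorem bad_sub_pts {P : Pl ν L} {c : Num} (F : ℕ → (Fin L → ν) → ℝ) (s : ℕ) :
    P.bad c F s ⊆ pts P.G P.V := by
  induction s with
  | zero => exact empty_subset _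
  | succ s ih => exact union_subset ih (Bad_sub.trans sdiff_subset)

theorem bad_new {P : Pl ν L} {c : Num} {R : ℕ} (h : P.OK c) (hc : c.OK R L)
    (F : ℕ → (Fin L → ν) → ℝ) (s : ℕ) :
    ((P.Bad c (F s) (pts P.G P.V \ P.bad c F s) ∅).card : ℝ) ≤ c.κ0 * c.Tot L := by
  obtain ⟨N, hN⟩ : ∃ N, N = P.Bad c (F s) (pts P.G P.V \ P.bad c F s) ∅ := ⟨_, rfl⟩
  rw [← hN]
  have hsub : N ⊆ pts P.G P.V := by
    rw [hN]
    exact Bad_sub.trans sdiff_subset
  have hTot := Num.Tot_pos hc.p_pos hc.n_pos L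
  rcases N.eq_empty_or_nonempty with h0 | ⟨x0, hx0⟩
  · rw [h0]
    simp only [card_empty, Nat.cast_zero]
    exact mul_nonneg hc.κ0_pos.le hTot.le
  have hcell : N ⊆ cell P.G (pts P.G P.V) ∅ x0 (∅ ∪ ∅) := by
    intro x hx
    refine mem_cell.2 ⟨hsub hx, fun j hj => absurd hj (notMem_empty j), fun j _ v hv => ?_⟩
    simp at hv
  have hP : P.Pos c N ∅ x0 ∅ ∅ := ⟨hcell, by simp, disjoint_empty_left _, by simp⟩
  have h1 := lemG h hc (F s) N ∅ x0 ∅ ∅ hP
  rw [clm_iff hc hcell] at h1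
  have hBad : P.Bad c (F s) N ∅ = N := by
    refine Subset.antisymm Bad_sub fun x hx => ?_
    have hx' := hx
    rw [hN] at hx'
    exact Bad_of_sub hx' (by rw [hN]; exact Bad_sub) hx
  rw [hBad] at h1
  have hW : c.W L (∅ : Finset (Fin L)).card (∅ ∪ ∅ : Finset ν).card = 1 := by
    unfold Num.W
    simp
  have hκ : c.κ (∅ : Finset (Fin L)).card (∅ : Finset ν).card (∅ : Finset ν).card = c.κ0 := by
    unfold Num.κ
    simp
  rw [hW, hκ, div_one, sq] at h1
  have hpos : (0 : ℝ) < N.card := by exact_mod_cast card_pos.2 ⟨x0, hx0⟩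
  exact le_of_mul_le_mul_right h1 hpos

theorem bad_card {P : Pl ν L} {c : Num} {R : ℕ} (h : P.OK c) (hc : c.OK R L)
    (F : ℕ → (Fin L → ν) → ℝ) (s : ℕ) :
    ((P.bad c F s).card : ℝ) ≤ s * (c.κ0 * c.Tot L) := by
  induction s with
  | zero => simp [Pl.bad]
  | succ s ih =>
    have h1 : ((P.bad c F (s + 1)).card : ℝ) ≤ (P.bad c F s).card +
        (P.Bad c (F s) (pts P.G P.V \ P.bad c F s) ∅).card := by
      exact_mod_cast card_union_le _ _
    have h2 := bad_new h hc F s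
    push_cast
    linarith

theorem good_of_not_bad {P : Pl ν L} {c : Num} (F : ℕ → (Fin L → ν) → ℝ) (s : ℕ)
    {x : Fin L → ν} (hx : x ∈ pts P.G P.V) (hb : x ∉ P.bad c F (s + 1)) (y : Finset ν)
    (hy : y ⊆ P.Out) (hyc : y.card ≤ c.w) (hxy : Ad P.G univ x y) :
    P.Good c (F s) (pts P.G P.V \ P.bad c F s) x y := by
  by_contra hcon
  apply hb
  have h1 : x ∉ P.bad c F s := fun h2 => hb (bad_mono F (Nat.le_succ s) h2)
  exact mem_union_right _ (Pl.mem_Bad.2 ⟨mem_sdiff.2 ⟨hx, h1⟩, y, empty_subset _, hy, hyc, hxy, hcon⟩)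

end Pool.Agent.H15.RD
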